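import Mathlib

/-!
# A system of strict inequalities solvable in an ordered abelian group is solvable in `ℤ`
-/

set_option linter.unusedSectionVars false

namespace H69

/-- A natural number which beats finitely many integers. -/
theorem gordan_bound {σ : Type*} (U : Finset (σ → ℤ)) (f : (σ → ℤ) → ℤ) :
    ∃ N : ℤ, 0 < N ∧ ∀ u ∈ U, f u < N := by
  classical
  refine ⟨1 + ∑ u ∈ U, |f u|, ?_, ?_⟩
  · have : 0 ≤ ∑ u ∈ U, |f u| := Finset.sum_nonneg fun u _ => abs_nonneg _
    omega
  · intro u hu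
    have h1 : |f u| ≤ ∑ u ∈ U, |f u| :=
      Finset.single_le_sum (f := fun u => |f u|) (fun u _ => abs_nonneg _) hu
    have h2 : f u ≤ |f u| := le_abs_self _
    omega

theorem gordan_aux {σ : Type*} [Fintype σ] [DecidableEq σ] {V : Type*} [AddCommGroup V]
    [LinearOrder V] [IsOrderedAddMonoid V] (φ : (σ → ℤ) →+ V) (n : ℕ) :
    ∀ U : Finset (σ → ℤ), U.card ≤ n → (∀ u ∈ U, 0 < φ u) →
      ∃ ψ : (σ → ℤ) →+ ℤ, ∀ u ∈ U, 0 < ψ u := by
  induction n with
  | zero =>
    intro U hc _
    have hU : U = ∅ := Finset.card_eq_zero.mp (Nat.le_zero.mp hc)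
    subst hU
    exact ⟨0, by simp⟩
  | succ n ih =>
    intro U hc h
    rcases U.eq_empty_or_nonempty with hU | ⟨u₀, hu₀⟩
    · subst hU
      exact ⟨0, by simp⟩
    have hc' : (U.erase u₀).card ≤ n := by
      rw [Finset.card_erase_of_mem hu₀]; omega
    have h' : ∀ u ∈ U.erase u₀, 0 < φ u := fun u hu => h u (Finset.mem_of_mem_erase hu)
    obtain ⟨ψ', hψ'⟩ := ih (U.erase u₀) hc' h'
    have hφ0 : 0 < φ u₀ := h u₀ hu₀
    -- it is enough to treat `u₀` and the other elements separately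
    have key : ∀ ψ : (σ → ℤ) →+ ℤ, 0 < ψ u₀ → (∀ u ∈ U.erase u₀, 0 < ψ u) →
        ∀ u ∈ U, 0 < ψ u := by
      intro ψ h0 h1 u hu
      by_cases hne : u = u₀
      · rw [hne]; exact h0
      · exact h1 u (Finset.mem_erase.mpr ⟨hne, hu⟩)
    rcases lt_trichotomy (ψ' u₀) 0 with hneg | hzero | hpos
    · -- the negative case
      obtain ⟨m, hm⟩ : ∃ m : ℤ, m = -ψ' u₀ := ⟨_, rfl⟩
      have hm0 : 0 < m := by omega
      have hcard : ((U.erase u₀).image (fun u => m • u + ψ' u • u₀)).card ≤ n :=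
        Finset.card_image_le.trans hc'
      obtain ⟨ψ'', hψ''⟩ := ih _ hcard (by
        intro v hv
        obtain ⟨u, hu, rfl⟩ := Finset.mem_image.mp hv
        rw [map_add, map_zsmul, map_zsmul]
        exact add_pos (zsmul_pos (h' u hu) hm0) (zsmul_pos hφ0 (hψ' u hu)))
      obtain ⟨N, hN0, hN⟩ := gordan_bound (U.erase u₀) ψ'
      refine ⟨N • (m • ψ'' + ψ'' u₀ • ψ') - ψ', key _ ?_ ?_⟩
      · have e : (N • (m • ψ'' + ψ'' u₀ • ψ') - ψ') u₀ = m := by
          simp only [AddMonoidHom.sub_apply, AddMonoidHom.smul_apply, AddMonoidHom.add_apply,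
            smul_eq_mul]
          rw [hm]; ring
        rw [e]; exact hm0
      · intro u hu
        have e : (N • (m • ψ'' + ψ'' u₀ • ψ') - ψ') u
            = N * (m * ψ'' u + ψ' u * ψ'' u₀) - ψ' u := by
          simp only [AddMonoidHom.sub_apply, AddMonoidHom.smul_apply, AddMonoidHom.add_apply,
            smul_eq_mul]
          ring
        rw [e]
        have h1 := hψ'' _ (Finset.mem_image_of_mem _ hu)
        rw [map_add, map_zsmul, map_zsmul, smul_eq_mul, smul_eq_mul] at h1
        have h2 : N * 1 ≤ N * (m * ψ'' u + ψ' u * ψ'' u₀) :=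
          mul_le_mul_of_nonneg_left (by omega) hN0.le
        have h3 := hN u hu
        rw [mul_one] at h2
        omega
    · -- the zero case
      have hne : u₀ ≠ 0 := by
        rintro rfl
        rw [map_zero] at hφ0
        exact lt_irrefl _ hφ0
      obtain ⟨i, hi⟩ := Function.ne_iff.mp hne
      have hi' : u₀ i ≠ 0 := hi
      obtain ⟨N, hN0, hN⟩ := gordan_bound (U.erase u₀) (fun u => -(u₀ i * u i))
      refine ⟨N • ψ' + u₀ i • Pi.evalAddMonoidHom (fun _ : σ => ℤ) i, key _ ?_ ?_⟩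
      · have e : (N • ψ' + u₀ i • Pi.evalAddMonoidHom (fun _ : σ => ℤ) i) u₀ = u₀ i * u₀ i := by
          simp only [AddMonoidHom.smul_apply, AddMonoidHom.add_apply, smul_eq_mul, hzero,
            Pi.evalAddMonoidHom_apply]
          ring
        rw [e]
        exact mul_self_pos.mpr hi'
      · intro u hu
        have e : (N • ψ' + u₀ i • Pi.evalAddMonoidHom (fun _ : σ => ℤ) i) u
            = N * ψ' u + u₀ i * u i := by
          simp only [AddMonoidHom.smul_apply, AddMonoidHom.add_apply, smul_eq_mul,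
            Pi.evalAddMonoidHom_apply]
        rw [e]
        have h1 := hψ' u hu
        have h2 : N * 1 ≤ N * ψ' u := mul_le_mul_of_nonneg_left (by omega) hN0.le
        have h3 := hN u hu
        rw [mul_one] at h2
        omega
    · exact ⟨ψ', key _ hpos hψ'⟩

/-- Proof by induction over the cardinality of `U` (for all `U` simultaneously).
Let `U = insert u₀ U'`.  By the induction hypothesis there is `ψ'` with `ψ' u > 0` for `u ∈ U'`.

If `ψ' u₀ > 0`, done.

If `ψ' u₀ = 0`: as `φ u₀ > 0`, `u₀ ≠ 0`, so there is `η` (plus or minus a coordinate function) with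
`η u₀ > 0`; then `ψ = N ψ' + η` is positive on `U` for large `N`.

If `ψ' u₀ = -m < 0`: for `u ∈ U'` put `u~ = m • u + (ψ' u) • u₀` (here `m > 0` and `ψ' u > 0` are
positive integers), then `φ u~ > 0`; the set of the `u~` has at most `card U'` elements, so by the
induction hypothesis there is `ψ''` with `ψ'' u~ > 0`, that is, `m ψ''(u) + ψ'(u) ψ''(u₀) > 0` for
all `u ∈ U'`.  Then `ψ = N (m ψ'' + ψ''(u₀) ψ') - ψ'` is positive on `U` for large `N`: on
`u ∈ U'` the bracket is a positive integer, on `u₀` the bracket is `0` and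
`-ψ' u₀ = m > 0`. -/
theorem gordan {σ : Type*} [Fintype σ] [DecidableEq σ] {V : Type*} [AddCommGroup V] [LinearOrder V]
    [IsOrderedAddMonoid V] (φ : (σ → ℤ) →+ V) (U : Finset (σ → ℤ)) (h : ∀ u ∈ U, 0 < φ u) :
    ∃ ψ : (σ → ℤ) →+ ℤ, ∀ u ∈ U, 0 < ψ u :=
  gordan_aux φ U.card U le_rfl h

end H69
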