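import Pool.Agent.W_f569db_h69.Bruhat

/-!
# The optimal destabilising filtration exists and is unique
-/

set_option linter.unusedSectionVars false

namespace H69

open Matrix Finset

variable {α I : Type*} [Fintype α] [DecidableEq α] {F : Type*} [Field F]
  {ι : Type*} [Fintype ι] [DecidableEq ι]

/-- All matrix coefficients of `x` in the basis `g` which are not zero have weight at least `1`
with respect to the weights `ξ`. -/
def Pos (x : Matrix (ι → α) (ι → α) F) (g : (Matrix α α F)ˣ) (ξ : α → ℝ) : Prop :=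
  ∀ a b, cj g⁻¹ x a b ≠ 0 → 1 ≤ ∑ s, ξ (a s) - ∑ s, ξ (b s)

theorem kempfA_cj_inv (g : (Matrix α α F)ˣ) (x : Matrix (ι → α) (ι → α) F) :
    cj g⁻¹ x = ten ι ((g⁻¹ : (Matrix α α F)ˣ) : Matrix α α F) * x * ten ι (g : Matrix α α F) := by
  rw [cj, inv_inv]

/-- `Pos` depends only on the filtration. -/
theorem Pos.of_same {x : Matrix (ι → α) (ι → α) F} {g g' : (Matrix α α F)ˣ} {ξ ξ' : α → ℝ}
    (h : Pos x g ξ) (hs : Same g ξ g' ξ') : Pos x g' ξ' := by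
  intro a b hab
  have key : cj g'⁻¹ x = ten ι ((g'⁻¹ * g : (Matrix α α F)ˣ) : Matrix α α F) *
      cj g⁻¹ x * ten ι ((g⁻¹ * g' : (Matrix α α F)ˣ) : Matrix α α F) := by
    rw [kempfA_cj_inv, kempfA_cj_inv, Units.val_mul, Units.val_mul, ten_mul, ten_mul]
    have h1 : ten ι (g : Matrix α α F) * ten ι ((g⁻¹ : (Matrix α α F)ˣ) : Matrix α α F) = 1 :=
      ten_mul_inv g
    calc ten ι ((g'⁻¹ : (Matrix α α F)ˣ) : Matrix α α F) * x * ten ι (g' : Matrix α α F)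
        = ten ι ((g'⁻¹ : (Matrix α α F)ˣ) : Matrix α α F) *
            (ten ι (g : Matrix α α F) * ten ι ((g⁻¹ : (Matrix α α F)ˣ) : Matrix α α F)) * x *
            (ten ι (g : Matrix α α F) * ten ι ((g⁻¹ : (Matrix α α F)ˣ) : Matrix α α F)) *
            ten ι (g' : Matrix α α F) := by rw [h1, mul_one, mul_one]
      _ = _ := by simp only [mul_assoc]
  rw [key, Matrix.mul_apply] at hab
  obtain ⟨b', -, hb'⟩ := Finset.exists_ne_zero_of_sum_ne_zero hab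
  have hb1 := left_ne_zero_of_mul hb'
  have hb2 := right_ne_zero_of_mul hb'
  rw [Matrix.mul_apply] at hb1
  obtain ⟨a', -, ha'⟩ := Finset.exists_ne_zero_of_sum_ne_zero hb1
  have ha1 := left_ne_zero_of_mul ha'
  have ha2 := right_ne_zero_of_mul ha'
  have h3 := h a' b' ha2
  have h4 : ∑ s, ξ (a' s) ≤ ∑ s, ξ' (a s) := by
    apply Finset.sum_le_sum
    intro s _
    apply hs.2
    intro h0
    exact ha1 (Finset.prod_eq_zero (Finset.mem_univ s) h0)
  have h5 : ∑ s, ξ' (b s) ≤ ∑ s, ξ (b' s) := by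
    apply Finset.sum_le_sum
    intro s _
    apply hs.1
    intro h0
    exact hb2 (Finset.prod_eq_zero (Finset.mem_univ s) h0)
  linarith

/-- `Pos` is convex in the weights. -/
theorem Pos.midpoint {x : Matrix (ι → α) (ι → α) F} {g : (Matrix α α F)ˣ} {ξ ξ' : α → ℝ}
    (h : Pos x g ξ) (h' : Pos x g ξ') : Pos x g (fun r => (ξ r + ξ' r) / 2) := by
  intro a b hab
  have h1 := h a b hab
  have h2 := h' a b hab
  simp only [← Finset.sum_div, Finset.sum_add_distrib]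
  linarith

/-- `Pos` and the stabiliser of `x`. -/
theorem Pos.of_comm {x : Matrix (ι → α) (ι → α) F} {g γ : (Matrix α α F)ˣ} {ξ : α → ℝ}
    (h : Pos x g ξ)
    (hγ : ten ι (γ : Matrix α α F) * x = x * ten ι (γ : Matrix α α F)) :
    Pos x (γ * g) ξ := by
  have key : cj (γ * g)⁻¹ x = cj g⁻¹ x := by
    rw [kempfA_cj_inv, kempfA_cj_inv, _root_.mul_inv_rev, Units.val_mul, Units.val_mul, ten_mul,
      ten_mul]
    calc ten ι ((g⁻¹ : (Matrix α α F)ˣ) : Matrix α α F) *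
            ten ι ((γ⁻¹ : (Matrix α α F)ˣ) : Matrix α α F) * x *
            (ten ι (γ : Matrix α α F) * ten ι (g : Matrix α α F))
        = ten ι ((g⁻¹ : (Matrix α α F)ˣ) : Matrix α α F) *
            (ten ι ((γ⁻¹ : (Matrix α α F)ˣ) : Matrix α α F) * (x * ten ι (γ : Matrix α α F))) *
            ten ι (g : Matrix α α F) := by simp only [mul_assoc]
      _ = ten ι ((g⁻¹ : (Matrix α α F)ˣ) : Matrix α α F) *
            (ten ι ((γ⁻¹ : (Matrix α α F)ˣ) : Matrix α α F) * ten ι (γ : Matrix α α F) * x) *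
            ten ι (g : Matrix α α F) := by rw [← hγ]; simp only [mul_assoc]
      _ = _ := by rw [ten_inv_mul, one_mul]
  intro a b hab
  rw [key] at hab
  exact h a b hab

theorem kempfA_closed (s : Set ((ι → α) × (ι → α))) :
    IsClosed {ξ : α → ℝ | ∀ p ∈ s, 1 ≤ ∑ j, ξ (p.1 j) - ∑ j, ξ (p.2 j)} := by
  have : {ξ : α → ℝ | ∀ p ∈ s, 1 ≤ ∑ j, ξ (p.1 j) - ∑ j, ξ (p.2 j)} =
      ⋂ p ∈ s, {ξ : α → ℝ | 1 ≤ ∑ j, ξ (p.1 j) - ∑ j, ξ (p.2 j)} := by
    ext ξ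
    simp
  rw [this]
  refine isClosed_biInter fun p _ => ?_
  exact isClosed_le continuous_const (by fun_prop)

/-- There is a weighted basis with `Pos` and minimal norm.
Proof.  For a set `s` of pairs `(a, b)` the set of `ξ` with `1 ≤ ∑ ξ (a s) - ∑ ξ (b s)` for all
`(a, b) ∈ s` is closed.  The set of `ξ` such that `Pos x g ξ` holds for some `g ∈ BG c F` is the
union of these sets over the finitely many `s` which are the support of `cj g⁻¹ x` for some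
`g ∈ BG c F`, so it is closed, and it has an element of minimal norm (closed nonempty subset
of a finite-dimensional space). -/
theorem exists_minimal (c : α → I) (x : Matrix (ι → α) (ι → α) F)
    (h : ∃ g ∈ BG c F, ∃ ξ : α → ℝ, Pos x g ξ) :
    ∃ g ∈ BG c F, ∃ ξ : α → ℝ, Pos x g ξ ∧
      ∀ g' ∈ BG c F, ∀ ξ' : α → ℝ, Pos x g' ξ' → ∑ r, ξ r ^ 2 ≤ ∑ r, ξ' r ^ 2 := by
  classical
  let sp : (Matrix α α F)ˣ → Set ((ι → α) × (ι → α)) := fun g => {p | cj g⁻¹ x p.1 p.2 ≠ 0}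
  let K : Set ((ι → α) × (ι → α)) → Set (α → ℝ) := fun s =>
    {ξ : α → ℝ | ∀ p ∈ s, 1 ≤ ∑ j, ξ (p.1 j) - ∑ j, ξ (p.2 j)}
  have hpos : ∀ (g : (Matrix α α F)ˣ) (ξ : α → ℝ), Pos x g ξ ↔ ξ ∈ K (sp g) := by
    intro g ξ
    constructor
    · intro h p hp
      exact h p.1 p.2 hp
    · intro h a b hab
      exact h (a, b) hab
  let U : Set (α → ℝ) := ⋃ s ∈ sp '' (BG c F : Set (Matrix α α F)ˣ), K s
  have hU : ∀ ξ : α → ℝ, ξ ∈ U ↔ ∃ g ∈ BG c F, Pos x g ξ := by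
    intro ξ
    simp only [U, Set.mem_iUnion, Set.mem_image, SetLike.mem_coe]
    constructor
    · rintro ⟨s, ⟨g, hg, rfl⟩, hs⟩
      exact ⟨g, hg, (hpos g ξ).2 hs⟩
    · rintro ⟨g, hg, hs⟩
      exact ⟨sp g, ⟨g, hg, rfl⟩, (hpos g ξ).1 hs⟩
  have hUc : IsClosed U := by
    apply Set.Finite.isClosed_biUnion (Set.toFinite _)
    intro s _
    exact kempfA_closed s
  obtain ⟨g₀, hg₀, ξ₀, h₀⟩ := h
  let C : Set (α → ℝ) := U ∩ {ξ : α → ℝ | ∑ r, ξ r ^ 2 ≤ ∑ r, ξ₀ r ^ 2}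
  have hC : IsCompact C := by
    apply Metric.isCompact_of_isClosed_isBounded
    · exact hUc.inter (isClosed_le (by fun_prop) continuous_const)
    · rw [Metric.isBounded_iff_subset_closedBall 0]
      refine ⟨Real.sqrt (∑ r, ξ₀ r ^ 2), ?_⟩
      rintro ξ ⟨-, hξ⟩
      rw [Set.mem_ofPred_eq] at hξ
      rw [mem_closedBall_zero_iff, pi_norm_le_iff_of_nonneg (Real.sqrt_nonneg _)]
      intro r
      rw [Real.norm_eq_abs]
      apply Real.le_sqrt_of_sq_le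
      rw [sq_abs]
      exact (Finset.single_le_sum (f := fun r => ξ r ^ 2) (fun i _ => sq_nonneg _)
        (Finset.mem_univ r)).trans hξ
  have hne : C.Nonempty := ⟨ξ₀, (hU ξ₀).2 ⟨g₀, hg₀, h₀⟩, by rw [Set.mem_ofPred_eq]⟩
  obtain ⟨ξ, hξ, hmin⟩ := hC.exists_isMinOn (f := fun ξ : α → ℝ => ∑ r, ξ r ^ 2) hne
    (Continuous.continuousOn (by fun_prop))
  obtain ⟨g, hg, hp⟩ := (hU ξ).1 hξ.1
  refine ⟨g, hg, ξ, hp, ?_⟩
  intro g' hg' ξ' hp'
  by_cases hle : ∑ r, ξ' r ^ 2 ≤ ∑ r, ξ₀ r ^ 2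
  · exact hmin ⟨(hU ξ').2 ⟨g', hg', hp'⟩, hle⟩
  · exact (hξ.2).trans (le_of_lt (not_le.mp hle))

/-- Uniqueness of the minimal weighted flag.
Proof.  `common_basis`, `Pos.of_same`, `Same.exists_perm` (the norms agree), `Pos.midpoint` and
the strict convexity of the square. -/
theorem unique_minimal (c : α → I) (x : Matrix (ι → α) (ι → α) F) {g g' : (Matrix α α F)ˣ}
    (hg : g ∈ BG c F) (hg' : g' ∈ BG c F) {ξ ξ' : α → ℝ} (h : Pos x g ξ) (h' : Pos x g' ξ')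
    (hm : ∀ g' ∈ BG c F, ∀ ξ' : α → ℝ, Pos x g' ξ' → ∑ r, ξ r ^ 2 ≤ ∑ r, ξ' r ^ 2)
    (hm' : ∑ r, ξ' r ^ 2 ≤ ∑ r, ξ r ^ 2) : Same g ξ g' ξ' := by
  obtain ⟨k, hk, η, η', h1, h2⟩ := common_basis c hg hg' ξ ξ'
  have p1 : Pos x k η := h.of_same h1.symm
  have p2 : Pos x k η' := h'.of_same h2.symm
  have p3 := p1.midpoint p2
  have e1 : ∑ r, η r ^ 2 = ∑ r, ξ r ^ 2 := by
    obtain ⟨τ, hτ⟩ := h1.symm.exists_perm
    simp only [hτ]
    exact Equiv.sum_comp τ (fun r => ξ r ^ 2)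
  have e2 : ∑ r, η' r ^ 2 = ∑ r, ξ' r ^ 2 := by
    obtain ⟨τ, hτ⟩ := h2.symm.exists_perm
    simp only [hτ]
    exact Equiv.sum_comp τ (fun r => ξ' r ^ 2)
  have h3 := hm k hk _ p3
  have h4 : ∑ r, ((η r + η' r) / 2) ^ 2 + ∑ r, ((η r - η' r) / 2) ^ 2 =
      (∑ r, η r ^ 2 + ∑ r, η' r ^ 2) / 2 := by
    rw [← Finset.sum_add_distrib, ← Finset.sum_add_distrib, Finset.sum_div]
    apply Finset.sum_congr rfl
    intro r _
    ring
  have h5 : ∑ r, ((η r - η' r) / 2) ^ 2 ≤ 0 := by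
    linarith
  have h6 : η = η' := by
    funext r
    have h7 : ((η r - η' r) / 2) ^ 2 ≤ 0 :=
      (Finset.single_le_sum (f := fun r => ((η r - η' r) / 2) ^ 2) (fun i _ => sq_nonneg _)
        (Finset.mem_univ r)).trans h5
    have h8 : (η r - η' r) / 2 = 0 := by
      exact pow_eq_zero_iff (two_ne_zero) |>.mp (le_antisymm h7 (sq_nonneg _))
    linarith
  rw [← h6] at h2
  exact h1.symm.trans h2

end H69
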