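import Pool.Agent.W_f569db_h69.Elim

/-!
# Cartan decomposition over a valuation ring
-/

set_option linter.unusedSectionVars false

namespace H69

open Matrix Finset

variable {α I : Type*} [Fintype α] [DecidableEq α]

/-- The group of block diagonal matrices which are invertible over the valuation ring. -/
def SmithGrp (c : α → I) {L : Type*} [Field L] (B : ValuationSubring L) :
    Subgroup (Matrix α α L)ˣ where
  carrier := {u | u ∈ BG c L ∧ (∀ a b, (u : Matrix α α L) a b ∈ B) ∧
    (∀ a b, ((u⁻¹ : (Matrix α α L)ˣ) : Matrix α α L) a b ∈ B)}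
  mul_mem' := by
    rintro g h ⟨hg, hg1, hg2⟩ ⟨hh, hh1, hh2⟩
    refine ⟨(BG c L).mul_mem hg hh, ?_, ?_⟩
    · intro a b
      rw [Units.val_mul, Matrix.mul_apply]
      exact sum_mem fun k _ => mul_mem (hg1 a k) (hh1 k b)
    · intro a b
      rw [_root_.mul_inv_rev, Units.val_mul, Matrix.mul_apply]
      exact sum_mem fun k _ => mul_mem (hh2 a k) (hg2 k b)
  one_mem' := by
    have h1 : ∀ a b, (1 : Matrix α α L) a b ∈ B := by
      intro a b
      rw [Matrix.one_apply]
      split_ifs
      · exact one_mem B
      · exact zero_mem B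
    refine ⟨(BG c L).one_mem, ?_, ?_⟩
    · intro a b
      rw [Units.val_one]; exact h1 a b
    · intro a b
      rw [inv_one, Units.val_one]; exact h1 a b
  inv_mem' := by
    rintro g ⟨hg, hg1, hg2⟩
    refine ⟨(BG c L).inv_mem hg, hg2, ?_⟩
    intro a b
    rw [inv_inv]; exact hg1 a b

/-- A quotient of smaller by larger valuation is in the valuation ring. -/
theorem Smith_div_mem {L : Type*} [Field L] (B : ValuationSubring L) {x y : L} (hy : y ≠ 0)
    (hxy : B.valuation x ≤ B.valuation y) : x / y ∈ B := by
  rw [← B.valuation_le_one_iff, map_div₀]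
  exact div_le_one_of_le₀ hxy zero_le

/-- An invertible block diagonal matrix `g` over a field `L` with a valuation ring `B` can be
multiplied from both sides by block diagonal matrices which are invertible over `B`, so that it
becomes monomial.

Proof: `exists_monomial` for `U = V =` the group of all `u ∈ BG c L` such that all entries of `u` and
of `u⁻¹` are in `B`.  Pivot: an entry `h q r ≠ 0` with `(q, r) ∈ Q × R` for which
`B.valuation (h q r)` is maximal; then `h i r / h q r ∈ B` and `h q j / h q r ∈ B` for `i ∈ Q`,
`j ∈ R`.  `h = u * g * v` is block diagonal, so `h i r / h q r ≠ 0` implies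
`c i = c r = c q`. -/
theorem smith (c : α → I) {L : Type*} [Field L] (B : ValuationSubring L) (g : (Matrix α α L)ˣ)
    (hg : g ∈ BG c L) :
    ∃ u v : (Matrix α α L)ˣ, u ∈ BG c L ∧ v ∈ BG c L ∧
      (∀ a b, (u : Matrix α α L) a b ∈ B) ∧
      (∀ a b, ((u⁻¹ : (Matrix α α L)ˣ) : Matrix α α L) a b ∈ B) ∧
      (∀ a b, (v : Matrix α α L) a b ∈ B) ∧
      (∀ a b, ((v⁻¹ : (Matrix α α L)ˣ) : Matrix α α L) a b ∈ B) ∧
      ∃ π : Equiv.Perm α, ∀ q r,
        ((u * g * v : (Matrix α α L)ˣ) : Matrix α α L) q r ≠ 0 ↔ q = π r := by
  classical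
  obtain ⟨u, hu, v, hv, π, hπ⟩ := exists_monomial (SmithGrp c B) (SmithGrp c B) g (by
    intro u hu v hv Q R hex
    have hBG : u * g * v ∈ BG c L := (BG c L).mul_mem ((BG c L).mul_mem hu.1 hg) hv.1
    set h : Matrix α α L := ((u * g * v : (Matrix α α L)ˣ) : Matrix α α L) with hh
    have hBd : Bd c h := hBG.1
    obtain ⟨q₀, hq₀, r₀, hr₀, h0⟩ := hex
    obtain ⟨p, hp, hmax⟩ := exists_max_image ((Q ×ˢ R).filter fun p => h p.1 p.2 ≠ 0)
      (fun p => B.valuation (h p.1 p.2)) ⟨(q₀, r₀), by
        rw [mem_filter, mem_product]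
        exact ⟨⟨hq₀, hr₀⟩, h0⟩⟩
    rw [mem_filter, mem_product] at hp
    obtain ⟨⟨hq, hr⟩, hqr⟩ := hp
    have hle : ∀ i ∈ Q, ∀ j ∈ R, B.valuation (h i j) ≤ B.valuation (h p.1 p.2) := by
      intro i hi j hj
      by_cases hij : h i j = 0
      · rw [hij, map_zero]; exact zero_le
      · exact hmax (i, j) (by rw [mem_filter, mem_product]; exact ⟨⟨hi, hj⟩, hij⟩)
    refine ⟨p.1, hq, p.2, hr, hqr, ?_, ?_⟩
    · refine ⟨⟨?_, ?_⟩, ?_, ?_⟩
      · intro a b hab
        change rowEl h Q p.1 p.2 a b ≠ 0 at hab
        simp only [rowEl, Matrix.of_apply] at hab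
        split_ifs at hab with h1 h2
        · rw [h1]
        · have h3 : h a p.2 ≠ 0 := by
            intro h4
            apply hab
            rw [h4]; simp
          rw [h2.1, hBd a p.2 h3, hBd p.1 p.2 hqr]
        · exact absurd rfl hab
      · intro a b hab
        change rowElInv h Q p.1 p.2 a b ≠ 0 at hab
        simp only [rowElInv, Matrix.of_apply] at hab
        split_ifs at hab with h1 h2
        · rw [h1]
        · have h3 : h a p.2 ≠ 0 := by
            intro h4
            apply hab
            rw [h4]; simp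
          rw [h2.1, hBd a p.2 h3, hBd p.1 p.2 hqr]
        · exact absurd rfl hab
      · intro a b
        change rowEl h Q p.1 p.2 a b ∈ B
        simp only [rowEl, Matrix.of_apply]
        split_ifs with h1 h2
        · exact one_mem B
        · exact neg_mem (Smith_div_mem B hqr (hle a h2.2 p.2 hr))
        · exact zero_mem B
      · intro a b
        change rowElInv h Q p.1 p.2 a b ∈ B
        simp only [rowElInv, Matrix.of_apply]
        split_ifs with h1 h2
        · exact one_mem B
        · exact Smith_div_mem B hqr (hle a h2.2 p.2 hr)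
        · exact zero_mem B
    · refine ⟨⟨?_, ?_⟩, ?_, ?_⟩
      · intro a b hab
        change colEl h R p.1 p.2 a b ≠ 0 at hab
        simp only [colEl, Matrix.of_apply] at hab
        split_ifs at hab with h1 h2
        · rw [h1]
        · have h3 : h p.1 b ≠ 0 := by
            intro h4
            apply hab
            rw [h4]; simp
          rw [h2.1, ← hBd p.1 b h3, hBd p.1 p.2 hqr]
        · exact absurd rfl hab
      · intro a b hab
        change colElInv h R p.1 p.2 a b ≠ 0 at hab
        simp only [colElInv, Matrix.of_apply] at hab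
        split_ifs at hab with h1 h2
        · rw [h1]
        · have h3 : h p.1 b ≠ 0 := by
            intro h4
            apply hab
            rw [h4]; simp
          rw [h2.1, ← hBd p.1 b h3, hBd p.1 p.2 hqr]
        · exact absurd rfl hab
      · intro a b
        change colEl h R p.1 p.2 a b ∈ B
        simp only [colEl, Matrix.of_apply]
        split_ifs with h1 h2
        · exact one_mem B
        · exact neg_mem (Smith_div_mem B hqr (hle p.1 hq b h2.2))
        · exact zero_mem B
      · intro a b
        change colElInv h R p.1 p.2 a b ∈ B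
        simp only [colElInv, Matrix.of_apply]
        split_ifs with h1 h2
        · exact one_mem B
        · exact Smith_div_mem B hqr (hle p.1 hq b h2.2)
        · exact zero_mem B)
  exact ⟨u, v, hu.1, hv.1, hu.2.1, hu.2.2, hv.2.1, hv.2.2, π, hπ⟩

end H69
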