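import Pool.Agent.W_f569db_h69.ValDom
import Pool.Agent.W_f569db_h69.Smith
import Pool.Agent.W_f569db_h69.Gordan
import Pool.Agent.W_f569db_h69.KempfA

/-!
# Degeneration: from the orbit closure to a weighted basis
-/

set_option linter.unusedSectionVars false

universe u

namespace H69

open Matrix Finset

section maps

variable {α : Type*} [Fintype α] [DecidableEq α] {ι : Type*} [Fintype ι] [DecidableEq ι]

/-- Conjugation commutes with ring homomorphisms. -/
theorem cj_map_hom {R S : Type*} [CommRing R] [CommRing S] (f : R →+* S) (g : (Matrix α α R)ˣ)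
    (x : Matrix (ι → α) (ι → α) R) :
    (cj g x).map f = cj (Units.map (RingHom.mapMatrix f : Matrix α α R →+* Matrix α α S).toMonoidHom g)
      (x.map f) := by
  unfold cj
  rw [Matrix.map_mul, Matrix.map_mul, ten_map, ten_map]
  rfl

/-- Conjugation is an action. -/
theorem cj_mul_act {R : Type*} [CommRing R] (g h : (Matrix α α R)ˣ) (x : Matrix (ι → α) (ι → α) R) :
    cj (g * h) x = cj g (cj h x) := by
  unfold cj
  rw [_root_.mul_inv_rev, Units.val_mul, Units.val_mul, ten_mul, ten_mul]
  simp only [Matrix.mul_assoc]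

theorem cj_entry {R : Type*} [CommRing R] (g : (Matrix α α R)ˣ) (x : Matrix (ι → α) (ι → α) R)
    (a b : ι → α) : cj g x a b = ∑ q, ∑ p, (∏ s, (g : Matrix α α R) (a s) (p s)) * x p q *
      ∏ s, ((g⁻¹ : (Matrix α α R)ˣ) : Matrix α α R) (q s) (b s) := by
  unfold cj
  rw [Matrix.mul_apply]
  refine Finset.sum_congr rfl fun q _ => ?_
  rw [Matrix.mul_apply, Finset.sum_mul]
  rfl

/-- Entries of a conjugate in a subring `B`, or in an ideal given by a set closed under sums and
multiplication by elements of `B`. -/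
theorem cj_mem_of {L : Type*} [Field L] (B : ValuationSubring L) (N : Set L) (h0 : (0 : L) ∈ N)
    (hadd : ∀ y ∈ N, ∀ z ∈ N, y + z ∈ N) (hmul : ∀ y ∈ B, ∀ z ∈ N, y * z ∈ N)
    (g : (Matrix α α L)ˣ) (hg : ∀ a b, (g : Matrix α α L) a b ∈ B)
    (hg' : ∀ a b, ((g⁻¹ : (Matrix α α L)ˣ) : Matrix α α L) a b ∈ B)
    (x : Matrix (ι → α) (ι → α) L) (hx : ∀ a b, x a b ∈ N) (a b : ι → α) : cj g x a b ∈ N := by
  rw [cj_entry]
  have hsum : ∀ (T : Type _) (s : Finset T) (f : T → L), (∀ t ∈ s, f t ∈ N) → ∑ t ∈ s, f t ∈ N := by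
    intro T s f
    classical
    induction s using Finset.induction_on with
    | empty => intro _; simpa using h0
    | insert a s ha ih =>
      intro h
      rw [Finset.sum_insert ha]
      exact hadd _ (h a (Finset.mem_insert_self _ _)) _
        (ih fun t ht => h t (Finset.mem_insert_of_mem ht))
  refine hsum _ _ _ fun q _ => hsum _ _ _ fun p _ => ?_
  have h1 : (∏ s, (g : Matrix α α L) (a s) (p s)) ∈ B := prod_mem fun s _ => hg _ _
  have h2 : (∏ s, ((g⁻¹ : (Matrix α α L)ˣ) : Matrix α α L) (q s) (b s)) ∈ B :=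
    prod_mem fun s _ => hg' _ _
  have h3 := hmul _ (mul_mem h1 h2) _ (hx p q)
  rw [show (∏ s, (g : Matrix α α L) (a s) (p s)) * x p q *
      (∏ s, ((g⁻¹ : (Matrix α α L)ˣ) : Matrix α α L) (q s) (b s)) =
      (∏ s, (g : Matrix α α L) (a s) (p s)) *
      (∏ s, ((g⁻¹ : (Matrix α α L)ˣ) : Matrix α α L) (q s) (b s)) * x p q by ring]
  exact h3

/-- The entries of the inverse of a monomial matrix. -/
theorem monomial_inv {L : Type*} [Field L] {m : (Matrix α α L)ˣ} {π : Equiv.Perm α}
    (h : ∀ q r, (m : Matrix α α L) q r ≠ 0 ↔ q = π r) (r q : α) :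
    ((m⁻¹ : (Matrix α α L)ˣ) : Matrix α α L) r q =
      if q = π r then ((m : Matrix α α L) (π r) r)⁻¹ else 0 := by
  have h1 : ((m⁻¹ : (Matrix α α L)ˣ) : Matrix α α L) =
      Matrix.of fun r q => if q = π r then ((m : Matrix α α L) (π r) r)⁻¹ else 0 := by
    rw [← Matrix.mul_one ((m⁻¹ : (Matrix α α L)ˣ) : Matrix α α L)]
    have h2 : (m : Matrix α α L) *
        (Matrix.of fun r q => if q = π r then ((m : Matrix α α L) (π r) r)⁻¹ else 0) = 1 := by
      ext i j
      rw [Matrix.mul_apply, Finset.sum_eq_single (π.symm j)]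
      · rw [Matrix.of_apply, Equiv.apply_symm_apply, if_pos rfl, Matrix.one_apply]
        split_ifs with hij
        · subst hij
          exact mul_inv_cancel₀ ((h i (π.symm i)).2 (Equiv.apply_symm_apply _ _).symm)
        · have h3 : (m : Matrix α α L) i (π.symm j) = 0 := by
            by_contra h4
            exact hij (by rw [(h _ _).1 h4, Equiv.apply_symm_apply])
          rw [h3, zero_mul]
      · intro k _ hk
        rw [Matrix.of_apply, if_neg, mul_zero]
        rintro rfl
        exact hk (Equiv.symm_apply_apply _ _).symm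
      · intro hk
        exact (hk (Finset.mem_univ _)).elim
    rw [← h2, ← Matrix.mul_assoc, Units.inv_mul, Matrix.one_mul]
  rw [h1]
  rfl

/-- The conjugate by a monomial matrix. -/
theorem cj_monomial {L : Type*} [Field L] {m : (Matrix α α L)ˣ} {π : Equiv.Perm α}
    (h : ∀ q r, (m : Matrix α α L) q r ≠ 0 ↔ q = π r) (x : Matrix (ι → α) (ι → α) L) (a b : ι → α) :
    cj m x (π ∘ a) (π ∘ b) = (∏ s, (m : Matrix α α L) (π (a s)) (a s)) * x a b *
      ∏ s, ((m : Matrix α α L) (π (b s)) (b s))⁻¹ := by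
  rw [cj_entry, Finset.sum_eq_single b]
  · rw [Finset.sum_eq_single a]
    · refine congrArg₂ _ rfl (Finset.prod_congr rfl fun s _ => ?_)
      rw [monomial_inv h, Function.comp_apply, if_pos rfl]
    · intro p _ hp
      obtain ⟨s, hs⟩ := Function.ne_iff.1 hp
      rw [Finset.prod_eq_zero (Finset.mem_univ s), zero_mul, zero_mul]
      by_contra h4
      exact hs (π.injective ((h _ _).1 h4)).symm
    · intro hk
      exact (hk (Finset.mem_univ _)).elim
  · intro q _ hq
    obtain ⟨s, hs⟩ := Function.ne_iff.1 hq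
    refine Finset.sum_eq_zero fun p _ => ?_
    rw [Finset.prod_eq_zero (s := Finset.univ) (f := fun s =>
      ((m⁻¹ : (Matrix α α L)ˣ) : Matrix α α L) (q s) ((π ∘ b) s)) (Finset.mem_univ s), mul_zero]
    rw [monomial_inv h, if_neg]
    intro h4
    exact hs (π.injective h4).symm
  · intro hk
    exact (hk (Finset.mem_univ _)).elim

end maps

variable {α : Type} {I : Type*} [Fintype α] [DecidableEq α]

/-- The tautological point of `BG c ℚ` with values in the ring of functions. -/
noncomputable def taut (c : α → I) (K : Type u) [Field K] [CharZero K] : (Matrix α α (BG c ℚ → K))ˣ where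
  val := Matrix.of fun p q g => (((g : (Matrix α α ℚ)ˣ) : Matrix α α ℚ) p q : K)
  inv := Matrix.of fun p q g => ((((g : (Matrix α α ℚ)ˣ)⁻¹ : (Matrix α α ℚ)ˣ) : Matrix α α ℚ) p q : K)
  val_inv := by
    ext i j g
    have h1 := congrFun (congrFun (Units.mul_inv (g : (Matrix α α ℚ)ˣ)) i) j
    rw [Matrix.mul_apply] at h1
    rw [Matrix.mul_apply, Finset.sum_apply]
    have h2 : (∑ k, ((g : (Matrix α α ℚ)ˣ) : Matrix α α ℚ) i k *
      (((g : (Matrix α α ℚ)ˣ)⁻¹ : (Matrix α α ℚ)ˣ) : Matrix α α ℚ) k j : ℚ) = (1 : Matrix α α ℚ) i j := h1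
    have h3 := congrArg (fun r : ℚ => (r : K)) h2
    simp only [Rat.cast_sum, Rat.cast_mul] at h3
    refine Eq.trans ?_ (h3.trans ?_)
    · rfl
    · rw [Matrix.one_apply, Matrix.one_apply]
      split_ifs <;> simp
  inv_val := by
    ext i j g
    have h1 := congrFun (congrFun (Units.inv_mul (g : (Matrix α α ℚ)ˣ)) i) j
    rw [Matrix.mul_apply] at h1
    rw [Matrix.mul_apply, Finset.sum_apply]
    have h3 := congrArg (fun r : ℚ => (r : K)) h1
    simp only [Rat.cast_sum, Rat.cast_mul] at h3
    refine Eq.trans ?_ (h3.trans ?_)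
    · rfl
    · rw [Matrix.one_apply, Matrix.one_apply]
      split_ifs <;> simp

/-- If no polynomial without constant term is equal to `1` on the orbit of `x` under the rational
points of `∏ GL(V_i)`, then `x` is destabilised by a weighted basis over an extension field.

Proof.  `val_dom` for `S` = the ring of functions `BG c ℚ → K` (it is a `K`-algebra), `J` = the set of
pairs `(a, b)` and `f_{ab}(g) = (cj g x) a b` gives `L`, `φ`, `B`.  The tautological element
`g ↦ g p q` of `S` for all `p, q` gives an invertible matrix over `S`, and by `φ` we get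
`G ∈ BG c L` such that `cj G x_L` has all its entries in the maximal ideal of `B`, where
`x_L = x.map (φ ∘ algebraMap K S)` has entries in `B`.  Take `u, v, π` from `smith` for `G`, so
`u G v = m` is monomial, `m (π r) r = δ r`.  Then with `x' = cj v⁻¹ x_L` (entries in `B`) the entries of
`cj m x' = cj u (cj G x_L)` are in the maximal ideal; its entry at `(π ∘ a, π ∘ b)` is
`∏ δ(a s) * x' a b * ∏ δ(b s)⁻¹`.  So for all `a, b` such that `x' a b` is a unit of `B`, the valuation of
`∏ δ(a s)` is strictly smaller than that of `∏ δ(b s)`.  By `gordan` for the group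
`V = Additive (ValueGroup units)` with reversed order (or: `φ` = minus the valuation) there are
integers `ξ r` with `∑ ξ (a s) - ∑ ξ (b s) > 0` for these `(a, b)`.  Let `F` be the residue field of
`B`, `x_F`, `g = the reduction of v` in `BG c F`: the entry `(cj g⁻¹ x_F) a b` is the reduction of
`x' a b`.  So `Pos x_F g ξ`. -/
theorem exists_pos (c : α → I) {ι : Type} [Fintype ι] [DecidableEq ι]
    {K : Type u} [Field K] [CharZero K] (x : Matrix (ι → α) (ι → α) K)
    (h : ∀ A : List ((ι → α) × (ι → α)) →₀ K, A [] = 0 →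
      ¬ ∀ g ∈ BG c ℚ, (A.sum fun l r =>
      r * (l.map fun p => cj (Units.map (Rat.castHom K).mapMatrix.toMonoidHom g) x p.1 p.2).prod)
        = 1) :
    ∃ (F : Type u) (_ : Field F) (θ : K →+* F), ∃ g ∈ BG c F, ∃ ξ : α → ℝ,
      Pos (x.map θ) g ξ := by
  classical
  -- the functions
  obtain ⟨L, _, φ, B, hK, hf⟩ := val_dom (S := BG c ℚ → K) (K := K)
    (J := (ι → α) × (ι → α)) (fun p g => cj (Units.map (Rat.castHom K).mapMatrix.toMonoidHom
      (g : (Matrix α α ℚ)ˣ)) x p.1 p.2) (fun A hA h1 => by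
    refine h A hA fun g hg => ?_
    have h2 := congrFun h1 (⟨g, hg⟩ : BG c ℚ)
    rw [Finsupp.sum, Finset.sum_apply] at h2
    rw [Finsupp.sum]
    refine Eq.trans (Finset.sum_congr rfl fun l _ => ?_) h2
    rw [Pi.smul_apply, smul_eq_mul]
    refine congrArg _ ?_
    have h3 := map_list_prod (Pi.evalRingHom (fun _ : BG c ℚ => K) ⟨g, hg⟩)
      (l.map (fun (p : (ι → α) × (ι → α)) (g : BG c ℚ) => cj (Units.map
        (Rat.castHom K).mapMatrix.toMonoidHom (g : (Matrix α α ℚ)ˣ)) x p.1 p.2))
    rw [List.map_map] at h3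
    exact h3.symm)
  let G : (Matrix α α L)ˣ := Units.map (RingHom.mapMatrix φ : Matrix α α (BG c ℚ → K) →+*
    Matrix α α L).toMonoidHom (taut c K)
  have hG : G ∈ BG c L := by
    refine mem_BG.2 ⟨fun p q hpq => ?_, fun p q hpq => ?_⟩
    · have h1 : φ (fun g : BG c ℚ => (((g : (Matrix α α ℚ)ˣ) : Matrix α α ℚ) p q : K)) ≠ 0 := hpq
      have h2 : (fun g : BG c ℚ => (((g : (Matrix α α ℚ)ˣ) : Matrix α α ℚ) p q : K)) ≠ 0 := by
        intro h0
        rw [h0, map_zero] at h1
        exact h1 rfl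
      obtain ⟨g, hg⟩ := Function.ne_iff.1 h2
      exact (mem_BG.1 g.2).1 p q fun h0 => hg (by simp [h0])
    · have h1 : φ (fun g : BG c ℚ => ((((g : (Matrix α α ℚ)ˣ)⁻¹ : (Matrix α α ℚ)ˣ) :
        Matrix α α ℚ) p q : K)) ≠ 0 := hpq
      have h2 : (fun g : BG c ℚ => ((((g : (Matrix α α ℚ)ˣ)⁻¹ : (Matrix α α ℚ)ˣ) :
        Matrix α α ℚ) p q : K)) ≠ 0 := by
        intro h0
        rw [h0, map_zero] at h1
        exact h1 rfl
      obtain ⟨g, hg⟩ := Function.ne_iff.1 h2
      exact (mem_BG.1 g.2).2 p q fun h0 => hg (by simp [h0])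
  -- the tensor over `L`
  let xS : Matrix (ι → α) (ι → α) (BG c ℚ → K) := x.map (algebraMap K (BG c ℚ → K))
  let xL : Matrix (ι → α) (ι → α) L := xS.map φ
  have hxL : ∀ a b, xL a b ∈ B := fun a b => hK _
  have hGx : ∀ a b, cj G xL a b ∈ B.nonunits := by
    intro a b
    have h1 : cj G xL = (cj (taut c K) xS).map φ := (cj_map_hom φ (taut c K) xS).symm
    have h2 : cj (taut c K) xS a b = fun g : BG c ℚ => cj (Units.map
        (Rat.castHom K).mapMatrix.toMonoidHom (g : (Matrix α α ℚ)ˣ)) x a b := by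
      funext g
      have h3 := cj_map_hom (Pi.evalRingHom (fun _ : BG c ℚ => K) g) (taut c K) xS
      have h4 := congrFun (congrFun h3 a) b
      refine h4.trans ?_
      refine congrFun (congrFun (congrArg₂ cj ?_ ?_) a) b
      · ext p q
        rfl
      · ext p q
        rfl
    rw [h1, Matrix.map_apply, h2]
    exact hf (a, b)
  obtain ⟨u, v, hu, hv, hu1, hu2, hv1, hv2, π, hπ⟩ := smith c B G hG
  let m : (Matrix α α L)ˣ := u * G * v
  let δ : α → L := fun r => (m : Matrix α α L) (π r) r
  have hδ : ∀ r, δ r ≠ 0 := fun r => (hπ _ _).2 rfl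
  let x' : Matrix (ι → α) (ι → α) L := cj v⁻¹ xL
  have hm : cj m x' = cj u (cj G xL) := by
    rw [← cj_mul_act, ← cj_mul_act]
    refine congrArg₂ cj ?_ rfl
    rw [show m = u * G * v from rfl, mul_inv_cancel_right]
  have hx' : ∀ a b, x' a b ∈ B := by
    refine cj_mem_of B B (zero_mem B) (fun _ h1 _ h2 => add_mem h1 h2) (fun _ h1 _ h2 => mul_mem h1 h2)
      _ hv2 (fun a b => ?_) _ hxL
    rw [inv_inv]
    exact hv1 a b
  have hnon : ∀ a b, cj m x' a b ∈ B.nonunits := by
    rw [hm]
    refine cj_mem_of B B.nonunits ?_ ?_ ?_ _ hu1 hu2 _ hGx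
    · change (0 : L) ∈ B.nonunits
      rw [ValuationSubring.mem_nonunits_iff, map_zero]
      exact zero_lt_one
    · intro y hy z hz
      change y + z ∈ B.nonunits
      have hy' : B.valuation y < 1 := (ValuationSubring.mem_nonunits_iff B).1 hy
      have hz' : B.valuation z < 1 := (ValuationSubring.mem_nonunits_iff B).1 hz
      rw [ValuationSubring.mem_nonunits_iff]
      exact Valuation.map_add_lt _ hy' hz'
    · intro y hy z hz
      change y * z ∈ B.nonunits
      have hy' : B.valuation y ≤ 1 := (B.valuation_le_one_iff y).2 hy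
      have hz' : B.valuation z < 1 := (ValuationSubring.mem_nonunits_iff B).1 hz
      rw [ValuationSubring.mem_nonunits_iff, map_mul]
      exact lt_of_le_of_lt (mul_le_mul' hy' le_rfl) (by rwa [one_mul])
  -- the inequality between the valuations
  have hlt : ∀ a b, B.valuation (x' a b) = 1 →
      ∏ s, B.valuation (δ (a s)) < ∏ s, B.valuation (δ (b s)) := by
    intro a b hab
    have h1 := (ValuationSubring.mem_nonunits_iff B).1 (hnon (π ∘ a) (π ∘ b))
    rw [cj_monomial hπ, map_mul, map_mul, hab, mul_one, map_prod, map_prod] at h1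
    have h2 : ∀ s, B.valuation ((((m : Matrix α α L) (π (b s)) (b s)))⁻¹) = (B.valuation (δ (b s)))⁻¹ :=
      fun s => map_inv₀ _ _
    rw [Finset.prod_congr rfl fun s _ => h2 s, Finset.prod_inv_distrib] at h1
    have h3 : 0 < ∏ s, B.valuation (δ (b s)) := by
      rw [zero_lt_iff]
      exact Finset.prod_ne_zero_iff.2 fun s _ => (Valuation.ne_zero_iff _).2 (hδ _)
    calc ∏ s, B.valuation (δ (a s)) = (∏ s, B.valuation (δ (a s))) * (∏ s, B.valuation (δ (b s)))⁻¹ *
          ∏ s, B.valuation (δ (b s)) := by rw [inv_mul_cancel_right₀ h3.ne']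
      _ < 1 * ∏ s, B.valuation (δ (b s)) := mul_lt_mul_of_pos_right h1 h3
      _ = ∏ s, B.valuation (δ (b s)) := one_mul _
  -- the weights
  let w : α → Additive (B.ValueGroup)ˣ := fun r =>
    Additive.ofMul (Units.mk0 (B.valuation (δ r)) ((Valuation.ne_zero_iff _).2 (hδ r)))
  let Φ : (α → ℤ) →+ Additive (B.ValueGroup)ˣ :=
    { toFun := fun n => ∑ r, (-(n r)) • w r
      map_zero' := by simp
      map_add' := fun n n' => by
        rw [← Finset.sum_add_distrib]
        refine Finset.sum_congr rfl fun r _ => ?_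
        rw [Pi.add_apply, neg_add, add_zsmul] }
  have hΦ : ∀ r, Φ (Pi.single r 1) = - w r := by
    intro r
    change ∑ r', (-((Pi.single r 1 : α → ℤ) r')) • w r' = - w r
    rw [Finset.sum_eq_single r]
    · rw [Pi.single_eq_same, neg_smul, one_smul]
    · intro r' _ hr'
      rw [Pi.single_eq_of_ne hr', neg_zero, zero_smul]
    · intro hk
      exact (hk (Finset.mem_univ _)).elim
  let U : (ι → α) → (ι → α) → (α → ℤ) := fun a b =>
    ∑ s, Pi.single (a s) 1 - ∑ s, Pi.single (b s) 1
  have hU : ∀ a b, B.valuation (x' a b) = 1 → 0 < Φ (U a b) := by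
    intro a b hab
    have h1 : Φ (U a b) = (∑ s, w (b s)) - ∑ s, w (a s) := by
      rw [map_sub, map_sum, map_sum]
      simp only [hΦ, Finset.sum_neg_distrib]
      abel
    rw [h1, sub_pos]
    have h2 : ∀ a : ι → α, (∑ s, w (a s)) =
        Additive.ofMul (∏ s, Units.mk0 (B.valuation (δ (a s))) ((Valuation.ne_zero_iff _).2 (hδ (a s)))) := by
      intro a
      rw [ofMul_prod]
    rw [h2, h2, Additive.ofMul_lt, ← Units.val_lt_val, Units.coe_prod, Units.coe_prod]
    exact hlt a b hab
  obtain ⟨ψ, hψ⟩ := gordan Φ ((Finset.univ : Finset ((ι → α) × (ι → α))).filter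
    (fun p => B.valuation (x' p.1 p.2) = 1) |>.image fun p => U p.1 p.2) (by
      intro n hn
      obtain ⟨p, hp, rfl⟩ := Finset.mem_image.1 hn
      exact hU _ _ (Finset.mem_filter.1 hp).2)
  -- the reduction
  let κ : K →+* B := (φ.comp (algebraMap K (BG c ℚ → K))).codRestrict B.toSubring hK
  let vB : (Matrix α α B)ˣ :=
    { val := Matrix.of fun i j => ⟨(v : Matrix α α L) i j, hv1 i j⟩
      inv := Matrix.of fun i j => ⟨((v⁻¹ : (Matrix α α L)ˣ) : Matrix α α L) i j, hv2 i j⟩
      val_inv := by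
        refine Matrix.map_injective (f := B.subtype) Subtype.val_injective ?_
        beta_reduce
        rw [Matrix.map_mul, Matrix.map_one _ (map_zero _) (map_one _)]
        exact Units.mul_inv v
      inv_val := by
        refine Matrix.map_injective (f := B.subtype) Subtype.val_injective ?_
        beta_reduce
        rw [Matrix.map_mul, Matrix.map_one _ (map_zero _) (map_one _)]
        exact Units.inv_mul v }
  let g : (Matrix α α (IsLocalRing.ResidueField B))ˣ :=
    Units.map (RingHom.mapMatrix (IsLocalRing.residue B) : Matrix α α B →+*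
      Matrix α α (IsLocalRing.ResidueField B)).toMonoidHom vB
  refine ⟨IsLocalRing.ResidueField B, inferInstance, (IsLocalRing.residue B).comp κ, g, ?_,
    fun r => ((ψ (Pi.single r 1) : ℤ) : ℝ), ?_⟩
  · refine mem_BG.2 ⟨fun p q hpq => ?_, fun p q hpq => ?_⟩
    · refine (mem_BG.1 hv).1 p q fun h0 => hpq ?_
      change IsLocalRing.residue B ⟨(v : Matrix α α L) p q, hv1 p q⟩ = 0
      have h1 : (⟨(v : Matrix α α L) p q, hv1 p q⟩ : B) = 0 := Subtype.ext h0
      rw [h1, map_zero]
    · refine (mem_BG.1 hv).2 p q fun h0 => hpq ?_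
      change IsLocalRing.residue B ⟨((v⁻¹ : (Matrix α α L)ˣ) : Matrix α α L) p q, hv2 p q⟩ = 0
      have h1 : (⟨((v⁻¹ : (Matrix α α L)ˣ) : Matrix α α L) p q, hv2 p q⟩ : B) = 0 := Subtype.ext h0
      rw [h1, map_zero]
  · intro a b hab
    have h1 : cj g⁻¹ (x.map ((IsLocalRing.residue B).comp κ)) =
        (cj vB⁻¹ (x.map κ)).map (IsLocalRing.residue B) := by
      rw [cj_map_hom, map_inv]
      rfl
    have h2 : (cj vB⁻¹ (x.map κ)).map B.subtype = x' := by
      rw [cj_map_hom, map_inv]
      refine congrArg₂ cj (congrArg _ ?_) ?_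
      · ext i j
        rfl
      · ext i j
        rfl
    rw [h1, Matrix.map_apply, IsLocalRing.residue_ne_zero_iff_isUnit] at hab
    have h3 : B.valuation (x' a b) = 1 := by
      rw [← h2, Matrix.map_apply]
      exact (ValuationSubring.valuation_eq_one_iff B _).1 hab
    have h4 := hψ (U a b) (Finset.mem_image.2 ⟨(a, b), Finset.mem_filter.2 ⟨Finset.mem_univ _, h3⟩, rfl⟩)
    have h5 : ψ (U a b) = (∑ s, ψ (Pi.single (a s) 1)) - ∑ s, ψ (Pi.single (b s) 1) := by
      rw [map_sub, map_sum, map_sum]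
    rw [h5] at h4
    have h6 : (1 : ℤ) ≤ (∑ s, ψ (Pi.single (a s) 1)) - ∑ s, ψ (Pi.single (b s) 1) := h4
    beta_reduce
    exact_mod_cast h6

end H69
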