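import Pool.Agent.W_f569db_h69.KempfA

/-!
# The optimal destabilising filtration is invariant, so it is trivial in the irreducible case
-/

set_option linter.unusedSectionVars false

namespace H69

open Matrix Finset

variable {α I : Type*} [Fintype α] [DecidableEq α] {F : Type*} [Field F]
  {ι : Type*} [Fintype ι] [DecidableEq ι]

/-- the condition `Le (g⁻¹ T g) ξ ξ` is linear in `T` -/
theorem Kempf_span (g : (Matrix α α F)ˣ) (S : Set (Matrix α α F)) (q r : α)
    (h : ∀ T ∈ S, (((g⁻¹ : (Matrix α α F)ˣ) : Matrix α α F) * T * (g : Matrix α α F)) q r = 0)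
    (T : Matrix α α F) (hT : T ∈ Submodule.span F S) :
    (((g⁻¹ : (Matrix α α F)ˣ) : Matrix α α F) * T * (g : Matrix α α F)) q r = 0 := by
  induction hT using Submodule.span_induction with
  | mem T hT => exact h T hT
  | zero => rw [Matrix.mul_zero, Matrix.zero_mul, Matrix.zero_apply]
  | add T T' _ _ h1 h2 => rw [Matrix.mul_add, Matrix.add_mul, Matrix.add_apply, h1, h2, add_zero]
  | smul k T _ h1 =>
    rw [Matrix.mul_smul, Matrix.smul_mul, Matrix.smul_apply, h1, smul_zero]

theorem Kempf_entry (c : α → I) {g : (Matrix α α F)ˣ} (hg : g ∈ BG c F) (T T' : Matrix α α F)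
    (a b : α) (h : ∀ p q, c p = c a → c q = c b → T p q = T' p q) :
    (((g⁻¹ : (Matrix α α F)ˣ) : Matrix α α F) * T * (g : Matrix α α F)) a b =
      (((g⁻¹ : (Matrix α α F)ˣ) : Matrix α α F) * T' * (g : Matrix α α F)) a b := by
  rw [Matrix.mul_apply, Matrix.mul_apply]
  refine Finset.sum_congr rfl fun q _ => ?_
  rw [Matrix.mul_apply, Matrix.mul_apply, Finset.sum_mul, Finset.sum_mul]
  refine Finset.sum_congr rfl fun p _ => ?_
  by_cases h1 : ((g⁻¹ : (Matrix α α F)ˣ) : Matrix α α F) a p = 0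
  · simp only [h1, zero_mul]
  · by_cases h2 : (g : Matrix α α F) q b = 0
    · simp only [h2, mul_zero]
    · rw [h p q ((mem_BG.1 hg).2 a p h1).symm ((mem_BG.1 hg).1 q b h2)]

/-- The main result of this file.  If `x ≠ 0` lives on `⊗_s V_{w s}` and commutes with `γ^{⊗ ι}` for
all `γ` in a set `S` of block diagonal invertible matrices, such that for each colour `i` the
`i`-blocks of the elements of `S` span all matrices, then `x` is not destabilised by any weighted
basis.

Proof.  Suppose `Pos x g ξ` for some `(g, ξ)`; take `(g, ξ)` of minimal norm.  For `γ ∈ S` also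
`Pos x (γ g) ξ`, so `Same g ξ (γ g) ξ` by uniqueness, in particular `Le (g⁻¹ γ g) ξ ξ`.  Let
`c a = c b`.  For `T` in the span of `S` also `Le (g⁻¹ T g) ξ ξ` (the condition is linear in `T`).
By `hS` (applied to all pairs of indices of the colour `c a`) the matrix
`T' := g E_{ab} g⁻¹`, which is block diagonal and zero outside the block of `c a`, agrees on the block
of `c a` with some `T` in the span of `S`, and the entries of `g⁻¹ T g` in the block of `c a` depend
only on the entries of `T` in this block.  So `ξ b ≤ ξ a`.  Hence `ξ` is constant on each colour, and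
for `a, b` of colour pattern `w` the sums `∑ ξ (a s)` and `∑ ξ (b s)` agree.  So `Pos` gives
`cj g⁻¹ x = 0`, and `x = 0`. -/
theorem not_pos (c : α → I) (w : ι → I) (x : Matrix (ι → α) (ι → α) F) (hx0 : x ≠ 0)
    (hx : Supp c w x) (S : Set (Matrix α α F)ˣ) (hSc : S ⊆ BG c F)
    (hS : ∀ a b, c a = c b → ∃ T ∈ Submodule.span F ((fun g : (Matrix α α F)ˣ =>
      (g : Matrix α α F)) '' S), ∀ a' b', c a' = c a → c b' = c a →
        T a' b' = if a' = a ∧ b' = b then 1 else 0)
    (hcomm : ∀ γ ∈ S, ten ι (γ : Matrix α α F) * x = x * ten ι (γ : Matrix α α F)) :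
    ¬ ∃ g ∈ BG c F, ∃ ξ : α → ℝ, Pos x g ξ := by
  classical
  intro hex
  obtain ⟨g, hg, ξ, hP, hmin⟩ := exists_minimal c x hex
  have hsame : ∀ γ ∈ S, Le ((g⁻¹ * (γ * g) : (Matrix α α F)ˣ) : Matrix α α F) ξ ξ := by
    intro γ hγ
    have h1 : Pos x (γ * g) ξ := hP.of_comm (hcomm γ hγ)
    exact (unique_minimal c x hg (mul_mem (hSc hγ) hg) hP h1 hmin le_rfl).1
  have hspan : ∀ T ∈ Submodule.span F ((fun g : (Matrix α α F)ˣ => (g : Matrix α α F)) '' S),
      ∀ q r, (((g⁻¹ : (Matrix α α F)ˣ) : Matrix α α F) * T * (g : Matrix α α F)) q r ≠ 0 →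
        ξ r ≤ ξ q := by
    intro T hT q r hne
    by_contra hlt
    apply hne
    refine Kempf_span g _ q r ?_ T hT
    rintro _ ⟨γ, hγ, rfl⟩
    by_contra hne'
    apply hlt
    apply hsame γ hγ q r
    rw [Units.val_mul, Units.val_mul, ← Matrix.mul_assoc]
    exact hne'
  choose! Tm hTs hTb using hS
  have hle : ∀ a b, c a = c b → ξ b ≤ ξ a := by
    intro a b hab
    obtain ⟨T', hT'⟩ : ∃ T' : Matrix α α F, T' = (g : Matrix α α F) * Matrix.single a b 1 *
      ((g⁻¹ : (Matrix α α F)ˣ) : Matrix α α F) := ⟨_, rfl⟩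
    obtain ⟨T, hT⟩ : ∃ T : Matrix α α F, T = ∑ p ∈ univ.filter (fun p => c p = c a),
      ∑ q ∈ univ.filter (fun q => c q = c a), T' p q • Tm p q := ⟨_, rfl⟩
    have hTspan : T ∈ Submodule.span F ((fun g : (Matrix α α F)ˣ => (g : Matrix α α F)) '' S) := by
      rw [hT]
      refine Submodule.sum_mem _ fun p hp => Submodule.sum_mem _ fun q hq => ?_
      rw [Finset.mem_filter] at hp hq
      exact Submodule.smul_mem _ _ (hTs p q (hp.2.trans hq.2.symm))
    have hTT : ∀ p q, c p = c a → c q = c b → T p q = T' p q := by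
      intro p q hp hq
      have hq' : c q = c a := hq.trans hab.symm
      rw [hT, Matrix.sum_apply]
      rw [Finset.sum_eq_single p]
      · rw [Matrix.sum_apply, Finset.sum_eq_single q]
        · rw [Matrix.smul_apply, hTb p q (hp.trans hq'.symm) p q rfl (hq'.trans hp.symm),
            if_pos ⟨rfl, rfl⟩, smul_eq_mul, mul_one]
        · intro q1 hq1 hne
          rw [Finset.mem_filter] at hq1
          rw [Matrix.smul_apply, hTb p q1 (hp.trans hq1.2.symm) p q rfl (hq'.trans hp.symm),
            if_neg (fun h => hne h.2.symm), smul_zero]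
        · intro h
          exact (h (Finset.mem_filter.2 ⟨mem_univ q, hq'⟩)).elim
      · intro p1 hp1 hne
        rw [Finset.mem_filter] at hp1
        rw [Matrix.sum_apply]
        refine Finset.sum_eq_zero fun q1 hq1 => ?_
        rw [Finset.mem_filter] at hq1
        rw [Matrix.smul_apply, hTb p1 q1 (hp1.2.trans hq1.2.symm) p q (hp.trans hp1.2.symm)
          (hq'.trans hp1.2.symm), if_neg (fun h => hne h.1.symm), smul_zero]
      · intro h
        exact (h (Finset.mem_filter.2 ⟨mem_univ p, hp⟩)).elim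
    refine hspan T hTspan a b ?_
    rw [Kempf_entry c hg T T' a b hTT, hT']
    have e1 : ((g⁻¹ : (Matrix α α F)ˣ) : Matrix α α F) * ((g : Matrix α α F) *
        Matrix.single a b 1 * ((g⁻¹ : (Matrix α α F)ˣ) : Matrix α α F)) * (g : Matrix α α F) =
        Matrix.single a b 1 := by
      rw [Matrix.mul_assoc (g : Matrix α α F), ← Matrix.mul_assoc, Units.inv_mul, Matrix.one_mul,
        Matrix.mul_assoc, Units.inv_mul, Matrix.mul_one]
    rw [e1, Matrix.single_apply_same]
    exact one_ne_zero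
  have hconst : ∀ a b, c a = c b → ξ a = ξ b := fun a b hab =>
    le_antisymm (hle b a hab.symm) (hle a b hab)
  have hcj : cj g⁻¹ x = 0 := by
    ext a b
    rw [Matrix.zero_apply]
    by_contra hne
    have h1 := hP a b hne
    unfold cj at hne
    rw [inv_inv, Matrix.mul_apply] at hne
    obtain ⟨b', -, hb'⟩ := Finset.exists_ne_zero_of_sum_ne_zero hne
    have h2 := left_ne_zero_of_mul hb'
    have h3 := right_ne_zero_of_mul hb'
    rw [Matrix.mul_apply] at h2
    obtain ⟨a', -, ha'⟩ := Finset.exists_ne_zero_of_sum_ne_zero h2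
    have h4 := left_ne_zero_of_mul ha'
    obtain ⟨h5, h6⟩ := hx a' b' (right_ne_zero_of_mul ha')
    have h7 : ∀ s, ξ (a s) = ξ (b s) := fun s => hconst _ _ (by
      rw [ten_ne_zero (mem_BG.1 hg).2 h4 s, h5 s, ← ten_ne_zero (mem_BG.1 hg).1 h3 s, h6 s])
    have h8 : ∑ s, ξ (a s) = ∑ s, ξ (b s) := Finset.sum_congr rfl fun s _ => h7 s
    rw [h8, sub_self] at h1
    exact absurd h1 (by norm_num)
  apply hx0
  have h9 : x = ten ι (g : Matrix α α F) * cj g⁻¹ x *
      ten ι ((g⁻¹ : (Matrix α α F)ˣ) : Matrix α α F) := by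
    unfold cj
    rw [inv_inv, Matrix.mul_assoc (ten ι ((g⁻¹ : (Matrix α α F)ˣ) : Matrix α α F)),
      ← Matrix.mul_assoc, ten_mul_inv, Matrix.one_mul, Matrix.mul_assoc, ten_mul_inv,
      Matrix.mul_one]
  rw [h9, hcj, Matrix.mul_zero, Matrix.zero_mul]

end H69
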