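import Pool.Agent.W_f569db_h69.NoUnit
import Pool.Agent.W_f569db_h69.ExistsPos
import Pool.Agent.W_f569db_h69.Kempf

/-!
# The core theorem
-/

set_option linter.unusedSectionVars false

universe u

namespace H69

open Matrix Finset

variable {α : Type} {I : Type*} [Fintype α] [DecidableEq α]

/-- Core theorem.  Let `x ≠ 0` be an operator on `⊗_s V_{w s}` which commutes with a set `S` of
elements of `∏ GL(V_i)` acting absolutely irreducibly on each `V_i`.  Then some trace invariant
`Tr(P_σ x^{⊗ d})`, `d ≥ 1`, is not zero.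

Proof.  Otherwise `no_unit`, `exists_pos` and then `not_pos` over the field `F` for `x.map θ` and the
image of `S` give a contradiction. -/
theorem core (c : α → I) {ι : Type} [Fintype ι] [DecidableEq ι] (w : ι → I)
    {K : Type u} [Field K] [CharZero K] (x : Matrix (ι → α) (ι → α) K) (hx0 : x ≠ 0)
    (hx : Supp c w x) (S : Set (Matrix α α K)ˣ) (hSc : S ⊆ BG c K)
    (hS : ∀ a b, c a = c b → ∃ T ∈ Submodule.span K ((fun g : (Matrix α α K)ˣ =>
      (g : Matrix α α K)) '' S), ∀ a' b', c a' = c a → c b' = c a →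
        T a' b' = if a' = a ∧ b' = b then 1 else 0)
    (hcomm : ∀ γ ∈ S, ten ι (γ : Matrix α α K) * x = x * ten ι (γ : Matrix α α K)) :
    ∃ (d : ℕ) (σ : Equiv.Perm (Fin (d + 1) × ι)),
      ∑ a : Fin (d + 1) × ι → α, ∏ k, x (fun s => a (k, s)) (fun s => a (σ (k, s))) ≠ 0 := by
  by_contra hcon
  have htr : ∀ (d : ℕ) (σ : Equiv.Perm (Fin (d + 1) × ι)),
      ∑ a : Fin (d + 1) × ι → α, ∏ k, x (fun s => a (k, s)) (fun s => a (σ (k, s))) = 0 := by
    intro d σ
    by_contra h
    exact hcon ⟨d, σ, h⟩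
  obtain ⟨F, _, θ, g, hg, ξ, hpos⟩ := exists_pos c x
    (fun A hA => no_unit c w x hx htr A hA)
  let Θ : (Matrix α α K)ˣ →* (Matrix α α F)ˣ := Units.map θ.mapMatrix.toMonoidHom
  have hΘ : ∀ γ : (Matrix α α K)ˣ, ((Θ γ : (Matrix α α F)ˣ) : Matrix α α F) =
      (γ : Matrix α α K).map θ := fun γ => rfl
  have hΘi : ∀ γ : (Matrix α α K)ˣ, (((Θ γ)⁻¹ : (Matrix α α F)ˣ) : Matrix α α F) =
      ((γ⁻¹ : (Matrix α α K)ˣ) : Matrix α α K).map θ := by
    intro γ
    rw [← map_inv]
    rfl
  refine not_pos c w (x.map θ) ?_ ?_ (Θ '' S) ?_ ?_ ?_ ⟨g, hg, ξ, hpos⟩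
  · intro h
    apply hx0
    ext a b
    have := congrFun (congrFun h a) b
    rw [Matrix.map_apply] at this
    simpa using this
  · intro a b hab
    apply hx a b
    intro h0
    apply hab
    rw [Matrix.map_apply, h0, map_zero]
  · rintro _ ⟨γ, hγ, rfl⟩
    have h1 := mem_BG.1 (hSc hγ)
    refine mem_BG.2 ⟨?_, ?_⟩
    · rw [hΘ]; exact h1.1.map θ
    · rw [hΘi]; exact h1.2.map θ
  · intro a b hab
    obtain ⟨T, hT, hT2⟩ := hS a b hab
    refine ⟨T.map θ, ?_, ?_⟩
    · clear hT2
      induction hT using Submodule.span_induction with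
      | mem y hy =>
        obtain ⟨γ, hγ, rfl⟩ := hy
        exact Submodule.subset_span ⟨Θ γ, ⟨γ, hγ, rfl⟩, rfl⟩
      | zero =>
        rw [Matrix.map_zero _ (map_zero θ)]
        exact Submodule.zero_mem _
      | add y z _ _ h1 h2 =>
        rw [Matrix.map_add _ (map_add θ)]
        exact Submodule.add_mem _ h1 h2
      | smul r y _ h1 =>
        have : (r • y).map θ = θ r • y.map θ := by
          ext i j
          simp [Matrix.map_apply]
        rw [this]
        exact Submodule.smul_mem _ _ h1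
    · intro a' b' ha hb
      rw [Matrix.map_apply, hT2 a' b' ha hb]
      split_ifs <;> simp
  · rintro _ ⟨γ, hγ, rfl⟩
    have h1 := hcomm γ hγ
    rw [hΘ, ← ten_map, ← Matrix.map_mul, ← Matrix.map_mul, h1]

end H69
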