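import Mathlib

/-!
# A Reynolds operator over `ℚ`
-/

set_option linter.unusedSectionVars false

namespace H69

open Matrix Finset

theorem Reynolds_pos {E : Type*} [Fintype E] [DecidableEq E] (A : Matrix E E ℚ)
    (h : trace (Aᵀ * A) = 0) : A = 0 := by
  rw [Matrix.trace] at h
  simp only [Matrix.diag, Matrix.mul_apply, Matrix.transpose_apply] at h
  have h1 := (Finset.sum_eq_zero_iff_of_nonneg
    (fun i _ => Finset.sum_nonneg fun j _ => mul_self_nonneg (A j i))).1 h
  ext j i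
  have h2 := (Finset.sum_eq_zero_iff_of_nonneg (fun j _ => mul_self_nonneg (A j i))).1
    (h1 i (mem_univ _)) j (mem_univ _)
  exact mul_self_eq_zero.1 h2

theorem Reynolds_riesz {E : Type*} [Fintype E] [DecidableEq E]
    (S : Submodule ℚ (Matrix E E ℚ)) (f : S →ₗ[ℚ] ℚ) :
    ∃ T ∈ S, ∀ B : S, trace (Tᵀ * (B : Matrix E E ℚ)) = f B := by
  let Φ : S →ₗ[ℚ] (S →ₗ[ℚ] ℚ) := LinearMap.mk₂ ℚ
    (fun A B : S => trace ((A : Matrix E E ℚ)ᵀ * (B : Matrix E E ℚ)))
    (fun A A' B => by
      rw [Submodule.coe_add, Matrix.transpose_add, Matrix.add_mul, Matrix.trace_add])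
    (fun c A B => by
      rw [Submodule.coe_smul, Matrix.transpose_smul, Matrix.smul_mul, Matrix.trace_smul])
    (fun A B B' => by rw [Submodule.coe_add, Matrix.mul_add, Matrix.trace_add])
    (fun c A B => by rw [Submodule.coe_smul, Matrix.mul_smul, Matrix.trace_smul])
  have hinj : Function.Injective Φ := by
    rw [injective_iff_map_eq_zero]
    intro A hA
    have h1 : trace ((A : Matrix E E ℚ)ᵀ * (A : Matrix E E ℚ)) = 0 := LinearMap.congr_fun hA A
    exact Subtype.ext (Reynolds_pos _ h1)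
  have hsurj : Function.Surjective Φ :=
    (LinearMap.injective_iff_surjective_of_finrank_eq_finrank
      (Subspace.dual_finrank_eq (K := ℚ) (V := S)).symm).1 hinj
  obtain ⟨T, hT⟩ := hsurj f
  exact ⟨T, T.2, fun B => by rw [← hT]; rfl⟩

/-- Let `ρ` be a matrix representation over `ℚ` whose image is closed under transposition, `y` a
vector over `K` and `a` a linear form over `K` with `a(ρ(g) y) = 1` for all `g`.  Then there is an
invariant rational row vector `t` (`t ρ(g) = t` for all `g`) with `t y ≠ 0`.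

Proof.  `𝒜` = the `ℚ`-span of the matrices `ρ g`; it is closed under multiplication by the `ρ g`
(both sides).  The `ℚ`-linear map `augK : Matrix E E ℚ → K`, `T ↦ a (T y)`, has the value `1` at all
`ρ g`.  Compose it with a `ℚ`-linear map `K → ℚ` which sends `1` to `1`: get
`aug : Matrix E E ℚ → ℚ` linear with `aug (ρ g) = 1`, and `augK T = aug T` for `T ∈ 𝒜`.  Also
`aug (B * ρ g) = aug B` for `B ∈ 𝒜`.  The form `⟨A, B⟩ = trace (Aᵀ * B)` is positive definite, so it
is nondegenerate on `𝒜` and there is `T₀ ∈ 𝒜` with `⟨T₀, B⟩ = aug B` for all `B ∈ 𝒜`.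
Then `T₀ * ρ g = T₀`: for `B ∈ 𝒜` we have `⟨T₀ ρ(g), B⟩ = trace (ρ(g)ᵀ T₀ᵀ B) = ⟨T₀, B ρ(g)ᵀ⟩
= aug (B ρ(g')) = aug B = ⟨T₀, B⟩`, where `ρ(g') = ρ(g)ᵀ`, and `T₀ ρ(g) - T₀ ∈ 𝒜`.
`T₀ ≠ 0` as `aug (ρ 1) = 1`, so `a (T₀ y) = augK T₀ = aug T₀ = ⟨T₀, T₀⟩ ≠ 0`; hence `T₀ y ≠ 0`,
and some row `t` of `T₀` has `t y ≠ 0`. -/
theorem reynolds {G : Type*} [Monoid G] {E : Type*} [Fintype E] [DecidableEq E]
    (ρ : G → Matrix E E ℚ) (h1 : ρ 1 = 1) (hmul : ∀ g h, ρ (g * h) = ρ g * ρ h)
    (htr : ∀ g, ∃ g', (ρ g)ᵀ = ρ g') {K : Type*} [Field K] [CharZero K] (y a : E → K)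
    (hy : ∀ g, ∑ e, a e * ∑ e', ((ρ g e e' : ℚ) : K) * y e' = 1) :
    ∃ t : E → ℚ, (∀ g e', ∑ e, t e * ρ g e e' = t e') ∧ ∑ e, ((t e : ℚ) : K) * y e ≠ 0 := by
  let augK : Matrix E E ℚ →ₗ[ℚ] K :=
    { toFun := fun T => ∑ e, a e * ∑ e', ((T e e' : ℚ) : K) * y e'
      map_add' := fun T T' => by
        rw [← Finset.sum_add_distrib]
        refine Finset.sum_congr rfl fun e _ => ?_
        rw [← mul_add, ← Finset.sum_add_distrib]
        congr 1
        refine Finset.sum_congr rfl fun e' _ => ?_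
        rw [Matrix.add_apply, Rat.cast_add, add_mul]
      map_smul' := fun c T => by
        rw [RingHom.id_apply, Rat.smul_def, Finset.mul_sum]
        refine Finset.sum_congr rfl fun e _ => ?_
        rw [mul_left_comm]
        congr 1
        rw [Finset.mul_sum]
        refine Finset.sum_congr rfl fun e' _ => ?_
        rw [Matrix.smul_apply, smul_eq_mul, Rat.cast_mul, mul_assoc] }
  have haugK : ∀ T, augK T = ∑ e, a e * ∑ e', ((T e e' : ℚ) : K) * y e' := fun _ => rfl
  obtain ⟨f, hf⟩ := LinearMap.exists_leftInverse_of_injective (Algebra.linearMap ℚ K)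
    (LinearMap.ker_eq_bot.2 (algebraMap ℚ K).injective)
  have hf1 : f 1 = 1 := by
    have h2 := LinearMap.congr_fun hf 1
    rw [LinearMap.comp_apply, Algebra.linearMap_apply, map_one] at h2
    exact h2
  let S : Submodule ℚ (Matrix E E ℚ) := Submodule.span ℚ (Set.range ρ)
  have hρS : ∀ g, ρ g ∈ S := fun g => Submodule.subset_span ⟨g, rfl⟩
  have hmulS : ∀ B ∈ S, ∀ g, B * ρ g ∈ S := by
    intro B hB g
    induction hB using Submodule.span_induction with
    | mem x hx =>
      obtain ⟨h, rfl⟩ := hx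
      rw [← hmul]
      exact hρS _
    | zero => rw [Matrix.zero_mul]; exact S.zero_mem
    | add x y _ _ hx hy => rw [Matrix.add_mul]; exact S.add_mem hx hy
    | smul c x _ hx => rw [Matrix.smul_mul]; exact S.smul_mem c hx
  have haug1 : ∀ g, augK (ρ g) = 1 := fun g => hy g
  have hinv : ∀ B ∈ S, ∀ g, augK (B * ρ g) = augK B := by
    intro B hB g
    induction hB using Submodule.span_induction with
    | mem x hx =>
      obtain ⟨h, rfl⟩ := hx
      rw [← hmul, haug1, haug1]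
    | zero => rw [Matrix.zero_mul]
    | add x y _ _ hx hy => rw [Matrix.add_mul, map_add, map_add, hx, hy]
    | smul c x _ hx => rw [Matrix.smul_mul, map_smul, map_smul, hx]
  have hrat : ∀ B ∈ S, augK B = ((f (augK B) : ℚ) : K) := by
    intro B hB
    induction hB using Submodule.span_induction with
    | mem x hx =>
      obtain ⟨h, rfl⟩ := hx
      rw [haug1, hf1, Rat.cast_one]
    | zero => rw [map_zero, map_zero, Rat.cast_zero]
    | add x y _ _ hx hy =>
      rw [map_add, map_add, Rat.cast_add, ← hx, ← hy]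
    | smul c x _ hx =>
      rw [map_smul, map_smul, smul_eq_mul, Rat.cast_mul, ← hx, Rat.smul_def]
  obtain ⟨T, hTS, hT⟩ := Reynolds_riesz S ((f ∘ₗ augK).comp S.subtype)
  have hT' : ∀ B ∈ S, trace (Tᵀ * B) = f (augK B) := fun B hB => hT ⟨B, hB⟩
  have hTρ : ∀ g, T * ρ g = T := by
    intro g
    obtain ⟨g', hg'⟩ := htr g
    have hD : T * ρ g - T ∈ S := S.sub_mem (hmulS T hTS g) hTS
    have horth : ∀ B ∈ S, trace ((T * ρ g - T)ᵀ * B) = 0 := by
      intro B hB
      rw [Matrix.transpose_sub, Matrix.sub_mul, Matrix.trace_sub, Matrix.transpose_mul,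
        Matrix.mul_assoc, Matrix.trace_mul_comm, Matrix.mul_assoc, hg', hT' _ (hmulS B hB g'),
        hinv B hB g', hT' B hB, sub_self]
    exact sub_eq_zero.1 (Reynolds_pos _ (horth _ hD))
  have hT0 : T ≠ 0 := by
    rintro rfl
    have h2 := hT' (ρ 1) (hρS 1)
    rw [haug1, hf1, Matrix.transpose_zero, Matrix.zero_mul, Matrix.trace_zero] at h2
    exact zero_ne_one h2
  have hne : augK T ≠ 0 := by
    rw [hrat T hTS, ← hT' T hTS]
    intro h2
    exact hT0 (Reynolds_pos _ (Rat.cast_eq_zero.1 h2))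
  rw [haugK] at hne
  obtain ⟨e, -, he⟩ := Finset.exists_ne_zero_of_sum_ne_zero hne
  refine ⟨T e, fun g e' => ?_, right_ne_zero_of_mul he⟩
  have h2 := congrFun (congrFun (hTρ g) e) e'
  rw [Matrix.mul_apply] at h2
  exact h2

end H69
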