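import Pool.Agent.W_f569db_h69.InvOrth
import Pool.Agent.W_f569db_h69.Reynolds

/-!
# Step 1: if all trace invariants of `x` vanish, then no polynomial without constant term takes the
value `1` on the orbit of `x` under the rational points of `∏ GL(V_i)`
-/

set_option linter.unusedSectionVars false

namespace H69

open Matrix Finset

variable {α I : Type*} [Fintype α] [DecidableEq α]

/-- The action of `g` on `End(V^{⊗ ι})`, as a matrix. -/
def NoUnit_P (ι : Type*) [Fintype ι] [DecidableEq ι] {R : Type*} [CommRing R]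
    (g : (Matrix α α R)ˣ) : Matrix ((ι → α) × (ι → α)) ((ι → α) × (ι → α)) R :=
  Matrix.kroneckerMap (· * ·) (ten ι (g : Matrix α α R))
    (ten ι ((g⁻¹ : (Matrix α α R)ˣ) : Matrix α α R))ᵀ

theorem NoUnit_P_apply {ι : Type*} [Fintype ι] [DecidableEq ι] {R : Type*} [CommRing R]
    (g : (Matrix α α R)ˣ) (p q : (ι → α) × (ι → α)) :
    NoUnit_P ι g p q = ten ι (g : Matrix α α R) p.1 q.1 *
      ten ι ((g⁻¹ : (Matrix α α R)ˣ) : Matrix α α R) q.2 p.2 := rfl

theorem NoUnit_P_one {ι : Type*} [Fintype ι] [DecidableEq ι] {R : Type*} [CommRing R] :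
    NoUnit_P ι (1 : (Matrix α α R)ˣ) = 1 := by
  unfold NoUnit_P
  rw [inv_one, Units.val_one, ten_one, Matrix.transpose_one]
  exact Matrix.one_kronecker_one

theorem NoUnit_P_mul {ι : Type*} [Fintype ι] [DecidableEq ι] {R : Type*} [CommRing R]
    (g h : (Matrix α α R)ˣ) : NoUnit_P ι (g * h) = NoUnit_P ι g * NoUnit_P ι h := by
  unfold NoUnit_P
  rw [_root_.mul_inv_rev, Units.val_mul, Units.val_mul, ten_mul, ten_mul, Matrix.transpose_mul]
  exact Matrix.mul_kronecker_mul _ _ _ _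

/-- The transpose of an element of `BG`. -/
def NoUnit_tr {R : Type*} [CommRing R] (g : (Matrix α α R)ˣ) : (Matrix α α R)ˣ where
  val := (g : Matrix α α R)ᵀ
  inv := ((g⁻¹ : (Matrix α α R)ˣ) : Matrix α α R)ᵀ
  val_inv := by rw [← Matrix.transpose_mul, Units.inv_mul, Matrix.transpose_one]
  inv_val := by rw [← Matrix.transpose_mul, Units.mul_inv, Matrix.transpose_one]

theorem NoUnit_P_tr {ι : Type*} [Fintype ι] [DecidableEq ι] {R : Type*} [CommRing R]
    (g : (Matrix α α R)ˣ) : (NoUnit_P ι g)ᵀ = NoUnit_P ι (NoUnit_tr g) := by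
  ext p q
  rw [Matrix.transpose_apply, NoUnit_P_apply, NoUnit_P_apply]
  rfl

theorem NoUnit_cast_prod {K : Type*} [Field K] [CharZero K] {ι : Type*} [Fintype ι]
    (A : Matrix α α ℚ) (a b : ι → α) :
    ((ten ι A a b : ℚ) : K) = ten ι (A.map (Rat.castHom K)) a b := by
  rw [ten_apply, ten_apply, Rat.cast_prod]
  rfl

/-- The action of `P` on `x`. -/
theorem NoUnit_P_sum {ι : Type*} [Fintype ι] [DecidableEq ι] {K : Type*} [Field K] [CharZero K]
    (x : Matrix (ι → α) (ι → α) K) (g : (Matrix α α ℚ)ˣ) (p : (ι → α) × (ι → α)) :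
    ∑ q, ((NoUnit_P ι g p q : ℚ) : K) * x q.1 q.2 =
      cj (Units.map (Rat.castHom K).mapMatrix.toMonoidHom g) x p.1 p.2 := by
  unfold cj
  rw [Matrix.mul_apply, Fintype.sum_prod_type_right]
  refine Finset.sum_congr rfl fun q2 _ => ?_
  rw [Matrix.mul_apply, Finset.sum_mul]
  refine Finset.sum_congr rfl fun q1 _ => ?_
  rw [NoUnit_P_apply]
  rw [Rat.cast_mul, NoUnit_cast_prod, NoUnit_cast_prod]
  have h1 : ((Units.map (Rat.castHom K).mapMatrix.toMonoidHom g : (Matrix α α K)ˣ) : Matrix α α K)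
      = (g : Matrix α α ℚ).map (Rat.castHom K) := rfl
  have h2 : (((Units.map (Rat.castHom K).mapMatrix.toMonoidHom g)⁻¹ : (Matrix α α K)ˣ) :
      Matrix α α K) = ((g⁻¹ : (Matrix α α ℚ)ˣ) : Matrix α α ℚ).map (Rat.castHom K) := rfl
  rw [h1, h2]
  ring

/-- The index type. -/
abbrev NoUnit_E (α ι : Type*) (D : ℕ) : Type _ :=
  (d : Fin D) × (Fin ((d : ℕ) + 1) → (ι → α) × (ι → α))

/-- The representation. -/
def NoUnit_rho (ι : Type*) [Fintype ι] [DecidableEq ι] (D : ℕ) (g : (Matrix α α ℚ)ˣ) :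
    Matrix (NoUnit_E α ι D) (NoUnit_E α ι D) ℚ :=
  Matrix.blockDiagonal' fun d : Fin D => ten (Fin ((d : ℕ) + 1)) (NoUnit_P ι g)

theorem NoUnit_rho_sum {ι : Type*} [Fintype ι] [DecidableEq ι] (D : ℕ) {K : Type*} [Field K]
    [CharZero K] (x : Matrix (ι → α) (ι → α) K) (g : (Matrix α α ℚ)ˣ) (e : NoUnit_E α ι D) :
    ∑ e', ((NoUnit_rho ι D g e e' : ℚ) : K) * ∏ k, x (e'.2 k).1 (e'.2 k).2 =
      ∏ k, cj (Units.map (Rat.castHom K).mapMatrix.toMonoidHom g) x (e.2 k).1 (e.2 k).2 := by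
  obtain ⟨d, f⟩ := e
  rw [Fintype.sum_sigma, Finset.sum_eq_single d]
  · have h1 : ∀ f' : Fin ((d : ℕ) + 1) → (ι → α) × (ι → α),
        ((NoUnit_rho ι D g ⟨d, f⟩ ⟨d, f'⟩ : ℚ) : K) * ∏ k, x (f' k).1 (f' k).2 =
        ∏ k, (((NoUnit_P ι g (f k) (f' k) : ℚ) : K) * x (f' k).1 (f' k).2) := by
      intro f'
      unfold NoUnit_rho
      rw [Matrix.blockDiagonal'_apply_eq, ten_apply, Rat.cast_prod, Finset.prod_mul_distrib]
    rw [Finset.sum_congr rfl fun f' _ => h1 f']
    have h2 : ∀ k, cj (Units.map (Rat.castHom K).mapMatrix.toMonoidHom g) x (f k).1 (f k).2 =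
        ∑ q, ((NoUnit_P ι g (f k) q : ℚ) : K) * x q.1 q.2 := fun k => (NoUnit_P_sum x g (f k)).symm
    show _ = ∏ k, cj (Units.map (Rat.castHom K).mapMatrix.toMonoidHom g) x (f k).1 (f k).2
    rw [Finset.prod_congr rfl fun k _ => h2 k, Finset.prod_univ_sum]
    simp only [Fintype.piFinset_univ]
  · intro d' _ hd'
    refine Finset.sum_eq_zero fun f' _ => ?_
    unfold NoUnit_rho
    rw [Matrix.blockDiagonal'_apply_ne _ _ _ (Ne.symm hd'), Rat.cast_zero, zero_mul]
  · intro h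
    exact absurd (Finset.mem_univ d) h

theorem NoUnit_inj {β : Type*} {D : ℕ} :
    Function.Injective fun e : (d : Fin D) × (Fin ((d : ℕ) + 1) → β) => List.ofFn e.2 := by
  rintro ⟨d, f⟩ ⟨d', f'⟩ h
  have h0 : List.ofFn f = List.ofFn f' := h
  have h1 : (d : ℕ) + 1 = (d' : ℕ) + 1 := by
    have h2 := congrArg List.length h0
    rwa [List.length_ofFn, List.length_ofFn] at h2
  have h2 : d = d' := Fin.ext (by omega)
  subst h2
  rw [List.ofFn_injective h0]

theorem NoUnit_sum {β : Type*} [Fintype β] [DecidableEq β] {K : Type*} [Field K]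
    (A : List β →₀ K) (hA : A [] = 0) (D : ℕ) (hD : ∀ l ∈ A.support, l.length ≤ D) (F : β → K) :
    (A.sum fun l r => r * (l.map F).prod) =
      ∑ e : (d : Fin D) × (Fin ((d : ℕ) + 1) → β), A (List.ofFn e.2) * ∏ k, F (e.2 k) := by
  classical
  have hsub : A.support ⊆ Finset.univ.image
      fun e : (d : Fin D) × (Fin ((d : ℕ) + 1) → β) => List.ofFn e.2 := by
    intro l hl
    have h1 : l ≠ [] := by
      rintro rfl
      exact (Finsupp.mem_support_iff.1 hl) hA
    have h2 : 0 < l.length := List.length_pos_iff.2 h1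
    have h3 := hD l hl
    have h4 : l.length - 1 + 1 = l.length := by omega
    refine Finset.mem_image.2 ⟨⟨⟨l.length - 1, by omega⟩, fun k => l.get (Fin.cast h4 k)⟩,
      Finset.mem_univ _, ?_⟩
    show List.ofFn (fun k : Fin (l.length - 1 + 1) => l.get (Fin.cast h4 k)) = l
    rw [List.ofFn_congr h4]
    exact List.ofFn_get l
  rw [Finsupp.sum_of_support_subset A hsub (fun l r => r * (l.map F).prod) (fun l _ => zero_mul _),
    Finset.sum_image (fun a _ b _ h => NoUnit_inj h)]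
  refine Finset.sum_congr rfl fun e _ => ?_
  rw [List.map_ofFn, List.prod_ofFn]
  rfl

/-- Step 1.
Proof.  Let `D` be larger than all lengths of lists in the support of `A`,
`E = Σ d : Fin D, (Fin (d + 1) → (ι → α) × (ι → α))`, `y (d, e) = ∏_k x (e k).1 (e k).2`,
`a (d, e)` = the coefficient of `A` at the list `List.ofFn e`, and `ρ g` for `g ∈ BG c ℚ` the block
diagonal matrix with
`ρ g (d, e) (d, e') = ∏_k (ten g (e k).1 (e' k).1 * ten g⁻¹ (e' k).2 (e k).2)`.  It is multiplicative, and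
`(ρ g)ᵀ = ρ gᵀ`.  `(ρ g y)(d, e) = ∏_k (cj g x) (e k).1 (e k).2`.  If the formula in the claim were true,
we could apply `reynolds`; the invariant row vector `t` has `∑ t y ≠ 0`, but by `inv_orth` for each
`d` this sum is zero. -/
theorem no_unit (c : α → I) {ι : Type*} [Fintype ι] [DecidableEq ι] (w : ι → I)
    {K : Type*} [Field K] [CharZero K] (x : Matrix (ι → α) (ι → α) K) (hx : Supp c w x)
    (htr : ∀ (d : ℕ) (σ : Equiv.Perm (Fin (d + 1) × ι)),
      ∑ a : Fin (d + 1) × ι → α, ∏ k, x (fun s => a (k, s)) (fun s => a (σ (k, s))) = 0)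
    (A : List ((ι → α) × (ι → α)) →₀ K) (hA : A [] = 0) :
    ¬ ∀ g ∈ BG c ℚ, (A.sum fun l r =>
      r * (l.map fun p => cj (Units.map (Rat.castHom K).mapMatrix.toMonoidHom g) x p.1 p.2).prod)
        = 1 := by
  classical
  intro hone
  let D : ℕ := A.support.sup List.length
  obtain ⟨t, ht, ht2⟩ := reynolds (G := BG c ℚ) (E := NoUnit_E α ι D)
    (fun g => NoUnit_rho ι D (g : (Matrix α α ℚ)ˣ))
    (by
      show NoUnit_rho ι D (((1 : BG c ℚ) : (Matrix α α ℚ)ˣ)) = 1
      unfold NoUnit_rho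
      rw [Subgroup.coe_one, NoUnit_P_one]
      have h1 : (fun d : Fin D => ten (Fin ((d : ℕ) + 1))
          (1 : Matrix ((ι → α) × (ι → α)) ((ι → α) × (ι → α)) ℚ)) = 1 := by
        funext d
        rw [ten_one]
        rfl
      rw [h1]
      exact Matrix.blockDiagonal'_one)
    (by
      intro g h
      show NoUnit_rho ι D ((g * h : BG c ℚ) : (Matrix α α ℚ)ˣ) = _
      unfold NoUnit_rho
      rw [Subgroup.coe_mul, NoUnit_P_mul, ← Matrix.blockDiagonal'_mul]
      congr 1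
      funext d
      exact ten_mul _ _)
    (by
      intro g
      have hg := mem_BG.1 g.2
      refine ⟨⟨NoUnit_tr (g : (Matrix α α ℚ)ˣ), mem_BG.2 ⟨hg.1.transpose, hg.2.transpose⟩⟩, ?_⟩
      show (NoUnit_rho ι D (g : (Matrix α α ℚ)ˣ))ᵀ = NoUnit_rho ι D (NoUnit_tr (g : (Matrix α α ℚ)ˣ))
      unfold NoUnit_rho
      rw [Matrix.blockDiagonal'_transpose]
      congr 1
      )
    (fun e => ∏ k, x (e.2 k).1 (e.2 k).2) (fun e => A (List.ofFn e.2))
    (by
      intro g
      rw [← hone _ g.2, NoUnit_sum A hA D (fun l hl => Finset.le_sup (f := List.length) hl)]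
      refine Finset.sum_congr rfl fun e _ => ?_
      rw [NoUnit_rho_sum])
  apply ht2
  rw [Fintype.sum_sigma]
  refine Finset.sum_eq_zero fun d _ => ?_
  refine inv_orth c w x hx (d : ℕ) (htr d) (fun f => t ⟨d, f⟩) ?_
  intro g hg f'
  rw [← ht ⟨g, hg⟩ ⟨d, f'⟩, Fintype.sum_sigma, Finset.sum_eq_single d]
  · refine Finset.sum_congr rfl fun f _ => ?_
    show _ = t ⟨d, f⟩ * NoUnit_rho ι D g ⟨d, f⟩ ⟨d, f'⟩
    unfold NoUnit_rho
    rw [Matrix.blockDiagonal'_apply_eq]
    rfl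
  · intro d' _ hd'
    refine Finset.sum_eq_zero fun f _ => ?_
    show t ⟨d', f⟩ * NoUnit_rho ι D g ⟨d', f⟩ ⟨d, f'⟩ = 0
    unfold NoUnit_rho
    rw [Matrix.blockDiagonal'_apply_ne _ _ _ hd', mul_zero]
  · intro h
    exact absurd (Finset.mem_univ d) h

end H69
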