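import Mathlib

/-!
# Definitions for the project MP_f569db_ag (helper69)

`V = ⊕_i V_i` has a basis indexed by a finite type `α`, and `c : α → I` tells to which `V_i` a basis
vector belongs.  `Bd c A` says that the matrix `A` is block diagonal (maps each `V_i` to itself),
`BG c R` is the group of invertible block diagonal matrices, and `ten ι A` is the tensor power
`A^{⊗ ι}` acting on `V^{⊗ ι}` (basis indexed by `ι → α`).
-/

set_option linter.unusedSectionVars false

namespace H69

open Matrix Finset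

variable {α I : Type*} [Fintype α] [DecidableEq α]

/-- Block diagonal matrices: an entry can be nonzero only between indices of the same colour. -/
def Bd (c : α → I) {R : Type*} [Zero R] (A : Matrix α α R) : Prop :=
  ∀ a b, A a b ≠ 0 → c a = c b

theorem Bd.one (c : α → I) {R : Type*} [CommRing R] : Bd c (1 : Matrix α α R) := by
  intro a b h
  by_contra hne
  apply h
  rw [Matrix.one_apply_ne]
  rintro rfl
  exact hne rfl

theorem Bd.mul {c : α → I} {R : Type*} [CommRing R] {A B : Matrix α α R} (hA : Bd c A)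
    (hB : Bd c B) : Bd c (A * B) := by
  intro a b h
  rw [Matrix.mul_apply] at h
  obtain ⟨j, -, hj⟩ := Finset.exists_ne_zero_of_sum_ne_zero h
  exact (hA a j (left_ne_zero_of_mul hj)).trans (hB j b (right_ne_zero_of_mul hj))

theorem Bd.transpose {c : α → I} {R : Type*} [Zero R] {A : Matrix α α R} (hA : Bd c A) :
    Bd c Aᵀ := fun a b h => (hA b a h).symm

theorem Bd.map {c : α → I} {R S : Type*} [Semiring R] [Semiring S] {A : Matrix α α R}
    (hA : Bd c A) (f : R →+* S) : Bd c (A.map f) := by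
  intro a b h
  apply hA a b
  intro h0
  apply h
  simp [Matrix.map_apply, h0]

/-- The group of invertible block diagonal matrices. -/
def BG (c : α → I) (R : Type*) [CommRing R] : Subgroup (Matrix α α R)ˣ where
  carrier := {g | Bd c (g : Matrix α α R) ∧ Bd c ((g⁻¹ : (Matrix α α R)ˣ) : Matrix α α R)}
  mul_mem' := by
    rintro g h ⟨hg, hg'⟩ ⟨hh, hh'⟩
    refine ⟨?_, ?_⟩
    · rw [Units.val_mul]; exact hg.mul hh
    · rw [_root_.mul_inv_rev, Units.val_mul]; exact hh'.mul hg'
  one_mem' := by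
    refine ⟨?_, ?_⟩
    · rw [Units.val_one]; exact Bd.one c
    · rw [inv_one, Units.val_one]; exact Bd.one c
  inv_mem' := by
    rintro g ⟨hg, hg'⟩
    refine ⟨hg', ?_⟩
    rw [inv_inv]; exact hg

theorem mem_BG {c : α → I} {R : Type*} [CommRing R] {g : (Matrix α α R)ˣ} :
    g ∈ BG c R ↔ Bd c (g : Matrix α α R) ∧ Bd c ((g⁻¹ : (Matrix α α R)ˣ) : Matrix α α R) :=
  Iff.rfl

/-- The tensor power of a matrix, acting on `V^{⊗ ι}`. -/
def ten (ι : Type*) [Fintype ι] {R : Type*} [CommRing R] (A : Matrix α α R) :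
    Matrix (ι → α) (ι → α) R :=
  Matrix.of fun a b => ∏ s, A (a s) (b s)

section ten

variable {ι : Type*} [Fintype ι] {R : Type*} [CommRing R]

theorem ten_apply (A : Matrix α α R) (a b : ι → α) : ten ι A a b = ∏ s, A (a s) (b s) := rfl

theorem ten_mul [DecidableEq ι] (A B : Matrix α α R) : ten ι (A * B) = ten ι A * ten ι B := by
  ext a b
  simp only [ten_apply, Matrix.mul_apply]
  rw [Finset.prod_univ_sum]
  simp only [Fintype.piFinset_univ, Finset.prod_mul_distrib]

theorem ten_one [DecidableEq ι] : ten ι (1 : Matrix α α R) = 1 := by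
  ext a b
  rw [ten_apply, Matrix.one_apply]
  split_ifs with h
  · subst h; simp
  · obtain ⟨s, hs⟩ := Function.ne_iff.mp h
    exact Finset.prod_eq_zero (Finset.mem_univ s) (by rw [Matrix.one_apply_ne hs])

theorem ten_transpose (A : Matrix α α R) : (ten ι A)ᵀ = ten ι Aᵀ := by
  ext a b
  simp [ten_apply]

theorem ten_map {S : Type*} [CommRing S] (f : R →+* S) (A : Matrix α α R) :
    (ten ι A).map f = ten ι (A.map f) := by
  ext a b
  simp [ten_apply, map_prod]

/-- `ten` on units. -/
def tenU (ι : Type*) [Fintype ι] [DecidableEq ι] {R : Type*} [CommRing R] :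
    (Matrix α α R)ˣ →* (Matrix (ι → α) (ι → α) R)ˣ :=
  Units.map { toFun := ten ι, map_one' := ten_one, map_mul' := ten_mul }

@[simp] theorem tenU_val [DecidableEq ι] (g : (Matrix α α R)ˣ) :
    ((tenU ι g : (Matrix (ι → α) (ι → α) R)ˣ) : Matrix (ι → α) (ι → α) R) =
      ten ι (g : Matrix α α R) := rfl

@[simp] theorem tenU_inv_val [DecidableEq ι] (g : (Matrix α α R)ˣ) :
    (((tenU ι g)⁻¹ : (Matrix (ι → α) (ι → α) R)ˣ) : Matrix (ι → α) (ι → α) R) =
      ten ι ((g⁻¹ : (Matrix α α R)ˣ) : Matrix α α R) := by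
  rw [← map_inv]; rfl

theorem ten_mul_inv [DecidableEq ι] (g : (Matrix α α R)ˣ) :
    ten ι (g : Matrix α α R) * ten ι ((g⁻¹ : (Matrix α α R)ˣ) : Matrix α α R) = 1 := by
  rw [← ten_mul, Units.mul_inv, ten_one]

theorem ten_inv_mul [DecidableEq ι] (g : (Matrix α α R)ˣ) :
    ten ι ((g⁻¹ : (Matrix α α R)ˣ) : Matrix α α R) * ten ι (g : Matrix α α R) = 1 := by
  rw [← ten_mul, Units.inv_mul, ten_one]

/-- An operator on `V^{⊗ ι}` which lives on the summand `⊗_s V_{w s}`. -/
def Supp (c : α → I) (w : ι → I) (x : Matrix (ι → α) (ι → α) R) : Prop :=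
  ∀ a b, x a b ≠ 0 → (∀ s, c (a s) = w s) ∧ ∀ s, c (b s) = w s

/-- A block diagonal `A^{⊗ι}` preserves the colour pattern. -/
theorem ten_ne_zero {c : α → I} {A : Matrix α α R} (hA : Bd c A) {a b : ι → α}
    (h : ten ι A a b ≠ 0) (s : ι) : c (a s) = c (b s) := by
  rw [ten_apply] at h
  apply hA
  intro h0
  exact h (Finset.prod_eq_zero (Finset.mem_univ s) h0)

end ten

/-- The conjugate of `x ∈ End(V^{⊗ ι})` by `g ∈ GL(V)`. -/
def cj {ι : Type*} [Fintype ι] [DecidableEq ι] {R : Type*} [CommRing R] (g : (Matrix α α R)ˣ)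
    (x : Matrix (ι → α) (ι → α) R) : Matrix (ι → α) (ι → α) R :=
  ten ι (g : Matrix α α R) * x * ten ι ((g⁻¹ : (Matrix α α R)ˣ) : Matrix α α R)

end H69
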