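import Pool.Agent.W_f569db_h69.Elim

/-!
# Two weighted flags have a common adapted basis (Bruhat decomposition)

A pair `(g, ξ)`, `g` an invertible matrix (its columns are a basis of `V`) and `ξ : α → ℝ` weights,
describes the filtration `F^t = span {g e_r : ξ r ≥ t}` of `V`.
`Le M ξ ξ'` says that the matrix `M` maps `span {e_r : ξ' r ≥ t}` into `span {e_q : ξ q ≥ t}`
for all `t`.  So `(g, ξ)` and `(g', ξ')` describe the same filtration iff `Le (g⁻¹ g') ξ ξ'` and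
`Le (g'⁻¹ g) ξ' ξ`; this is `Same`.
-/

set_option linter.unusedSectionVars false

namespace H69

open Matrix Finset

variable {α I : Type*} [Fintype α] [DecidableEq α] {F : Type*} [Field F]

/-- The matrix `M` respects the filtrations given by the weights `ξ'` (source) and `ξ`
(target). -/
def Le (M : Matrix α α F) (ξ ξ' : α → ℝ) : Prop := ∀ q r, M q r ≠ 0 → ξ' r ≤ ξ q

theorem Le.mul {M N : Matrix α α F} {ξ ξ' ξ'' : α → ℝ} (h : Le M ξ ξ') (h' : Le N ξ' ξ'') :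
    Le (M * N) ξ ξ'' := by
  intro q r hqr
  rw [Matrix.mul_apply] at hqr
  obtain ⟨j, -, hj⟩ := Finset.exists_ne_zero_of_sum_ne_zero hqr
  exact (h' j r (right_ne_zero_of_mul hj)).trans (h q j (left_ne_zero_of_mul hj))

theorem Le.one (ξ : α → ℝ) : Le (1 : Matrix α α F) ξ ξ := by
  intro q r h
  by_cases hqr : q = r
  · rw [hqr]
  · exact absurd (Matrix.one_apply_ne hqr) h

/-- The weighted bases `(g, ξ)` and `(g', ξ')` define the same filtration. -/
def Same (g : (Matrix α α F)ˣ) (ξ : α → ℝ) (g' : (Matrix α α F)ˣ) (ξ' : α → ℝ) : Prop :=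
  Le ((g⁻¹ * g' : (Matrix α α F)ˣ) : Matrix α α F) ξ ξ' ∧
    Le ((g'⁻¹ * g : (Matrix α α F)ˣ) : Matrix α α F) ξ' ξ

theorem Same.symm {g g' : (Matrix α α F)ˣ} {ξ ξ' : α → ℝ} (h : Same g ξ g' ξ') :
    Same g' ξ' g ξ := ⟨h.2, h.1⟩

theorem Same.trans {g g' g'' : (Matrix α α F)ˣ} {ξ ξ' ξ'' : α → ℝ} (h : Same g ξ g' ξ')
    (h' : Same g' ξ' g'' ξ'') : Same g ξ g'' ξ'' := by
  refine ⟨?_, ?_⟩
  · have := h.1.mul h'.1
    rwa [← Units.val_mul, mul_assoc, mul_inv_cancel_left] at this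
  · have := h'.2.mul h.2
    rwa [← Units.val_mul, mul_assoc, mul_inv_cancel_left] at this

/-- An invertible matrix has a permutation with nonzero entries; with `Le` this compares the
weights. -/
theorem Le.exists_perm_le (M : (Matrix α α F)ˣ) {ξ ξ' : α → ℝ} (h : Le (M : Matrix α α F) ξ ξ') :
    ∃ τ : Equiv.Perm α, ∀ r, ξ' r ≤ ξ (τ r) := by
  have hdet : (M : Matrix α α F).det ≠ 0 := by
    have h1 : (M : Matrix α α F).det * ((M⁻¹ : (Matrix α α F)ˣ) : Matrix α α F).det = 1 := by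
      rw [← Matrix.det_mul, Units.mul_inv, Matrix.det_one]
    exact left_ne_zero_of_mul (h1 ▸ one_ne_zero)
  rw [Matrix.det_apply] at hdet
  obtain ⟨σ, -, hσ⟩ := Finset.exists_ne_zero_of_sum_ne_zero hdet
  refine ⟨σ, fun r => h (σ r) r ?_⟩
  intro h0
  apply hσ
  have h1 : ∏ i, (M : Matrix α α F) (σ i) i = 0 :=
    Finset.prod_eq_zero (f := fun i => (M : Matrix α α F) (σ i) i) (Finset.mem_univ r) h0
  rw [h1, smul_zero]

/-- Same filtration implies: the same weights up to a permutation.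
Proof.  `M = g⁻¹ g'` is invertible, so by the Leibniz formula for `det M ≠ 0` there is a permutation
`τ` with `M (τ r) r ≠ 0` for all `r`, hence `ξ' r ≤ ξ (τ r)`.  In the same way there is `τ'` with
`ξ r ≤ ξ' (τ' r)`.  Summing, `∑ ξ' ≤ ∑ ξ ≤ ∑ ξ'`, so all inequalities are equalities. -/
theorem Same.exists_perm {g g' : (Matrix α α F)ˣ} {ξ ξ' : α → ℝ} (h : Same g ξ g' ξ') :
    ∃ τ : Equiv.Perm α, ∀ r, ξ' r = ξ (τ r) := by
  obtain ⟨τ, hτ⟩ := Le.exists_perm_le _ h.1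
  obtain ⟨τ', hτ'⟩ := Le.exists_perm_le _ h.2
  have h1 : ∑ r, ξ (τ r) = ∑ r, ξ r := Equiv.sum_comp τ ξ
  have h2 : ∑ r, ξ' (τ' r) = ∑ r, ξ' r := Equiv.sum_comp τ' ξ'
  have h3 : ∑ r, ξ' r ≤ ∑ r, ξ (τ r) := Finset.sum_le_sum fun r _ => hτ r
  have h4 : ∑ r, ξ r ≤ ∑ r, ξ' (τ' r) := Finset.sum_le_sum fun r _ => hτ' r
  have h5 : ∑ r, ξ' r = ∑ r, ξ (τ r) := le_antisymm h3 (by rw [h1]; exact h4.trans h2.le)
  refine ⟨τ, fun r => ?_⟩
  exact (Finset.sum_eq_sum_iff_of_le (fun r _ => hτ r)).1 h5 r (Finset.mem_univ r)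

/-- The group of the invertible matrices which respect a filtration in both directions. -/
def LG (F : Type*) [Field F] (ξ : α → ℝ) : Subgroup (Matrix α α F)ˣ where
  carrier := {u | Le (u : Matrix α α F) ξ ξ ∧ Le ((u⁻¹ : (Matrix α α F)ˣ) : Matrix α α F) ξ ξ}
  mul_mem' := by
    rintro a b ⟨ha, ha'⟩ ⟨hb, hb'⟩
    refine ⟨?_, ?_⟩
    · rw [Units.val_mul]; exact ha.mul hb
    · rw [_root_.mul_inv_rev, Units.val_mul]; exact hb'.mul ha'
  one_mem' := by
    refine ⟨?_, ?_⟩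
    · rw [Units.val_one]; exact Le.one ξ
    · rw [inv_one, Units.val_one]; exact Le.one ξ
  inv_mem' := by
    rintro a ⟨ha, ha'⟩
    refine ⟨ha', ?_⟩
    rw [inv_inv]; exact ha

theorem mem_LG {ξ : α → ℝ} {u : (Matrix α α F)ˣ} : u ∈ LG F ξ ↔
    Le (u : Matrix α α F) ξ ξ ∧ Le ((u⁻¹ : (Matrix α α F)ˣ) : Matrix α α F) ξ ξ := Iff.rfl

theorem rowEl_ne_zero {h : Matrix α α F} {Q : Finset α} {q r i j : α}
    (hij : rowEl h Q q r i j ≠ 0) : i = j ∨ (j = q ∧ i ∈ Q ∧ h i r ≠ 0) := by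
  unfold rowEl at hij
  rw [Matrix.of_apply] at hij
  by_cases h1 : i = j
  · exact Or.inl h1
  · rw [if_neg h1] at hij
    by_cases h2 : j = q ∧ i ∈ Q
    · rw [if_pos h2] at hij
      refine Or.inr ⟨h2.1, h2.2, fun h0 => hij ?_⟩
      rw [h0, zero_div, neg_zero]
    · rw [if_neg h2] at hij
      exact absurd rfl hij

theorem rowElInv_ne_zero {h : Matrix α α F} {Q : Finset α} {q r i j : α}
    (hij : rowElInv h Q q r i j ≠ 0) : i = j ∨ (j = q ∧ i ∈ Q ∧ h i r ≠ 0) := by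
  unfold rowElInv at hij
  rw [Matrix.of_apply] at hij
  by_cases h1 : i = j
  · exact Or.inl h1
  · rw [if_neg h1] at hij
    by_cases h2 : j = q ∧ i ∈ Q
    · rw [if_pos h2] at hij
      refine Or.inr ⟨h2.1, h2.2, fun h0 => hij ?_⟩
      rw [h0, zero_div]
    · rw [if_neg h2] at hij
      exact absurd rfl hij

theorem colEl_ne_zero {h : Matrix α α F} {R : Finset α} {q r i j : α}
    (hij : colEl h R q r i j ≠ 0) : i = j ∨ (i = r ∧ j ∈ R ∧ h q j ≠ 0) := by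
  unfold colEl at hij
  rw [Matrix.of_apply] at hij
  by_cases h1 : i = j
  · exact Or.inl h1
  · rw [if_neg h1] at hij
    by_cases h2 : i = r ∧ j ∈ R
    · rw [if_pos h2] at hij
      refine Or.inr ⟨h2.1, h2.2, fun h0 => hij ?_⟩
      rw [h0, zero_div, neg_zero]
    · rw [if_neg h2] at hij
      exact absurd rfl hij

theorem colElInv_ne_zero {h : Matrix α α F} {R : Finset α} {q r i j : α}
    (hij : colElInv h R q r i j ≠ 0) : i = j ∨ (i = r ∧ j ∈ R ∧ h q j ≠ 0) := by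
  unfold colElInv at hij
  rw [Matrix.of_apply] at hij
  by_cases h1 : i = j
  · exact Or.inl h1
  · rw [if_neg h1] at hij
    by_cases h2 : i = r ∧ j ∈ R
    · rw [if_pos h2] at hij
      refine Or.inr ⟨h2.1, h2.2, fun h0 => hij ?_⟩
      rw [h0, zero_div]
    · rw [if_neg h2] at hij
      exact absurd rfl hij

/-- Common adapted basis.
Proof.  `exists_monomial` for `M = g⁻¹ g'`, `U =` the group of all `u ∈ BG c F` with `Le u ξ ξ` and
`Le u⁻¹ ξ ξ`, `V =` the same for `ξ'`.  Pivot: among the `(q, r) ∈ Q × R` with `h q r ≠ 0` choose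
first `r` with `ξ' r` maximal, then `q` with `ξ q` minimal (for this `r`).  (`h i r ≠ 0`, `i ∈ Q`
implies `ξ q ≤ ξ i`; `h q j ≠ 0`, `j ∈ R` implies `ξ' j ≤ ξ' r`; the colours are right as `h` is
block diagonal.)  Then `u M v = m` is monomial with permutation `π`.  Put `h := g u⁻¹`, `η := ξ`,
`η' (π r) := ξ' r`.  `Same h ξ g ξ` is clear; `h⁻¹ g' = u M = m v⁻¹` and `g'⁻¹ h = v m⁻¹`. -/
theorem common_basis (c : α → I) {g g' : (Matrix α α F)ˣ} (hg : g ∈ BG c F) (hg' : g' ∈ BG c F)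
    (ξ ξ' : α → ℝ) :
    ∃ h ∈ BG c F, ∃ η η' : α → ℝ, Same h η g ξ ∧ Same h η' g' ξ' := by
  classical
  obtain ⟨u, hu, v, hv, π, hπ⟩ := exists_monomial (BG c F ⊓ LG F ξ) (BG c F ⊓ LG F ξ') (g⁻¹ * g')
    (by
      intro u hu v hv Q R hQR
      have hmem : u * (g⁻¹ * g') * v ∈ BG c F :=
        mul_mem (mul_mem hu.1 (mul_mem (inv_mem hg) hg')) hv.1
      have hBd : Bd c ((u * (g⁻¹ * g') * v : (Matrix α α F)ˣ) : Matrix α α F) := hmem.1
      generalize ((u * (g⁻¹ * g') * v : (Matrix α α F)ˣ) : Matrix α α F) = h at hBd hQR ⊢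
      obtain ⟨q₀, hq₀, r₀, hr₀, h₀⟩ := hQR
      obtain ⟨r, hr, hrmax⟩ := Finset.exists_max_image (R.filter fun r => ∃ q ∈ Q, h q r ≠ 0) ξ'
        ⟨r₀, Finset.mem_filter.2 ⟨hr₀, q₀, hq₀, h₀⟩⟩
      obtain ⟨hrR, q₁, hq₁, h₁⟩ := Finset.mem_filter.1 hr
      obtain ⟨q, hq, hqmin⟩ := Finset.exists_min_image (Q.filter fun q => h q r ≠ 0) ξ
        ⟨q₁, Finset.mem_filter.2 ⟨hq₁, h₁⟩⟩
      obtain ⟨hqQ, hqr⟩ := Finset.mem_filter.1 hq
      refine ⟨q, hqQ, r, hrR, hqr, ⟨⟨?_, ?_⟩, ?_, ?_⟩, ⟨⟨?_, ?_⟩, ?_, ?_⟩⟩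
      · intro i j hij
        rcases rowEl_ne_zero hij with h1 | ⟨h1, h2, h3⟩
        · rw [h1]
        · rw [h1, hBd i r h3, hBd q r hqr]
      · intro i j hij
        rcases rowElInv_ne_zero hij with h1 | ⟨h1, h2, h3⟩
        · rw [h1]
        · rw [h1, hBd i r h3, hBd q r hqr]
      · intro i j hij
        rcases rowEl_ne_zero hij with h1 | ⟨h1, h2, h3⟩
        · rw [h1]
        · rw [h1]
          exact hqmin i (Finset.mem_filter.2 ⟨h2, h3⟩)
      · intro i j hij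
        rcases rowElInv_ne_zero hij with h1 | ⟨h1, h2, h3⟩
        · rw [h1]
        · rw [h1]
          exact hqmin i (Finset.mem_filter.2 ⟨h2, h3⟩)
      · intro i j hij
        rcases colEl_ne_zero hij with h1 | ⟨h1, h2, h3⟩
        · rw [h1]
        · rw [h1, ← hBd q j h3, hBd q r hqr]
      · intro i j hij
        rcases colElInv_ne_zero hij with h1 | ⟨h1, h2, h3⟩
        · rw [h1]
        · rw [h1, ← hBd q j h3, hBd q r hqr]
      · intro i j hij
        rcases colEl_ne_zero hij with h1 | ⟨h1, h2, h3⟩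
        · rw [h1]
        · rw [h1]
          exact hrmax j (Finset.mem_filter.2 ⟨h2, q, hqQ, h3⟩)
      · intro i j hij
        rcases colElInv_ne_zero hij with h1 | ⟨h1, h2, h3⟩
        · rw [h1]
        · rw [h1]
          exact hrmax j (Finset.mem_filter.2 ⟨h2, q, hqQ, h3⟩))
  set m : (Matrix α α F)ˣ := u * (g⁻¹ * g') * v with hm
  have hm1 : Le (m : Matrix α α F) (fun q => ξ' (π.symm q)) ξ' := by
    intro q r hqr
    have h1 := (hπ q r).1 hqr
    have h2 : π.symm q = r := by rw [h1, Equiv.symm_apply_apply]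
    exact le_of_eq (congrArg ξ' h2.symm)
  have hm2 : Le ((m⁻¹ : (Matrix α α F)ˣ) : Matrix α α F) ξ' (fun q => ξ' (π.symm q)) := by
    intro r q hrq
    have h1 : (((m⁻¹ : (Matrix α α F)ˣ) : Matrix α α F) * (m : Matrix α α F)) r (π.symm q) =
        ((m⁻¹ : (Matrix α α F)ˣ) : Matrix α α F) r q * (m : Matrix α α F) q (π.symm q) := by
      rw [Matrix.mul_apply]
      refine Finset.sum_eq_single q (fun j _ hj => ?_) (fun h => absurd (Finset.mem_univ q) h)
      have h2 : (m : Matrix α α F) j (π.symm q) = 0 := by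
        by_contra h3
        apply hj
        rw [(hπ j (π.symm q)).1 h3, Equiv.apply_symm_apply]
      rw [h2, mul_zero]
    rw [Units.inv_mul] at h1
    have h2 : (m : Matrix α α F) q (π.symm q) ≠ 0 :=
      (hπ q (π.symm q)).2 (Equiv.apply_symm_apply π q).symm
    have h3 : (1 : Matrix α α F) r (π.symm q) ≠ 0 := by
      rw [h1]
      exact mul_ne_zero hrq h2
    have h4 : r = π.symm q := by
      by_contra h5
      exact h3 (Matrix.one_apply_ne h5)
    rw [h4]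
  refine ⟨g * u⁻¹, mul_mem hg (inv_mem hu.1), ξ, fun q => ξ' (π.symm q), ⟨?_, ?_⟩, ⟨?_, ?_⟩⟩
  · have h1 : (g * u⁻¹)⁻¹ * g = u := by group
    rw [h1]
    exact hu.2.1
  · have h1 : g⁻¹ * (g * u⁻¹) = u⁻¹ := by group
    rw [h1]
    exact hu.2.2
  · have h1 : (g * u⁻¹)⁻¹ * g' = m * v⁻¹ := by
      rw [hm]; group
    rw [h1, Units.val_mul]
    exact hm1.mul hv.2.2
  · have h1 : g'⁻¹ * (g * u⁻¹) = v * m⁻¹ := by
      rw [hm]; group
    rw [h1, Units.val_mul]
    exact hv.2.1.mul hm2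

end H69
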