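import Pool.Agent.W_f569db_h69.Setup

/-!
# Elementwise tools for a monoidal functor to vector spaces
-/

set_option linter.unusedSectionVars false

open CategoryTheory MonoidalCategory TensorProduct

universe u v w

namespace H69

variable {K : Type u} [Field K] {C : Type v} [Category.{w} C] [MonoidalCategory C]
  (H : C ⥤ ModuleCat.{u} K) [H.Monoidal]

/-- The external product of two elements. -/
noncomputable def bt {X Y : C} (x : H.obj X) (y : H.obj Y) : (H.obj (X ⊗ Y) : Type u) :=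
  (Functor.LaxMonoidal.μ H X Y).hom (x ⊗ₜ[K] y)

/-- The unit element. -/
noncomputable def one1 : (H.obj (𝟙_ C) : Type u) := (Functor.LaxMonoidal.ε H).hom (1 : K)

/-- The inverse of the unit isomorphism, as a linear form. -/
noncomputable def uF : Module.Dual K (H.obj (𝟙_ C)) := (Functor.OplaxMonoidal.η H).hom

/-- The external product of two linear forms. -/
noncomputable def ft {X Y : C} (φ : Module.Dual K (H.obj X)) (ψ : Module.Dual K (H.obj Y)) :
    Module.Dual K (H.obj (X ⊗ Y)) :=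
  ((TensorProduct.lid K K).toLinearMap ∘ₗ TensorProduct.map φ ψ) ∘ₗ
    (Functor.OplaxMonoidal.δ H X Y).hom

@[simp] theorem uF_one1 : uF H (one1 H) = 1 := by
  have h := Functor.Monoidal.ε_η (F := H)
  exact congrArg (fun f => (f.hom : K →ₗ[K] K) 1) h

theorem eq_smul_one1 (x : H.obj (𝟙_ C)) : x = uF H x • one1 H := by
  have h := Functor.Monoidal.η_ε (F := H)
  have h3 : (Functor.LaxMonoidal.ε H).hom ((Functor.OplaxMonoidal.η H).hom x) = x :=
    congrArg (fun f => f.hom x) h
  have h4 : (Functor.LaxMonoidal.ε H).hom ((uF H x) • (1 : K)) = uF H x • one1 H := by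
    rw [map_smul]; rfl
  rw [← h4]
  have h5 : (uF H x) • (1 : K) = (Functor.OplaxMonoidal.η H).hom x := by
    rw [smul_eq_mul, mul_one]; rfl
  rw [h5, h3]

theorem δ_bt {X Y : C} (x : H.obj X) (y : H.obj Y) :
    (Functor.OplaxMonoidal.δ H X Y).hom (bt H x y) = x ⊗ₜ[K] y := by
  have h := Functor.Monoidal.μ_δ (F := H) X Y
  exact congrArg (fun f => f.hom (x ⊗ₜ[K] y)) h

@[simp] theorem ft_bt {X Y : C} (φ : Module.Dual K (H.obj X)) (ψ : Module.Dual K (H.obj Y))
    (x : H.obj X) (y : H.obj Y) : ft H φ ψ (bt H x y) = φ x * ψ y := by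
  rw [ft, LinearMap.comp_apply, δ_bt]
  simp

theorem bt_ext {X Y : C} {M : Type*} [AddCommGroup M] [Module K M]
    {f g : H.obj (X ⊗ Y) →ₗ[K] M} (h : ∀ x y, f (bt H x y) = g (bt H x y)) : f = g := by
  have key : f ∘ₗ (Functor.LaxMonoidal.μ H X Y).hom = g ∘ₗ (Functor.LaxMonoidal.μ H X Y).hom := by
    apply TensorProduct.ext'
    intro x y
    exact h x y
  ext v
  have h1 := Functor.Monoidal.δ_μ (F := H) X Y
  have h2 : (Functor.LaxMonoidal.μ H X Y).hom ((Functor.OplaxMonoidal.δ H X Y).hom v) = v :=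
    congrArg (fun f => f.hom v) h1
  have h3 := LinearMap.congr_fun key ((Functor.OplaxMonoidal.δ H X Y).hom v)
  simp only [LinearMap.comp_apply] at h3
  rwa [h2] at h3

theorem bt_add_left {X Y : C} (x x' : H.obj X) (y : H.obj Y) :
    bt H (x + x') y = bt H x y + bt H x' y := by
  simp [bt, TensorProduct.add_tmul]

theorem bt_add_right {X Y : C} (x : H.obj X) (y y' : H.obj Y) :
    bt H x (y + y') = bt H x y + bt H x y' := by
  simp [bt, TensorProduct.tmul_add]

theorem bt_smul_left {X Y : C} (r : K) (x : H.obj X) (y : H.obj Y) :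
    bt H (r • x) y = r • bt H x y := by
  rw [bt, bt, ← TensorProduct.smul_tmul', map_smul]

theorem bt_smul_right {X Y : C} (r : K) (x : H.obj X) (y : H.obj Y) :
    bt H x (r • y) = r • bt H x y := by
  rw [bt, bt, TensorProduct.tmul_smul, map_smul]

theorem map_tensor_bt {X Y X' Y' : C} (f : X ⟶ X') (g : Y ⟶ Y') (x : H.obj X) (y : H.obj Y) :
    (H.map (f ⊗ₘ g)).hom (bt H x y) = bt H ((H.map f).hom x) ((H.map g).hom y) := by
  have h := Functor.LaxMonoidal.μ_natural (F := H) f g
  have h2 := congrArg (fun t => t.hom (x ⊗ₜ[K] y)) h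
  simp only [ModuleCat.hom_comp, LinearMap.comp_apply] at h2
  rw [bt, ← h2]
  rfl

theorem map_whiskerRight_bt {X Y X' : C} (f : X ⟶ X') (x : H.obj X) (y : H.obj Y) :
    (H.map (f ▷ Y)).hom (bt H x y) = bt H ((H.map f).hom x) y := by
  rw [← tensorHom_id, map_tensor_bt]
  simp

theorem map_whiskerLeft_bt {X Y Y' : C} (g : Y ⟶ Y') (x : H.obj X) (y : H.obj Y) :
    (H.map (X ◁ g)).hom (bt H x y) = bt H x ((H.map g).hom y) := by
  rw [← id_tensorHom, map_tensor_bt]
  simp

theorem map_assoc_bt {X Y Z : C} (x : H.obj X) (y : H.obj Y) (z : H.obj Z) :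
    (H.map (α_ X Y Z).hom).hom (bt H (bt H x y) z) = bt H x (bt H y z) := by
  have h := Functor.LaxMonoidal.associativity (F := H) X Y Z
  have h2 := congrArg (fun t => t.hom ((x ⊗ₜ[K] y) ⊗ₜ[K] z)) h
  simp only [ModuleCat.hom_comp, LinearMap.comp_apply] at h2
  exact h2

theorem map_assoc_inv_bt {X Y Z : C} (x : H.obj X) (y : H.obj Y) (z : H.obj Z) :
    (H.map (α_ X Y Z).inv).hom (bt H x (bt H y z)) = bt H (bt H x y) z := by
  rw [← map_assoc_bt, ← LinearMap.comp_apply, ← ModuleCat.hom_comp, ← H.map_comp]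
  simp

theorem map_leftUnitor_bt {X : C} (x : H.obj X) :
    (H.map (λ_ X).hom).hom (bt H (one1 H) x) = x := by
  have h := Functor.LaxMonoidal.left_unitality (F := H) X
  have h2 := congrArg (fun t => t.hom ((1 : K) ⊗ₜ[K] x)) h
  simp only [ModuleCat.hom_comp, LinearMap.comp_apply] at h2
  have h3 : (λ_ (H.obj X)).hom.hom ((1 : K) ⊗ₜ[K] x) = x := by
    have := ModuleCat.MonoidalCategory.leftUnitor_hom_apply (M := H.obj X) (1 : K) x
    rw [one_smul] at this
    exact this
  rw [h3] at h2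
  exact h2.symm

theorem map_leftUnitor_inv {X : C} (x : H.obj X) :
    (H.map (λ_ X).inv).hom x = bt H (one1 H) x := by
  conv_lhs => rw [← map_leftUnitor_bt H x]
  rw [← LinearMap.comp_apply, ← ModuleCat.hom_comp, ← H.map_comp]
  simp

theorem map_rightUnitor_bt {X : C} (x : H.obj X) :
    (H.map (ρ_ X).hom).hom (bt H x (one1 H)) = x := by
  have h := Functor.LaxMonoidal.right_unitality (F := H) X
  have h2 := congrArg (fun t => t.hom (x ⊗ₜ[K] (1 : K))) h
  simp only [ModuleCat.hom_comp, LinearMap.comp_apply] at h2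
  have h3 : (ρ_ (H.obj X)).hom.hom (x ⊗ₜ[K] (1 : K)) = x := by
    have := ModuleCat.MonoidalCategory.rightUnitor_hom_apply (M := H.obj X) x (1 : K)
    rw [one_smul] at this
    exact this
  rw [h3] at h2
  exact h2.symm

theorem map_rightUnitor_inv {X : C} (x : H.obj X) :
    (H.map (ρ_ X).inv).hom x = bt H x (one1 H) := by
  conv_lhs => rw [← map_rightUnitor_bt H x]
  rw [← LinearMap.comp_apply, ← ModuleCat.hom_comp, ← H.map_comp]
  simp

theorem map_comp_apply {X Y Z : C} (f : X ⟶ Y) (g : Y ⟶ Z) (x : H.obj X) :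
    (H.map (f ≫ g)).hom x = (H.map g).hom ((H.map f).hom x) := by
  rw [H.map_comp, ModuleCat.hom_comp, LinearMap.comp_apply]

theorem bt_ne_zero {X Y : C} {x : H.obj X} {y : H.obj Y} (hx : x ≠ 0) (hy : y ≠ 0) :
    bt H x y ≠ 0 := by
  intro h
  have h1 : ∃ φ : Module.Dual K (H.obj X), φ x ≠ 0 := by
    by_contra hc
    push Not at hc
    exact hx ((Module.forall_dual_apply_eq_zero_iff K x).1 hc)
  have h2 : ∃ ψ : Module.Dual K (H.obj Y), ψ y ≠ 0 := by
    by_contra hc
    push Not at hc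
    exact hy ((Module.forall_dual_apply_eq_zero_iff K y).1 hc)
  obtain ⟨φ, hφ⟩ := h1
  obtain ⟨ψ, hψ⟩ := h2
  have h3 := congrArg (ft H φ ψ) h
  rw [ft_bt, map_zero] at h3
  exact mul_ne_zero hφ hψ h3

/-- The rule of signs in terms of elements. -/
theorem signRule_iff [SymmetricCategory C] {X Y : C} : SignRule H X Y ↔
    ∃ s : ℤˣ, ∀ x y, (H.map (β_ X Y).hom).hom (bt H x y) = (s : ℤ) • bt H y x := by
  constructor
  · rintro ⟨s, hs⟩
    refine ⟨s, fun x y => ?_⟩
    exact congrArg (fun t => t.hom (x ⊗ₜ[K] y)) hs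
  · rintro ⟨s, hs⟩
    refine ⟨s, ?_⟩
    ext t
    induction t using TensorProduct.induction_on with
    | zero => simp
    | add a b ha hb => rw [map_add, map_add, ha, hb]
    | tmul x y => exact hs x y

end H69
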