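import Pool.Agent.W_f569db_h69.Cat0

/-!
# Tensor products along lists, and linear forms on them
-/

set_option autoImplicit false
set_option linter.unusedSectionVars false

open CategoryTheory MonoidalCategory

universe u v w t

namespace H69

variable {K : Type u} [Field K] {C : Type v} [Category.{w} C] [MonoidalCategory C]

/-- `X_a ⊗ (X_b ⊗ ( ... ⊗ 𝟙))` for a list `a, b, ...` of labels. -/
def NL {Λ : Type t} (X : Λ → C) : List Λ → C
  | [] => 𝟙_ C
  | a :: l => X a ⊗ NL X l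

/-- The external product of the linear forms `ψ a`, `a` in the list. -/
noncomputable def fL (H : C ⥤ ModuleCat.{u} K) [H.Monoidal] {Λ : Type t} (X : Λ → C)
    (ψ : ∀ a, Module.Dual K (H.obj (X a))) : (l : List Λ) → Module.Dual K (H.obj (NL X l))
  | [] => uF H
  | a :: l => ft H (ψ a) (fL H X ψ l)

/-- The canonical isomorphism for the concatenation of two lists. -/
def appI {Λ : Type t} (X : Λ → C) : (l l' : List Λ) → (NL X l ⊗ NL X l' ≅ NL X (l ++ l'))
  | [], l' => λ_ (NL X l')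
  | a :: l, l' => α_ (X a) (NL X l) (NL X l') ≪≫ whiskerLeftIso (X a) (appI X l l')

/-- Relabelling. -/
def mapI {Λ Λ' : Type*} (X : Λ → C) (j : Λ' → Λ) :
    (l : List Λ') → (NL (fun b => X (j b)) l ≅ NL X (l.map j))
  | [] => Iso.refl _
  | b :: l => whiskerLeftIso (X (j b)) (mapI X j l)

/-- The list `μ q, ν q, μ q', ν q', ...` for a list `q, q', ...`. -/
def pairL {Q Λ : Type*} (μ ν : Q → Λ) : List Q → List Λ
  | [] => []
  | q :: L => μ q :: ν q :: pairL μ ν L

/-- Regrouping in pairs. -/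
def pairI {Q Λ : Type*} (X : Λ → C) (μ ν : Q → Λ) :
    (L : List Q) → (NL X (pairL μ ν L) ≅ NL (fun q => X (μ q) ⊗ X (ν q)) L)
  | [] => Iso.refl _
  | q :: L => (α_ (X (μ q)) (X (ν q)) (NL X (pairL μ ν L))).symm ≪≫
      whiskerLeftIso (X (μ q) ⊗ X (ν q)) (pairI X μ ν L)

/-- Contraction of all factors, given `e a : X a ⟶ 𝟙`. -/
def ctr {Λ : Type t} (X : Λ → C) (e : ∀ a, X a ⟶ 𝟙_ C) : (l : List Λ) → (NL X l ⟶ 𝟙_ C)
  | [] => 𝟙 _
  | a :: l => (e a ⊗ₘ ctr X e l) ≫ (λ_ (𝟙_ C)).hom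

/-- The labels of copies of the list `l`, one copy for each element of a list. -/
def copies {D Λ : Type*} (l : List Λ) : List D → List (D × Λ)
  | [] => []
  | k :: L => l.map (fun a => (k, a)) ++ copies l L

/-- The tensor power of a morphism `z : 𝟙 ⟶ NL X l`, one factor for each element of the list. -/
def pw {D Λ : Type*} (X : Λ → C) (l : List Λ) (z : 𝟙_ C ⟶ NL X l) :
    (L : List D) → (𝟙_ C ⟶ NL (fun p : D × Λ => X p.2) (copies l L))
  | [] => 𝟙 _
  | k :: L => (λ_ (𝟙_ C)).inv ≫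
      ((z ≫ (mapI (fun p : D × Λ => X p.2) (fun a => (k, a)) l).hom) ⊗ₘ pw X l z L) ≫
      (appI (fun p : D × Λ => X p.2) (l.map (fun a => (k, a))) (copies l L)).hom

end H69
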