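import Pool.Agent.W_f569db_h69.Cat1

/-!
# Concatenation, relabelling, pairs, contraction, powers
-/

set_option autoImplicit false
set_option linter.unusedSectionVars false

open CategoryTheory MonoidalCategory

universe u v w t

namespace H69

variable {K : Type u} [Field K] {C : Type v} [Category.{w} C] [MonoidalCategory C]
  (H : C ⥤ ModuleCat.{u} K) [H.Monoidal]

/-- `bt` with a fixed second argument -/
noncomputable def catOneBtL {X Y : C} (y : H.obj Y) : H.obj X →ₗ[K] H.obj (X ⊗ Y) where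
  toFun x := bt H x y
  map_add' x x' := bt_add_left H x x' y
  map_smul' r x := bt_smul_left H r x y

/-- `bt` with a fixed first argument -/
noncomputable def catOneBtR {X Y : C} (x : H.obj X) : H.obj Y →ₗ[K] H.obj (X ⊗ Y) where
  toFun y := bt H x y
  map_add' y y' := bt_add_right H x y y'
  map_smul' r y := bt_smul_right H r x y

theorem catOne_ext_right {X Y Z : C} {M : Type*} [AddCommGroup M] [Module K M]
    {f g : H.obj (X ⊗ (Y ⊗ Z)) →ₗ[K] M}
    (h : ∀ x y z, f (bt H x (bt H y z)) = g (bt H x (bt H y z))) : f = g := by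
  refine bt_ext H fun x w => ?_
  have h1 : f ∘ₗ catOneBtR H x = g ∘ₗ catOneBtR H x := bt_ext H fun y z => h x y z
  exact LinearMap.congr_fun h1 w

/-- By induction on `l` (`bt_ext`, `map_assoc_bt`, `map_leftUnitor_bt`, `eq_smul_one1`). -/
theorem fL_append {Λ : Type t} (X : Λ → C) (ψ : ∀ a, Module.Dual K (H.obj (X a)))
    (l l' : List Λ) (v : H.obj (NL X l)) (v' : H.obj (NL X l')) :
    fL H X ψ (l ++ l') ((H.map (appI X l l').hom).hom (bt H v v')) =
      fL H X ψ l v * fL H X ψ l' v' := by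
  induction l with
  | nil =>
    change fL H X ψ l' ((H.map (λ_ (NL X l')).hom).hom (bt H (X := 𝟙_ C) v v')) =
      uF H v * fL H X ψ l' v'
    have hv : v = uF H v • one1 H := eq_smul_one1 H v
    conv_lhs => rw [hv]
    rw [bt_smul_left, map_smul, map_leftUnitor_bt, map_smul, smul_eq_mul]
  | cons a l ih =>
    have key : fL H X ψ (a :: l ++ l') ∘ₗ (H.map (appI X (a :: l) l').hom).hom ∘ₗ
        catOneBtL H v' = (fL H X ψ l' v') • ft H (ψ a) (fL H X ψ l) := by
      refine bt_ext H fun x y => ?_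
      change ft H (ψ a) (fL H X ψ (l ++ l'))
        ((H.map ((α_ (X a) (NL X l) (NL X l')).hom ≫ X a ◁ (appI X l l').hom)).hom
          (bt H (bt H x y) v')) = fL H X ψ l' v' • ft H (ψ a) (fL H X ψ l) (bt H x y)
      rw [map_comp_apply, map_assoc_bt, map_whiskerLeft_bt, ft_bt, ft_bt, ih, smul_eq_mul]
      ring
    have h1 := LinearMap.congr_fun key v
    change fL H X ψ (a :: l ++ l') ((H.map (appI X (a :: l) l').hom).hom (bt H v v')) =
      fL H X ψ l' v' • ft H (ψ a) (fL H X ψ l) v at h1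
    rw [h1, smul_eq_mul, mul_comm]
    rfl

theorem fL_map {Λ Λ' : Type*} (X : Λ → C) (j : Λ' → Λ) (ψ : ∀ a, Module.Dual K (H.obj (X a)))
    (l : List Λ') (v : H.obj (NL (fun b => X (j b)) l)) :
    fL H X ψ (l.map j) ((H.map (mapI X j l).hom).hom v) =
      fL H (fun b => X (j b)) (fun b => ψ (j b)) l v := by
  induction l with
  | nil =>
    change uF H ((H.map (𝟙 (𝟙_ C))).hom v) = uF H v
    rw [H.map_id]
    rfl
  | cons b l ih =>
    have key : ft H (ψ (j b)) (fL H X ψ (l.map j)) ∘ₗ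
        (H.map (X (j b) ◁ (mapI X j l).hom)).hom =
        ft H (ψ (j b)) (fL H (fun b => X (j b)) (fun b => ψ (j b)) l) := by
      refine bt_ext H fun x y => ?_
      rw [LinearMap.comp_apply, map_whiskerLeft_bt, ft_bt, ft_bt, ih]
    exact LinearMap.congr_fun key v

theorem fL_pair {Q Λ : Type*} (X : Λ → C) (μ ν : Q → Λ)
    (ψ : ∀ a, Module.Dual K (H.obj (X a))) (L : List Q) (v : H.obj (NL X (pairL μ ν L))) :
    fL H (fun q => X (μ q) ⊗ X (ν q)) (fun q => ft H (ψ (μ q)) (ψ (ν q))) L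
        ((H.map (pairI X μ ν L).hom).hom v) =
      fL H X ψ (pairL μ ν L) v := by
  induction L with
  | nil =>
    change uF H ((H.map (𝟙 (𝟙_ C))).hom v) = uF H v
    rw [H.map_id]
    rfl
  | cons q L ih =>
    have key : ft H (ft H (ψ (μ q)) (ψ (ν q)))
        (fL H (fun q => X (μ q) ⊗ X (ν q)) (fun q => ft H (ψ (μ q)) (ψ (ν q))) L) ∘ₗ
        (H.map ((α_ (X (μ q)) (X (ν q)) (NL X (pairL μ ν L))).inv ≫
          (X (μ q) ⊗ X (ν q)) ◁ (pairI X μ ν L).hom)).hom =
        ft H (ψ (μ q)) (ft H (ψ (ν q)) (fL H X ψ (pairL μ ν L))) := by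
      refine catOne_ext_right H fun x y z => ?_
      rw [LinearMap.comp_apply, map_comp_apply, map_assoc_inv_bt, map_whiskerLeft_bt, ft_bt,
        ft_bt, ft_bt, ft_bt, ih, mul_assoc]
    exact LinearMap.congr_fun key v

theorem uF_ctr {Λ : Type t} (X : Λ → C) (e : ∀ a, X a ⟶ 𝟙_ C) (l : List Λ)
    (v : H.obj (NL X l)) :
    uF H ((H.map (ctr X e l)).hom v) =
      fL H X (fun a => uF H ∘ₗ (H.map (e a)).hom) l v := by
  induction l with
  | nil =>
    change uF H ((H.map (𝟙 (𝟙_ C))).hom v) = uF H v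
    rw [H.map_id]
    rfl
  | cons a l ih =>
    have key : uF H ∘ₗ (H.map ((e a ⊗ₘ ctr X e l) ≫ (λ_ (𝟙_ C)).hom)).hom =
        ft H (uF H ∘ₗ (H.map (e a)).hom) (fL H X (fun a => uF H ∘ₗ (H.map (e a)).hom) l) := by
      refine bt_ext H fun x y => ?_
      rw [LinearMap.comp_apply, map_comp_apply, map_tensor_bt, ft_bt, ← ih,
        LinearMap.comp_apply]
      conv_lhs => rw [eq_smul_one1 H ((H.map (e a)).hom x)]
      rw [bt_smul_left, map_smul, map_leftUnitor_bt, map_smul, smul_eq_mul]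
    exact LinearMap.congr_fun key v

theorem fL_pw {D Λ : Type*} (X : Λ → C) (l : List Λ) (z : 𝟙_ C ⟶ NL X l) (L : List D)
    (ψ : ∀ p : D × Λ, Module.Dual K (H.obj (X p.2))) :
    fL H (fun p : D × Λ => X p.2) ψ (copies l L) ((H.map (pw X l z L)).hom (one1 H)) =
      (L.map fun k => fL H X (fun a => ψ (k, a)) l ((H.map z).hom (one1 H))).prod := by
  induction L with
  | nil =>
    change uF H ((H.map (𝟙 (𝟙_ C))).hom (one1 H)) = 1
    rw [H.map_id]
    exact uF_one1 H
  | cons k L ih =>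
    change fL H (fun p : D × Λ => X p.2) ψ (l.map (fun a => (k, a)) ++ copies l L)
      ((H.map ((λ_ (𝟙_ C)).inv ≫
        ((z ≫ (mapI (fun p : D × Λ => X p.2) (fun a => (k, a)) l).hom) ⊗ₘ pw X l z L) ≫
        (appI (fun p : D × Λ => X p.2) (l.map (fun a => (k, a))) (copies l L)).hom)).hom
          (one1 H)) = _
    rw [map_comp_apply, map_comp_apply, map_leftUnitor_inv, map_tensor_bt, fL_append, ih,
      List.map_cons, List.prod_cons, map_comp_apply]
    congr 1
    exact fL_map H (fun p : D × Λ => X p.2) (fun a => (k, a)) ψ l _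

end H69
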