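import Pool.Agent.W_f569db_h69.Cat1

/-!
# Multilinear expansion of linear forms
-/

set_option autoImplicit false
set_option linter.unusedSectionVars false

open CategoryTheory MonoidalCategory

universe u v w t

namespace H69

variable {K : Type u} [Field K] {C : Type v} [Category.{w} C] [MonoidalCategory C]
  (H : C ⥤ ModuleCat.{u} K) [H.Monoidal]

theorem Cat1e_ft_add_left {X Y : C} (φ φ' : Module.Dual K (H.obj X))
    (ψ : Module.Dual K (H.obj Y)) : ft H (φ + φ') ψ = ft H φ ψ + ft H φ' ψ := by
  refine bt_ext H fun x y => ?_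
  rw [LinearMap.add_apply, ft_bt, ft_bt, ft_bt, LinearMap.add_apply, add_mul]

theorem Cat1e_ft_add_right {X Y : C} (φ : Module.Dual K (H.obj X))
    (ψ ψ' : Module.Dual K (H.obj Y)) : ft H φ (ψ + ψ') = ft H φ ψ + ft H φ ψ' := by
  refine bt_ext H fun x y => ?_
  rw [LinearMap.add_apply, ft_bt, ft_bt, ft_bt, LinearMap.add_apply, mul_add]

theorem Cat1e_ft_smul_left {X Y : C} (c : K) (φ : Module.Dual K (H.obj X))
    (ψ : Module.Dual K (H.obj Y)) : ft H (c • φ) ψ = c • ft H φ ψ := by
  refine bt_ext H fun x y => ?_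
  rw [LinearMap.smul_apply, ft_bt, ft_bt, LinearMap.smul_apply, smul_eq_mul, smul_eq_mul,
    mul_assoc]

theorem Cat1e_ft_smul_right {X Y : C} (c : K) (φ : Module.Dual K (H.obj X))
    (ψ : Module.Dual K (H.obj Y)) : ft H φ (c • ψ) = c • ft H φ ψ := by
  refine bt_ext H fun x y => ?_
  rw [LinearMap.smul_apply, ft_bt, ft_bt, LinearMap.smul_apply, smul_eq_mul, smul_eq_mul,
    mul_left_comm]

theorem Cat1e_ft_zero_left {X Y : C} (ψ : Module.Dual K (H.obj Y)) :
    ft H (0 : Module.Dual K (H.obj X)) ψ = 0 := by
  refine bt_ext H fun x y => ?_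
  rw [ft_bt, LinearMap.zero_apply, LinearMap.zero_apply, zero_mul]

theorem Cat1e_ft_zero_right {X Y : C} (φ : Module.Dual K (H.obj X)) :
    ft H φ (0 : Module.Dual K (H.obj Y)) = 0 := by
  refine bt_ext H fun x y => ?_
  rw [ft_bt, LinearMap.zero_apply, LinearMap.zero_apply, mul_zero]

/-- If one of the linear forms is zero then so is the product. -/
theorem fL_eq_zero {Λ : Type t} (X : Λ → C) (ψ : ∀ a, Module.Dual K (H.obj (X a))) (l : List Λ)
    (a : Λ) (ha : a ∈ l) (h0 : ψ a = 0) : fL H X ψ l = 0 := by
  induction l with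
  | nil => exact absurd ha List.not_mem_nil
  | cons b l ih =>
    show ft H (ψ b) (fL H X ψ l) = 0
    rcases List.mem_cons.1 ha with rfl | h
    · rw [h0]
      exact Cat1e_ft_zero_left H _
    · rw [ih h]
      exact Cat1e_ft_zero_right H _

theorem Cat1e_congr {Λ : Type t} (X : Λ → C) (ψ ψ' : ∀ a, Module.Dual K (H.obj (X a)))
    (l : List Λ) (h : ∀ a ∈ l, ψ a = ψ' a) : fL H X ψ l = fL H X ψ' l := by
  induction l with
  | nil => rfl
  | cons b l ih =>
    show ft H (ψ b) (fL H X ψ l) = ft H (ψ' b) (fL H X ψ' l)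
    rw [h b List.mem_cons_self, ih fun a ha => h a (List.mem_cons_of_mem _ ha)]

theorem Cat1e_update_add {Λ : Type t} [DecidableEq Λ] (X : Λ → C)
    (ψ : ∀ a, Module.Dual K (H.obj (X a))) (a : Λ) (x y : Module.Dual K (H.obj (X a)))
    (l : List Λ) (hl : l.Nodup) (ha : a ∈ l) :
    fL H X (Function.update ψ a (x + y)) l =
      fL H X (Function.update ψ a x) l + fL H X (Function.update ψ a y) l := by
  induction l with
  | nil => exact absurd ha List.not_mem_nil
  | cons b l ih =>
    rw [List.nodup_cons] at hl
    show ft H (Function.update ψ a (x + y) b) (fL H X (Function.update ψ a (x + y)) l) =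
      ft H (Function.update ψ a x b) (fL H X (Function.update ψ a x) l) +
        ft H (Function.update ψ a y b) (fL H X (Function.update ψ a y) l)
    rcases List.mem_cons.1 ha with rfl | h
    · have hne : ∀ c ∈ l, c ≠ a := fun c hc h => hl.1 (h ▸ hc)
      have e : ∀ z : Module.Dual K (H.obj (X a)),
          fL H X (Function.update ψ a z) l = fL H X ψ l := fun z =>
        Cat1e_congr H X _ _ l fun c hc => Function.update_of_ne (hne c hc) _ _
      rw [e, e, e, Function.update_self, Function.update_self, Function.update_self,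
        Cat1e_ft_add_left]
    · have hne : b ≠ a := fun h' => hl.1 (h' ▸ h)
      rw [Function.update_of_ne hne, Function.update_of_ne hne, Function.update_of_ne hne,
        ih hl.2 h, Cat1e_ft_add_right]

theorem Cat1e_update_smul {Λ : Type t} [DecidableEq Λ] (X : Λ → C)
    (ψ : ∀ a, Module.Dual K (H.obj (X a))) (a : Λ) (c : K) (x : Module.Dual K (H.obj (X a)))
    (l : List Λ) (hl : l.Nodup) (ha : a ∈ l) :
    fL H X (Function.update ψ a (c • x)) l = c • fL H X (Function.update ψ a x) l := by
  induction l with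
  | nil => exact absurd ha List.not_mem_nil
  | cons b l ih =>
    rw [List.nodup_cons] at hl
    show ft H (Function.update ψ a (c • x) b) (fL H X (Function.update ψ a (c • x)) l) =
      c • ft H (Function.update ψ a x b) (fL H X (Function.update ψ a x) l)
    rcases List.mem_cons.1 ha with rfl | h
    · have hne : ∀ c ∈ l, c ≠ a := fun c hc h => hl.1 (h ▸ hc)
      have e : ∀ z : Module.Dual K (H.obj (X a)),
          fL H X (Function.update ψ a z) l = fL H X ψ l := fun z =>
        Cat1e_congr H X _ _ l fun c hc => Function.update_of_ne (hne c hc) _ _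
      rw [e, e, Function.update_self, Function.update_self, Cat1e_ft_smul_left]
    · have hne : b ≠ a := fun h' => hl.1 (h' ▸ h)
      rw [Function.update_of_ne hne, Function.update_of_ne hne, ih hl.2 h, Cat1e_ft_smul_right]

/-- The product of linear forms along a list without repetitions, as a multilinear map. -/
noncomputable def Cat1e_mult {Λ : Type t} (X : Λ → C) (l : List Λ) (hl : l.Nodup)
    (hl' : ∀ a, a ∈ l) :
    MultilinearMap K (fun a => Module.Dual K (H.obj (X a))) (Module.Dual K (H.obj (NL X l))) where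
  toFun ψ := fL H X ψ l
  map_update_add' ψ a x y := by
    exact Cat1e_update_add H X ψ a x y l hl (hl' a)
  map_update_smul' ψ a c x := by
    exact Cat1e_update_smul H X ψ a c x l hl (hl' a)

/-- Multilinear expansion.
Proof.  For a list `l` without repetitions which contains all labels, `ψ ↦ fL H X ψ l` is a
`MultilinearMap` in the family `ψ` (for a list `l` without repetitions `fL H X ψ l` does not change if
`ψ` is changed at a label not in `l`, and is additive and homogeneous in `ψ a` for `a ∈ l`).
Use `MultilinearMap.map_sum` and `MultilinearMap.map_smul_univ`. -/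
theorem fL_expand {Λ : Type t} [Fintype Λ] [DecidableEq Λ] {β : Type*} [Fintype β]
    [DecidableEq β] (X : Λ → C) (g : Λ → β → K) (φ : ∀ a, β → Module.Dual K (H.obj (X a)))
    (l : List Λ) (hl : l.Nodup) (hl' : ∀ a, a ∈ l) :
    fL H X (fun a => ∑ b, g a b • φ a b) l =
      ∑ b : Λ → β, (∏ a, g a (b a)) • fL H X (fun a => φ a (b a)) l := by
  have h1 := (Cat1e_mult H X l hl hl').map_sum (fun (a : Λ) (b : β) => g a b • φ a b)
  have h2 : (Cat1e_mult H X l hl hl') (fun a => ∑ b, g a b • φ a b) =
      fL H X (fun a => ∑ b, g a b • φ a b) l := rfl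
  rw [← h2, h1]
  refine Finset.sum_congr rfl fun b _ => ?_
  exact (Cat1e_mult H X l hl hl').map_smul_univ (fun a => g a (b a)) (fun a => φ a (b a))

end H69
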