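import Pool.Agent.W_f569db_h69.Cat1

/-!
# Permutations of the factors
-/

set_option autoImplicit false
set_option linter.unusedSectionVars false

open CategoryTheory MonoidalCategory

universe u v w t

namespace H69

variable {K : Type u} [Field K] {C : Type v} [Category.{w} C] [MonoidalCategory C]
  (H : C ⥤ ModuleCat.{u} K) [H.Monoidal]

/-- `bt` as a linear map in the second argument -/
noncomputable def Cat1p_bt {X : C} (Y : C) (x : H.obj X) :
    (H.obj Y : Type u) →ₗ[K] (H.obj (X ⊗ Y) : Type u) where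
  toFun y := bt H x y
  map_add' := bt_add_right H x
  map_smul' r y := bt_smul_right H r x y

theorem Cat1p_bt_apply {X Y : C} (x : H.obj X) (y : H.obj Y) : Cat1p_bt H Y x y = bt H x y := rfl

theorem Cat1p_ext3 {X Y Z : C} {M : Type*} [AddCommGroup M] [Module K M]
    {f g : H.obj (X ⊗ (Y ⊗ Z)) →ₗ[K] M}
    (h : ∀ x y z, f (bt H x (bt H y z)) = g (bt H x (bt H y z))) : f = g := by
  apply bt_ext H
  intro x w
  have h1 : f ∘ₗ Cat1p_bt H (Y ⊗ Z) x = g ∘ₗ Cat1p_bt H (Y ⊗ Z) x := by
    apply bt_ext H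
    intro y z
    exact h x y z
  exact LinearMap.congr_fun h1 w

/-- The permutation of the factors of a tensor product.
By induction on the permutation `l ~ l'` (`List.Perm`): identity; `X a ◁ f`; the braiding of the
first two factors (here the sign comes in); composition. -/
theorem fL_perm [SymmetricCategory C] {Λ : Type t} (X : Λ → C)
    (hs : ∀ a b, SignRule H (X a) (X b)) {l l' : List Λ} (h : l.Perm l') :
    ∃ (f : NL X l ≅ NL X l') (s : ℤˣ), ∀ (ψ : ∀ a, Module.Dual K (H.obj (X a)))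
      (v : H.obj (NL X l)), fL H X ψ l' ((H.map f.hom).hom v) = (s : ℤ) • fL H X ψ l v := by
  induction h with
  | nil =>
    refine ⟨Iso.refl _, 1, fun ψ v => ?_⟩
    rw [Iso.refl_hom, H.map_id, ModuleCat.hom_id, LinearMap.id_apply, Units.val_one, one_smul]
  | @cons a l l' _ ih =>
    obtain ⟨f, s, hf⟩ := ih
    refine ⟨whiskerLeftIso (X a) f, s, fun ψ v => ?_⟩
    have h1 : (ft H (ψ a) (fL H X ψ l')) ∘ₗ (H.map (X a ◁ f.hom)).hom
        = (s : ℤ) • ft H (ψ a) (fL H X ψ l) := by
      apply bt_ext H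
      intro x y
      rw [LinearMap.comp_apply, map_whiskerLeft_bt H f.hom x y, LinearMap.smul_apply, ft_bt, ft_bt,
        hf, mul_smul_comm]
    exact LinearMap.congr_fun h1 v
  | @swap b a l =>
    obtain ⟨s, hs'⟩ := (signRule_iff H).1 (hs a b)
    refine ⟨(α_ (X a) (X b) (NL X l)).symm ≪≫ whiskerRightIso (β_ (X a) (X b)) (NL X l) ≪≫
      α_ (X b) (X a) (NL X l), s, fun ψ v => ?_⟩
    have h1 : (ft H (ψ b) (ft H (ψ a) (fL H X ψ l))) ∘ₗ
        (H.map ((α_ (X a) (X b) (NL X l)).inv ≫ (β_ (X a) (X b)).hom ▷ (NL X l) ≫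
          (α_ (X b) (X a) (NL X l)).hom)).hom
        = (s : ℤ) • ft H (ψ a) (ft H (ψ b) (fL H X ψ l)) := by
      apply Cat1p_ext3 H
      intro x y z
      rw [LinearMap.comp_apply, map_comp_apply, map_comp_apply, map_assoc_inv_bt,
        map_whiskerRight_bt, hs' x y]
      have h2 : bt H ((s : ℤ) • bt H y x) z = (s : ℤ) • bt H (bt H y x) z := by
        rw [← Int.cast_smul_eq_zsmul K, ← Int.cast_smul_eq_zsmul K, bt_smul_left]
      rw [h2, map_zsmul, map_assoc_bt, map_zsmul, LinearMap.smul_apply, ft_bt, ft_bt, ft_bt, ft_bt]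
      congr 1
      ring
    exact LinearMap.congr_fun h1 v
  | trans _ _ ih1 ih2 =>
    obtain ⟨f, s, hf⟩ := ih1
    obtain ⟨f', s', hf'⟩ := ih2
    refine ⟨f ≪≫ f', s' * s, fun ψ v => ?_⟩
    rw [Iso.trans_hom, map_comp_apply, hf', hf, Units.val_mul, mul_smul]

end H69
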