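import Pool.Agent.W_f569db_h69.Cat1

/-!
# Monoidal automorphisms and separation of points
-/

set_option autoImplicit false
set_option linter.unusedSectionVars false

open CategoryTheory MonoidalCategory

universe u v w t

namespace H69

variable {K : Type u} [Field K] {C : Type v} [Category.{w} C] [MonoidalCategory C]
  (H : C ⥤ ModuleCat.{u} K) [H.Monoidal]

theorem Cat1s_one {θ : H ⟶ H} (hθ : NatTrans.IsMonoidal θ) :
    (θ.app (𝟙_ C)).hom (one1 H) = one1 H := by
  have h := hθ.unit
  exact congrArg (fun t => t.hom (1 : K)) h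

theorem Cat1s_bt {θ : H ⟶ H} (hθ : NatTrans.IsMonoidal θ) {X Y : C} (x : H.obj X) (y : H.obj Y) :
    (θ.app (X ⊗ Y)).hom (bt H x y) = bt H ((θ.app X).hom x) ((θ.app Y).hom y) := by
  have h := hθ.tensor X Y
  exact congrArg (fun t => t.hom (x ⊗ₜ[K] y)) h

/-- The contraction of the first factor with a linear form. -/
noncomputable def Cat1s_c {X Y : C} (φ : Module.Dual K (H.obj X)) :
    H.obj (X ⊗ Y) →ₗ[K] H.obj Y :=
  ((TensorProduct.lid K (H.obj Y)).toLinearMap ∘ₗ TensorProduct.map φ LinearMap.id) ∘ₗ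
    (Functor.OplaxMonoidal.δ H X Y).hom

theorem Cat1s_c_bt {X Y : C} (φ : Module.Dual K (H.obj X)) (x : H.obj X) (y : H.obj Y) :
    Cat1s_c H φ (bt H x y) = φ x • y := by
  rw [Cat1s_c, LinearMap.comp_apply, δ_bt]
  simp

/-- The external product with a fixed element, as a linear map. -/
noncomputable def Cat1s_b {X Y : C} (x : H.obj X) : H.obj Y →ₗ[K] H.obj (X ⊗ Y) :=
  (Functor.LaxMonoidal.μ H X Y).hom ∘ₗ TensorProduct.mk K (H.obj X) (H.obj Y) x

theorem Cat1s_b_apply {X Y : C} (x : H.obj X) (y : H.obj Y) : Cat1s_b H x y = bt H x y := rfl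

theorem Cat1s_ft {X Y : C} (φ : Module.Dual K (H.obj X)) (ψ : Module.Dual K (H.obj Y))
    (v : H.obj (X ⊗ Y)) : ft H φ ψ v = ψ (Cat1s_c H φ v) := by
  have h : ft H φ ψ = ψ ∘ₗ Cat1s_c H φ := by
    refine bt_ext H fun x y => ?_
    rw [ft_bt, LinearMap.comp_apply, Cat1s_c_bt, map_smul, smul_eq_mul]
  rw [h, LinearMap.comp_apply]

theorem Cat1s_sum {X Y : C} {β : Type*} [Fintype β] (φ : β → Module.Dual K (H.obj X))
    (e : β → H.obj X) (he : ∀ x : H.obj X, x = ∑ b, φ b x • e b) (v : H.obj (X ⊗ Y)) :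
    v = ∑ b, bt H (e b) (Cat1s_c H (φ b) v) := by
  have h : (LinearMap.id : H.obj (X ⊗ Y) →ₗ[K] H.obj (X ⊗ Y)) =
      ∑ b, Cat1s_b H (e b) ∘ₗ Cat1s_c H (φ b) := by
    refine bt_ext H fun x y => ?_
    rw [LinearMap.id_apply, LinearMap.sum_apply]
    have h1 : ∀ b, (Cat1s_b H (e b) ∘ₗ Cat1s_c H (φ b)) (bt H x y) =
        Cat1s_b H (φ b x • e b) y := by
      intro b
      rw [LinearMap.comp_apply, Cat1s_c_bt, Cat1s_b_apply, Cat1s_b_apply, bt_smul_right,
        bt_smul_left]
    rw [Finset.sum_congr rfl fun b _ => h1 b]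
    have h2 : ∀ (s : Finset β), ∑ b ∈ s, Cat1s_b H (φ b x • e b) y =
        bt H (∑ b ∈ s, φ b x • e b) y := by
      classical
      intro s
      induction s using Finset.induction_on with
      | empty =>
        rw [Finset.sum_empty, Finset.sum_empty]
        simp [bt]
      | insert b s hb ih =>
        rw [Finset.sum_insert hb, Finset.sum_insert hb, bt_add_left, ih, Cat1s_b_apply]
    rw [h2, ← he x]
  have h3 := LinearMap.congr_fun h v
  rw [LinearMap.id_apply, LinearMap.sum_apply] at h3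
  exact h3

theorem Cat1s_congr {Λ : Type t} (X : Λ → C) (ψ ψ' : ∀ a, Module.Dual K (H.obj (X a)))
    (l : List Λ) (h : ∀ a ∈ l, ψ a = ψ' a) : fL H X ψ l = fL H X ψ' l := by
  induction l with
  | nil => rfl
  | cons a l ih =>
    show ft H (ψ a) (fL H X ψ l) = ft H (ψ' a) (fL H X ψ' l)
    rw [h a List.mem_cons_self, ih fun b hb => h b (List.mem_cons_of_mem a hb)]

/-- A monoidal automorphism acts factor by factor.  By induction on `l` (`bt_ext`,
`NatTrans.IsMonoidal.unit`, `NatTrans.IsMonoidal.tensor`). -/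
theorem fL_aut {Λ : Type t} (X : Λ → C) (θ : H ⟶ H) (hθ : NatTrans.IsMonoidal θ)
    (ψ : ∀ a, Module.Dual K (H.obj (X a))) (l : List Λ) (v : H.obj (NL X l)) :
    fL H X ψ l ((θ.app (NL X l)).hom v) =
      fL H X (fun a => ψ a ∘ₗ (θ.app (X a)).hom) l v := by
  induction l with
  | nil =>
    show uF H ((θ.app (𝟙_ C)).hom v) = uF H v
    have h1 : v = uF H v • one1 H := eq_smul_one1 H v
    rw [h1, map_smul, Cat1s_one H hθ]
  | cons a l ih =>
    show ft H (ψ a) (fL H X ψ l) ((θ.app (X a ⊗ NL X l)).hom v) =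
      ft H (ψ a ∘ₗ (θ.app (X a)).hom) (fL H X (fun a => ψ a ∘ₗ (θ.app (X a)).hom) l) v
    have h : ft H (ψ a) (fL H X ψ l) ∘ₗ (θ.app (X a ⊗ NL X l)).hom =
        ft H (ψ a ∘ₗ (θ.app (X a)).hom) (fL H X (fun a => ψ a ∘ₗ (θ.app (X a)).hom) l) := by
      refine bt_ext H fun x y => ?_
      rw [LinearMap.comp_apply, Cat1s_bt H hθ, ft_bt, ft_bt, ih y]
      rfl
    exact LinearMap.congr_fun h v

/-- The products of coordinate functions separate the points.
Proof.  By induction on `l`.  For `l = a :: l'` and `v : H (X a ⊗ NL X l')`: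
`v = ∑ b, bt (e a b) (v_b)`, where `v_b` is the image of `v` under `φ a b` contracted with the first
factor (the linear map `H (X a ⊗ N) → H N` which sends `bt x y` to `φ a b x • y`), because this holds
for `v = bt x y`.  For a family `b'` of indices the value
`fL H X (fun a => φ a (b' a)) l' (v_b)` is `fL H X (fun a => φ a (b'' a)) (a :: l') v` with
`b'' = Function.update b' a b` as `a ∉ l'`. -/
theorem fL_separates {Λ : Type t} [DecidableEq Λ] {β : Type*} [Fintype β] [Nonempty β] (X : Λ → C)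
    (φ : ∀ a, β → Module.Dual K (H.obj (X a))) (e : ∀ a, β → H.obj (X a))
    (he : ∀ a (x : H.obj (X a)), x = ∑ b, φ a b x • e a b)
    (l : List Λ) (hl : l.Nodup) (v : H.obj (NL X l))
    (hv : ∀ b : Λ → β, fL H X (fun a => φ a (b a)) l v = 0) : v = 0 := by
  induction l with
  | nil =>
    have h1 : uF H v = 0 := hv fun _ => Classical.arbitrary β
    have h2 : v = uF H v • one1 H := eq_smul_one1 H v
    rw [h2, h1, zero_smul]
    rfl
  | cons a l ih =>
    rw [List.nodup_cons] at hl
    have h1 : ∀ b0 : β, Cat1s_c H (φ a b0) v = 0 := by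
      intro b0
      refine ih hl.2 _ fun b' => ?_
      have h2 : ft H (φ a (Function.update b' a b0 a))
          (fL H X (fun c => φ c (Function.update b' a b0 c)) l) v = 0 :=
        hv (Function.update b' a b0)
      rw [Cat1s_ft, Function.update_self] at h2
      rw [← h2]
      congr 1
      refine Cat1s_congr H X _ _ l fun c hc => ?_
      have hca : c ≠ a := by
        rintro rfl
        exact hl.1 hc
      rw [Function.update_of_ne hca]
    have h3 := Cat1s_sum H (φ a) (e a) (he a) (Y := NL X l) v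
    have h4 : ∑ b, bt H (e a b) (Cat1s_c H (φ a b) v) = 0 := by
      refine Finset.sum_eq_zero fun b _ => ?_
      rw [h1 b, ← Cat1s_b_apply, map_zero]
    exact h3.trans h4

end H69
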