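import Pool.Agent.W_f569db_h69.Cat0

/-!
# Dual objects: coordinates, the action of automorphisms, the rule of signs
-/

set_option autoImplicit false
set_option linter.unusedSectionVars false

open CategoryTheory MonoidalCategory

universe u v w t

namespace H69

variable {K : Type u} [Field K] {C : Type v} [Category.{w} C] [MonoidalCategory C]
  (H : C ⥤ ModuleCat.{u} K) [H.Monoidal]

/-- The pairing `H Y × H X → K` given by an exact pairing. -/
noncomputable def prg (X Y : C) [ExactPairing X Y] (y : H.obj Y) (x : H.obj X) : K :=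
  uF H ((H.map (ExactPairing.evaluation X Y)).hom (bt H y x))

theorem prg_add_left (X Y : C) [ExactPairing X Y] (y y' : H.obj Y) (x : H.obj X) :
    prg H X Y (y + y') x = prg H X Y y x + prg H X Y y' x := by
  rw [prg, prg, prg, bt_add_left, map_add, map_add]

theorem prg_add_right (X Y : C) [ExactPairing X Y] (y : H.obj Y) (x x' : H.obj X) :
    prg H X Y y (x + x') = prg H X Y y x + prg H X Y y x' := by
  rw [prg, prg, prg, bt_add_right, map_add, map_add]

theorem prg_smul_left (X Y : C) [ExactPairing X Y] (r : K) (y : H.obj Y) (x : H.obj X) :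
    prg H X Y (r • y) x = r • prg H X Y y x := by
  rw [prg, prg, bt_smul_left, map_smul, map_smul]

theorem prg_smul_right (X Y : C) [ExactPairing X Y] (r : K) (y : H.obj Y) (x : H.obj X) :
    prg H X Y y (r • x) = r • prg H X Y y x := by
  rw [prg, prg, bt_smul_right, map_smul, map_smul]

/-- The pairing as a bilinear map. -/
noncomputable def prgL (X Y : C) [ExactPairing X Y] : H.obj Y →ₗ[K] H.obj X →ₗ[K] K :=
  LinearMap.mk₂ K (fun y x => prg H X Y y x) (prg_add_left H X Y) (prg_smul_left H X Y)
    (prg_add_right H X Y) (prg_smul_right H X Y)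

theorem prgL_apply (X Y : C) [ExactPairing X Y] (y : H.obj Y) (x : H.obj X) :
    prgL H X Y y x = prg H X Y y x := rfl

/-- Each element of `H (X ⊗ Y)` is a finite sum of external products. -/
theorem exists_sum_bt {X Y : C} (c : H.obj (X ⊗ Y)) :
    ∃ (n : ℕ) (x : Fin n → H.obj X) (y : Fin n → H.obj Y), c = ∑ s, bt H (x s) (y s) := by
  have h1 := Functor.Monoidal.δ_μ (F := H) X Y
  have h2 : (Functor.LaxMonoidal.μ H X Y).hom ((Functor.OplaxMonoidal.δ H X Y).hom c) = c :=
    congrArg (fun f => f.hom c) h1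
  have key : ∀ t : TensorProduct K (H.obj X) (H.obj Y), ∃ (n : ℕ) (x : Fin n → H.obj X)
      (y : Fin n → H.obj Y), (Functor.LaxMonoidal.μ H X Y).hom t = ∑ s, bt H (x s) (y s) := by
    intro t
    induction t using TensorProduct.induction_on with
    | zero => exact ⟨0, fun _ => 0, fun _ => 0, by rw [map_zero]; simp⟩
    | tmul x y => exact ⟨1, fun _ => x, fun _ => y, by simp [bt]⟩
    | add a b ha hb =>
      obtain ⟨n, x, y, h⟩ := ha
      obtain ⟨m, x', y', h'⟩ := hb
      refine ⟨n + m, Fin.append x x', Fin.append y y', ?_⟩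
      rw [map_add, h, h', Fin.sum_univ_add]
      simp
  obtain ⟨n, x, y, h3⟩ := key ((Functor.OplaxMonoidal.δ H X Y).hom c)
  exact ⟨n, x, y, by rw [← h3]; exact h2.symm⟩

theorem bt_sum_left {X Y : C} {n : ℕ} (x : Fin n → H.obj X) (y : H.obj Y) :
    bt H (∑ s, x s) y = ∑ s, bt H (x s) y := by
  let f : H.obj X →+ H.obj (X ⊗ Y) :=
    AddMonoidHom.mk' (fun x => bt H x y) fun a b => bt_add_left H a b y
  exact map_sum f x Finset.univ

theorem bt_sum_right {X Y : C} {n : ℕ} (x : H.obj X) (y : Fin n → H.obj Y) :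
    bt H x (∑ s, y s) = ∑ s, bt H x (y s) := by
  let f : H.obj Y →+ H.obj (X ⊗ Y) :=
    AddMonoidHom.mk' (fun y => bt H x y) fun a b => bt_add_right H x a b
  exact map_sum f y Finset.univ

theorem eval_bt (X Y : C) [ExactPairing X Y] (y : H.obj Y) (x : H.obj X) :
    (H.map (ExactPairing.evaluation X Y)).hom (bt H y x) = prg H X Y y x • one1 H :=
  eq_smul_one1 H _

theorem zigzag_left (X Y : C) [ExactPairing X Y] {n : ℕ} (xs : Fin n → H.obj X)
    (ys : Fin n → H.obj Y)
    (hc : (H.map (ExactPairing.coevaluation X Y)).hom (one1 H) = ∑ s, bt H (xs s) (ys s))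
    (x : H.obj X) : x = ∑ s, prg H X Y (ys s) x • xs s := by
  have h := congrArg (fun f => (H.map f).hom (bt H (one1 H) x))
    (ExactPairing.evaluation_coevaluation X Y)
  simp only [map_comp_apply, map_whiskerRight_bt, map_leftUnitor_bt, map_rightUnitor_inv] at h
  rw [hc, bt_sum_left, map_sum, map_sum] at h
  simp only [map_assoc_bt, map_whiskerLeft_bt, eval_bt, bt_smul_right] at h
  have h2 := congrArg (fun z => (H.map (ρ_ X).hom).hom z) h
  simp only [map_sum, map_smul, map_rightUnitor_bt] at h2
  exact h2.symm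

theorem zigzag_right (X Y : C) [ExactPairing X Y] {n : ℕ} (xs : Fin n → H.obj X)
    (ys : Fin n → H.obj Y)
    (hc : (H.map (ExactPairing.coevaluation X Y)).hom (one1 H) = ∑ s, bt H (xs s) (ys s))
    (y : H.obj Y) : y = ∑ s, prg H X Y y (xs s) • ys s := by
  have h := congrArg (fun f => (H.map f).hom (bt H y (one1 H)))
    (ExactPairing.coevaluation_evaluation X Y)
  simp only [map_comp_apply, map_whiskerLeft_bt, map_rightUnitor_bt, map_leftUnitor_inv] at h
  rw [hc, bt_sum_right, map_sum, map_sum] at h
  simp only [map_assoc_inv_bt, map_whiskerRight_bt, eval_bt, bt_smul_left] at h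
  have h2 := congrArg (fun z => (H.map (λ_ Y).hom).hom z) h
  simp only [map_sum, map_smul, map_leftUnitor_bt] at h2
  exact h2.symm

/-- Coordinates.
Proof.  Let `H(coevaluation)(1) = ∑_s bt x_s y_s` (a finite sum: each element of `H (X ⊗ Y)` is a
finite sum of elements `bt x y`).  The triangle identities give `x = ∑_s prg y_s x • x_s` and
`y = ∑_s prg y x_s • y_s`.  So `H X` has finite dimension.  Let `e` be a basis with coordinate functions
`e.coord t`, `φ' t y = prg y (e t)` and `e' t = ∑_s e.coord t x_s • y_s`. -/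
theorem exists_coord (X Y : C) [ExactPairing X Y] :
    ∃ (n : ℕ) (e : Module.Basis (Fin n) K (H.obj X)) (φ' : Fin n → Module.Dual K (H.obj Y))
      (e' : Fin n → H.obj Y), (∀ y t, φ' t y = prg H X Y y (e t)) ∧
        (∀ y, y = ∑ t, φ' t y • e' t) ∧
        ∀ y x, prg H X Y y x = ∑ t, φ' t y * e.coord t x := by
  obtain ⟨n, xs, ys, hc⟩ := exists_sum_bt H
    ((H.map (ExactPairing.coevaluation X Y)).hom (one1 H))
  have hx := zigzag_left H X Y xs ys hc
  have hy := zigzag_right H X Y xs ys hc
  have hfin : Module.Finite K (H.obj X) := by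
    classical
    refine ⟨⟨Finset.univ.image xs, ?_⟩⟩
    rw [eq_top_iff]
    intro x _
    rw [hx x]
    apply Submodule.sum_mem
    intro s _
    apply Submodule.smul_mem
    apply Submodule.subset_span
    rw [Finset.coe_image]
    exact ⟨s, by simp, rfl⟩
  let e := Module.finBasis K (H.obj X)
  have hcoord : ∀ y x, prg H X Y y x = ∑ t, prg H X Y y (e t) * e.coord t x := by
    intro y x
    have h1 : prgL H X Y y x = prgL H X Y y (∑ t, e.repr x t • e t) := by
      rw [e.sum_repr]
    rw [map_sum] at h1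
    simp only [map_smul, prgL_apply] at h1
    rw [h1]
    apply Finset.sum_congr rfl
    intro t _
    rw [Module.Basis.coord_apply, smul_eq_mul, mul_comm]
  refine ⟨_, e, fun t => (prgL H X Y).flip (e t), fun t => ∑ s, e.coord t (xs s) • ys s,
    fun y t => rfl, ?_, fun y x => hcoord y x⟩
  intro y
  conv_lhs => rw [hy y]
  have h2 : ∀ t, (prgL H X Y).flip (e t) y • ∑ s, e.coord t (xs s) • ys s =
      ∑ s, (prg H X Y y (e t) * e.coord t (xs s)) • ys s := by
    intro t
    rw [Finset.smul_sum]
    apply Finset.sum_congr rfl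
    intro s _
    rw [smul_smul]
    rfl
  rw [Finset.sum_congr rfl (fun t _ => h2 t), Finset.sum_comm]
  apply Finset.sum_congr rfl
  intro s _
  rw [← Finset.sum_smul, ← hcoord y (xs s)]

end H69
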