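import Pool.Agent.W_f569db_h69.Cat2

/-!
# Dual objects: the action of automorphisms, the rule of signs
-/

set_option autoImplicit false
set_option linter.unusedSectionVars false

open CategoryTheory MonoidalCategory

universe u v w t

namespace H69

variable {K : Type u} [Field K] {C : Type v} [Category.{w} C] [MonoidalCategory C]
  (H : C ⥤ ModuleCat.{u} K) [H.Monoidal]

theorem Cat2s_aut_bt {X Y : C} (θ : H ⟶ H) (hθ : NatTrans.IsMonoidal θ) (x : H.obj X)
    (y : H.obj Y) :
    (θ.app (X ⊗ Y)).hom (bt H x y) = bt H ((θ.app X).hom x) ((θ.app Y).hom y) := by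
  have h := hθ.tensor X Y
  have h2 := congrArg (fun t => t.hom (x ⊗ₜ[K] y)) h
  simp only [ModuleCat.hom_comp, LinearMap.comp_apply] at h2
  exact h2

theorem Cat2s_aut_one (θ : H ⟶ H) (hθ : NatTrans.IsMonoidal θ) :
    (θ.app (𝟙_ C)).hom (one1 H) = one1 H := by
  have h := hθ.unit
  have h2 := congrArg (fun t => t.hom (1 : K)) h
  simp only [ModuleCat.hom_comp, LinearMap.comp_apply] at h2
  exact h2

/-- A monoidal automorphism preserves the pairing (naturality with respect to the evaluation). -/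
theorem prg_aut (X Y : C) [ExactPairing X Y] (θ : H ⟶ H) (hθ : NatTrans.IsMonoidal θ)
    (y : H.obj Y) (x : H.obj X) :
    prg H X Y ((θ.app Y).hom y) ((θ.app X).hom x) = prg H X Y y x := by
  unfold prg
  rw [← Cat2s_aut_bt H θ hθ]
  have h := θ.naturality (ExactPairing.evaluation X Y)
  have h2 := congrArg (fun t => t.hom (bt H y x)) h
  simp only [ModuleCat.hom_comp, LinearMap.comp_apply] at h2
  rw [← h2]
  have h3 := eq_smul_one1 H ((H.map (ExactPairing.evaluation X Y)).hom (bt H y x))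
  conv_lhs => rw [h3]
  rw [map_smul, map_smul, Cat2s_aut_one H θ hθ, uF_one1, smul_eq_mul, mul_one]

/-- the linear map `τ ↦ bt τ x` -/
noncomputable def Cat2s_btL (X W : C) (x : H.obj X) : H.obj W →ₗ[K] H.obj (W ⊗ X) where
  toFun := fun τ => bt H τ x
  map_add' := fun a b => bt_add_left H a b x
  map_smul' := fun r a => bt_smul_left H r a x

/-- the morphism which contracts the last two factors -/
def Cat2s_m (X Y Z : C) [ExactPairing X Y] : (Z ⊗ Y) ⊗ X ⟶ Z :=
  (α_ Z Y X).hom ≫ Z ◁ (ExactPairing.evaluation X Y) ≫ (ρ_ Z).hom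

theorem Cat2s_m_bt (X Y Z : C) [ExactPairing X Y] (z : H.obj Z) (y : H.obj Y) (x : H.obj X) :
    (H.map (Cat2s_m X Y Z)).hom (bt H (bt H z y) x) = prg H X Y y x • z := by
  unfold Cat2s_m
  rw [map_comp_apply, map_comp_apply, map_assoc_bt, map_whiskerLeft_bt]
  have h3 := eq_smul_one1 H ((H.map (ExactPairing.evaluation X Y)).hom (bt H y x))
  rw [h3, bt_smul_right, map_smul, map_rightUnitor_bt]
  rfl

/-- an element of `H (Z ⊗ Y)` is determined by its contractions -/
theorem Cat2s_inj (X Y Z : C) [ExactPairing X Y] (τ τ' : H.obj (Z ⊗ Y))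
    (h : ∀ x : H.obj X, (H.map (Cat2s_m X Y Z)).hom (bt H τ x) =
      (H.map (Cat2s_m X Y Z)).hom (bt H τ' x)) : τ = τ' := by
  obtain ⟨n, e, φ', e', h1, h2, -⟩ := exists_coord H X Y
  have key : ∀ τ : H.obj (Z ⊗ Y),
      τ = ∑ t, bt H ((H.map (Cat2s_m X Y Z)).hom (bt H τ (e t))) (e' t) := by
    intro τ
    have hlin : (LinearMap.id : H.obj (Z ⊗ Y) →ₗ[K] H.obj (Z ⊗ Y)) =
        ∑ t, Cat2s_btL H Y Z (e' t) ∘ₗ (H.map (Cat2s_m X Y Z)).hom ∘ₗ
          Cat2s_btL H X (Z ⊗ Y) (e t) := by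
      apply bt_ext
      intro z y
      rw [LinearMap.sum_apply, LinearMap.id_apply]
      have h3 : ∀ t, (Cat2s_btL H Y Z (e' t) ∘ₗ (H.map (Cat2s_m X Y Z)).hom ∘ₗ
          Cat2s_btL H X (Z ⊗ Y) (e t)) (bt H z y) = bt H z (φ' t y • e' t) := by
        intro t
        show bt H ((H.map (Cat2s_m X Y Z)).hom (bt H (bt H z y) (e t))) (e' t) = _
        rw [Cat2s_m_bt, ← h1, bt_smul_left, bt_smul_right]
      rw [Finset.sum_congr rfl fun t _ => h3 t]
      have h4 : bt H z y = bt H z (∑ t, φ' t y • e' t) := by rw [← h2 y]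
      rw [h4]
      have h5 : ∀ (s : Finset (Fin n)) (g : Fin n → H.obj Y),
          bt H z (∑ t ∈ s, g t) = ∑ t ∈ s, bt H z (g t) := by
        intro s g
        classical
        induction s using Finset.induction_on with
        | empty =>
          rw [Finset.sum_empty, Finset.sum_empty]
          have := bt_smul_right H (0 : K) z (0 : H.obj Y)
          rwa [zero_smul, zero_smul] at this
        | insert a s ha ih => rw [Finset.sum_insert ha, Finset.sum_insert ha, bt_add_right, ih]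
      rw [h5]
    have h6 := LinearMap.congr_fun hlin τ
    rw [LinearMap.sum_apply, LinearMap.id_apply] at h6
    exact h6
  rw [key τ, key τ']
  exact Finset.sum_congr rfl fun t _ => by rw [h (e t)]

/-- The rule of signs passes to the dual object.
Proof.  Let `s` be the sign for `(X, Z)`, `T = H (β_ Y Z).hom`.  Naturality of the braiding with
respect to the evaluation `Y ⊗ X ⟶ 𝟙` and the hexagon identity give, for `y ∈ H Y`, `x ∈ H X`, `z ∈ H Z`:
`(id ⊗ ev) (T (bt y z) ⊗ x) = s • prg y x • z` (here one uses `β_{X,Z}`: `x ⊗ z ↦ s z ⊗ x`).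
An element `τ` of `H (Z ⊗ Y)` is determined by the elements `(id ⊗ ev)(τ ⊗ x) ∈ H Z` for all `x` (use
`exists_coord`), and `s • bt z y` has the same values. -/
theorem signRule_dual [SymmetricCategory C] (X Y Z : C) [ExactPairing X Y]
    (h : SignRule H X Z) : SignRule H Y Z := by
  rw [signRule_iff] at h ⊢
  obtain ⟨s, hs⟩ := h
  refine ⟨s, fun y z => ?_⟩
  apply Cat2s_inj H X Y Z
  intro x
  have hss : (s : ℤ) * (s : ℤ) = 1 := by
    rw [← Units.val_mul, Int.units_mul_self, Units.val_one]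
  -- the identity of morphisms
  have hm : ExactPairing.evaluation X Y ▷ Z ≫ (λ_ Z).hom =
      (α_ Y X Z).hom ≫ Y ◁ (β_ X Z).hom ≫ (α_ Y Z X).inv ≫ (β_ Y Z).hom ▷ X ≫
        Cat2s_m X Y Z := by
    have h1 := BraidedCategory.hexagon_reverse_assoc Y X Z (Cat2s_m X Y Z)
    have h2 := BraidedCategory.braiding_naturality_left_assoc
      (ExactPairing.evaluation X Y) Z (ρ_ Z).hom
    have h3 := braiding_rightUnitor Z
    rw [h3] at h2
    rw [h2, ← h1]
    simp [Cat2s_m]
  have hl : (H.map (ExactPairing.evaluation X Y ▷ Z ≫ (λ_ Z).hom)).hom (bt H (bt H y x) z) =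
      prg H X Y y x • z := by
    rw [map_comp_apply, map_whiskerRight_bt]
    have h3 := eq_smul_one1 H ((H.map (ExactPairing.evaluation X Y)).hom (bt H y x))
    rw [h3, bt_smul_left, map_smul, map_leftUnitor_bt]
    rfl
  have hr : (H.map ((α_ Y X Z).hom ≫ Y ◁ (β_ X Z).hom ≫ (α_ Y Z X).inv ≫ (β_ Y Z).hom ▷ X ≫
        Cat2s_m X Y Z)).hom (bt H (bt H y x) z) =
      (s : ℤ) • (H.map (Cat2s_m X Y Z)).hom (bt H ((H.map (β_ Y Z).hom).hom (bt H y z)) x) := by
    rw [map_comp_apply, map_comp_apply, map_comp_apply, map_comp_apply, map_assoc_bt,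
      map_whiskerLeft_bt, hs]
    have h4 : bt H y ((s : ℤ) • bt H z x) = (s : ℤ) • bt H y (bt H z x) := by
      rw [← Int.cast_smul_eq_zsmul K, ← Int.cast_smul_eq_zsmul K, bt_smul_right]
    rw [h4, map_zsmul, map_zsmul, map_zsmul, map_assoc_inv_bt, map_whiskerRight_bt]
  rw [hm, hr] at hl
  have h5 : (H.map (Cat2s_m X Y Z)).hom (bt H ((H.map (β_ Y Z).hom).hom (bt H y z)) x) =
      (s : ℤ) • (prg H X Y y x • z) := by
    rw [← hl, smul_smul, hss, one_smul]
  rw [h5]
  have h6 : bt H ((s : ℤ) • bt H z y) x = (s : ℤ) • bt H (bt H z y) x := by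
    rw [← Int.cast_smul_eq_zsmul K, ← Int.cast_smul_eq_zsmul K, bt_smul_left]
  rw [h6, map_zsmul, Cat2s_m_bt]

theorem signRule_symm [SymmetricCategory C] (X Y : C) (h : SignRule H X Y) :
    SignRule H Y X := by
  rw [signRule_iff] at h ⊢
  obtain ⟨s, hs⟩ := h
  refine ⟨s, fun y x => ?_⟩
  have hss : (s : ℤ) * (s : ℤ) = 1 := by
    rw [← Units.val_mul, Int.units_mul_self, Units.val_one]
  have h1 : bt H y x = (s : ℤ) • (H.map (β_ X Y).hom).hom (bt H x y) := by
    rw [hs, smul_smul, hss, one_smul]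
  rw [h1, map_zsmul, ← map_comp_apply, SymmetricCategory.symmetry, H.map_id]
  rfl

end H69
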