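import Pool.Agent.W_f569db_h69.Cat2s
import Pool.Agent.W_f569db_h69.Cat1
import Pool.Agent.W_f569db_h69.Defs

/-!
# Letters, coordinates for the letters
-/

set_option autoImplicit false
set_option linter.unusedSectionVars false
set_option linter.unusedSimpArgs false

open CategoryTheory MonoidalCategory

universe u v w t

namespace H69

variable {K : Type u} [Field K] {C : Type v} [Category.{w} C] [MonoidalCategory C]
  [RightRigidCategory C]

/-- The letters: `M i` for `(i, true)` and the dual of `M i` for `(i, false)`. -/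
def LX {I : Type t} (M : I → C) : I × Bool → C
  | (i, true) => M i
  | (i, false) => (M i)ᘁ

variable (H : C ⥤ ModuleCat.{u} K) [H.Monoidal]

/-- Coordinates for the letters `(i, ±)` with `i` in a finite set `S`: `α` is the disjoint union of
index sets of bases of the `H (M i)`, `i ∈ S`; `c` is the map `α → I`. -/
structure Crd {I : Type t} (M : I → C) (S : Finset I) (α : Type) [Fintype α] [DecidableEq α]
    where
  /-- the colour -/
  c : α → I
  /-- coordinate functions (zero for the wrong colours) -/
  φ : ∀ p : I × Bool, α → Module.Dual K (H.obj (LX M p))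
  /-- basis vectors (zero for the wrong colours) -/
  e : ∀ p : I × Bool, α → H.obj (LX M p)
  hc : ∀ a, c a ∈ S
  hφ : ∀ p b, c b ≠ p.1 → φ p b = 0
  he : ∀ p b, c b ≠ p.1 → e p b = 0
  hexp : ∀ p, p.1 ∈ S → ∀ x, x = ∑ b, φ p b x • e p b
  hdual : ∀ b b', φ (c b, true) b (e (c b, true) b') = if b = b' then 1 else 0
  hprg : ∀ i ∈ S, ∀ (y : H.obj (M i)ᘁ) (x : H.obj (M i)), prg H (M i) (M i)ᘁ y x =
    ∑ b, φ (i, false) b y * φ (i, true) b x

section crd

variable {I : Type t} (F : I → Type u) [∀ i, AddCommGroup (F i)]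
  {r : ℕ} (j : Fin r → I) (nn : Fin r → ℕ)

/-- transport of elements of a family -/
noncomputable def crdTo (g : ∀ k, Fin (nn k) → F (j k)) (i : I) (b : Σ k, Fin (nn k)) : F i :=
  open Classical in if h : j b.1 = i then h ▸ g b.1 b.2 else 0

theorem crdTo_ne (g : ∀ k, Fin (nn k) → F (j k)) (i : I) (b : Σ k, Fin (nn k))
    (h : j b.1 ≠ i) : crdTo F j nn g i b = 0 := by
  rw [crdTo, dif_neg h]

theorem crdTo_self (g : ∀ k, Fin (nn k) → F (j k)) (k : Fin r) (t : Fin (nn k)) :
    crdTo F j nn g (j k) ⟨k, t⟩ = g k t := by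
  rw [crdTo, dif_pos rfl]

theorem crd_sum {A : Type*} [AddCommMonoid A] (hj : Function.Injective j) (k : Fin r)
    (f : (Σ k, Fin (nn k)) → A) (hf : ∀ b : Σ k, Fin (nn k), j b.1 ≠ j k → f b = 0) :
    ∑ b, f b = ∑ t, f ⟨k, t⟩ := by
  classical
  rw [Fintype.sum_sigma]
  apply Finset.sum_eq_single k
  · intro k' _ hk
    apply Finset.sum_eq_zero
    intro t _
    apply hf
    intro h
    exact hk (hj h)
  · intro h
    exact absurd (Finset.mem_univ k) h

end crd

/-- Proof.  From `exists_coord` for the exact pairings of `M i` and its dual, `i ∈ S`, with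
`α = Σ i : S, Fin (n i)`. -/
theorem exists_crd {I : Type t} (M : I → C) (S : Finset I) :
    ∃ (α : Type) (_ : Fintype α) (_ : DecidableEq α), Nonempty (Crd H M S α) := by
  classical
  have hj : Function.Injective (fun k : Fin S.card => ((S.equivFin.symm k : S) : I)) := by
    intro a b h
    exact S.equivFin.symm.injective (Subtype.ext h)
  set j : Fin S.card → I := fun k => ((S.equivFin.symm k : S) : I) with hjdef
  have hjS : ∀ k, j k ∈ S := fun k => (S.equivFin.symm k).2
  have hjs : ∀ i ∈ S, ∃ k, j k = i := fun i hi => ⟨S.equivFin ⟨i, hi⟩, by simp [hjdef]⟩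
  choose nn e φ' e' h1 h2 h3 using fun k : Fin S.card => exists_coord H (M (j k)) (M (j k))ᘁ
  refine ⟨Σ k, Fin (nn k), inferInstance, inferInstance, ⟨{
    c := fun b => j b.1
    φ := fun p b => match p with
      | (i, true) => crdTo (fun i => Module.Dual K (H.obj (M i))) j nn
          (fun k t => (e k).coord t) i b
      | (i, false) => crdTo (fun i => Module.Dual K (H.obj (M i)ᘁ)) j nn (fun k t => φ' k t) i b
    e := fun p b => match p with
      | (i, true) => crdTo (fun i => (H.obj (M i) : Type u)) j nn (fun k t => e k t) i b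
      | (i, false) => crdTo (fun i => (H.obj (M i)ᘁ : Type u)) j nn (fun k t => e' k t) i b
    hc := fun b => hjS b.1
    hφ := ?_, he := ?_, hexp := ?_, hdual := ?_, hprg := ?_ }⟩⟩
  · rintro ⟨i, _ | _⟩ b hb
    · exact crdTo_ne _ j nn _ i b hb
    · exact crdTo_ne _ j nn _ i b hb
  · rintro ⟨i, _ | _⟩ b hb
    · exact crdTo_ne _ j nn _ i b hb
    · exact crdTo_ne _ j nn _ i b hb
  · rintro ⟨i, _ | _⟩ hi x
    · obtain ⟨k, rfl⟩ := hjs i hi
      rw [crd_sum j nn hj k]
      · conv_lhs => rw [h2 k x]
        apply Finset.sum_congr rfl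
        intro t _
        simp only [crdTo_self]
        rfl
      · intro b hb
        have : crdTo (fun i => (H.obj (M i)ᘁ : Type u)) j nn (fun k t => e' k t) (j k) b = 0 :=
          crdTo_ne _ j nn _ _ b hb
        simp only [this]
        exact (smul_zero (_ : K) : (_ : K) • (0 : (H.obj (M (j k))ᘁ : Type u)) = 0)
    · obtain ⟨k, rfl⟩ := hjs i hi
      rw [crd_sum j nn hj k]
      · conv_lhs => rw [← (e k).sum_repr x]
        apply Finset.sum_congr rfl
        intro t _
        simp only [crdTo_self]
        rfl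
      · intro b hb
        have : crdTo (fun i => (H.obj (M i) : Type u)) j nn (fun k t => e k t) (j k) b = 0 :=
          crdTo_ne _ j nn _ _ b hb
        simp only [this]
        exact (smul_zero (_ : K) : (_ : K) • (0 : (H.obj (M (j k)) : Type u)) = 0)
  · rintro ⟨k, t⟩ ⟨k', t'⟩
    have hcoord : ∀ k t t', (e k).coord t (e k t') = if t = t' then (1 : K) else 0 := by
      intro k t t'
      rw [Module.Basis.coord_apply, Module.Basis.repr_self, Finsupp.single_apply]
      simp only [eq_comm]
    by_cases hk : k' = k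
    · subst hk
      simp only [crdTo_self]
      refine (hcoord k' t t').trans ?_
      by_cases ht : t = t'
      · subst ht; simp
      · have : (⟨k', t⟩ : Σ k, Fin (nn k)) ≠ ⟨k', t'⟩ := by
          intro h
          apply ht
          simpa using h
        rw [if_neg this, if_neg ht]
    · have h4 : crdTo (fun i => (H.obj (M i) : Type u)) j nn (fun k t => e k t) (j k) ⟨k', t'⟩ = 0 :=
        crdTo_ne _ j nn _ _ _ (fun h => hk (hj h))
      have : (⟨k, t⟩ : Σ k, Fin (nn k)) ≠ ⟨k', t'⟩ := by
        intro h
        apply hk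
        exact (congrArg Sigma.fst h).symm
      rw [if_neg this]
      simp only [h4]
      exact (map_zero (_ : Module.Dual K (H.obj (M (j k)))))
  · intro i hi y x
    obtain ⟨k, rfl⟩ := hjs i hi
    rw [h3 k y x, crd_sum j nn hj k]
    · apply Finset.sum_congr rfl
      intro t _
      simp only [crdTo_self]
      rfl
    · intro b hb
      have : crdTo (fun i => Module.Dual K (H.obj (M i))) j nn
          (fun k t => (e k).coord t) (j k) b = 0 := crdTo_ne _ j nn _ _ b hb
      simp only [this]
      exact mul_zero (_ : K)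

end H69
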