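import Pool.Agent.W_f569db_h69.Cat3

/-!
# The matrices of the monoidal automorphisms
-/

set_option autoImplicit false
set_option linter.unusedSectionVars false

open CategoryTheory MonoidalCategory

universe u v w t

namespace H69

variable {K : Type u} [Field K] {C : Type v} [Category.{w} C] [MonoidalCategory C]
  [RightRigidCategory C] {H : C ⥤ ModuleCat.{u} K} [H.Monoidal]

section Cat3b

variable {I : Type t} {M : I → C} {S : Finset I} {α : Type} [Fintype α] [DecidableEq α]

/-- the matrix of a family of endomorphisms of the realisations of the letters -/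
def Cat3b_mt (D : Crd H M S α) (T : ∀ i : I, Module.End K (H.obj (LX M (i, true)))) :
    Matrix α α K :=
  Matrix.of fun a b => D.φ (D.c a, true) a (T (D.c a) (D.e (D.c a, true) b))

theorem Cat3b_mt_apply (D : Crd H M S α) (T : ∀ i : I, Module.End K (H.obj (LX M (i, true))))
    (a b : α) : Cat3b_mt D T a b = D.φ (D.c a, true) a (T (D.c a) (D.e (D.c a, true) b)) := rfl

theorem Cat3b_mt_bd (D : Crd H M S α) (T : ∀ i : I, Module.End K (H.obj (LX M (i, true)))) :
    Bd D.c (Cat3b_mt D T) := by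
  intro a b h
  by_contra hne
  apply h
  rw [Cat3b_mt_apply, D.he (D.c a, true) b (fun h => hne h.symm), map_zero, map_zero]

theorem Cat3b_mt_zero (D : Crd H M S α) (T : ∀ i : I, Module.End K (H.obj (LX M (i, true))))
    {a b : α} (h : D.c a ≠ D.c b) : Cat3b_mt D T a b = 0 := by
  by_contra hne
  exact h (Cat3b_mt_bd D T a b hne)

theorem Cat3b_sum_apply {V : Type*} [AddCommGroup V] [Module K V] (c : α → K)
    (f : α → Module.Dual K V) (x : V) : (∑ b, c b • f b) x = ∑ b, c b * f b x := by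
  rw [LinearMap.sum_apply]
  rfl

theorem Cat3b_dual (D : Crd H M S α) {i : I} {a b : α} (hb : D.c b = i) :
    D.φ (i, true) a (D.e (i, true) b) = if a = b then 1 else 0 := by
  by_cases ha : D.c a = i
  · subst ha
    exact D.hdual a b
  · rw [D.hφ (i, true) a ha, LinearMap.zero_apply, if_neg]
    rintro rfl
    exact ha hb

theorem Cat3b_expand (D : Crd H M S α) (T : ∀ i : I, Module.End K (H.obj (LX M (i, true))))
    {i : I} (hi : i ∈ S) (a : α) (x : H.obj (LX M (i, true))) :
    D.φ (i, true) a (T i x) = ∑ b, Cat3b_mt D T a b * D.φ (i, true) b x := by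
  by_cases ha : D.c a = i
  · subst ha
    conv_lhs => rw [D.hexp (D.c a, true) hi x]
    rw [map_sum, map_sum]
    refine Finset.sum_congr rfl fun b _ => ?_
    rw [map_smul, map_smul, smul_eq_mul, mul_comm, Cat3b_mt_apply]
  · rw [D.hφ (i, true) a ha, LinearMap.zero_apply]
    symm
    refine Finset.sum_eq_zero fun b _ => ?_
    by_cases hb : D.c b = i
    · rw [Cat3b_mt_zero D T (fun h => ha (h.trans hb)), zero_mul]
    · rw [D.hφ (i, true) b hb, LinearMap.zero_apply, mul_zero]

theorem Cat3b_mt_one (D : Crd H M S α) :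
    Cat3b_mt D (fun i => (LinearMap.id : Module.End K (H.obj (LX M (i, true))))) = 1 := by
  ext a b
  rw [Cat3b_mt_apply, LinearMap.id_apply, D.hdual, Matrix.one_apply]

theorem Cat3b_mt_mul (D : Crd H M S α) (T T' : ∀ i : I, Module.End K (H.obj (LX M (i, true)))) :
    Cat3b_mt D T * Cat3b_mt D T' = Cat3b_mt D (fun i => T i ∘ₗ T' i) := by
  ext a b
  rw [Matrix.mul_apply, Cat3b_mt_apply, LinearMap.comp_apply,
    Cat3b_expand D T (D.hc a) a]
  refine Finset.sum_congr rfl fun d _ => ?_
  by_cases hd : D.c a = D.c d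
  · rw [Cat3b_mt_apply D T' d b, hd]
  · rw [Cat3b_mt_zero D T hd, zero_mul, zero_mul]

end Cat3b

/-- The matrix of an automorphism of `H`, and its action on the coordinate functions of the letters.
Proof.  `γ a b = φ (c a, true) a (θ (e (c a, true) b))`; its inverse is the matrix of `θ⁻¹`.  For the
dual letters use `prg_aut`: `φ (i, false) b y = prg y (e (i, true) b)` if `c b = i` (by `hprg` and
`hdual`), so `φ (i, false) a (θ y) = prg (θ y) (e a) = prg y (θ⁻¹ (e a))`, and expand
`θ⁻¹ (e a)`. -/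
theorem Crd.aut {I : Type t} {M : I → C} {S : Finset I} {α : Type} [Fintype α] [DecidableEq α]
    (D : Crd H M S α) (θ : H ≅ H) (hθ : NatTrans.IsMonoidal θ.hom) :
    ∃ γ ∈ BG D.c K,
      (∀ i ∈ S, ∀ a, D.φ (i, true) a ∘ₗ (θ.hom.app (M i)).hom =
        ∑ b, (γ : Matrix α α K) a b • D.φ (i, true) b) ∧
      (∀ i ∈ S, ∀ a, D.φ (i, false) a ∘ₗ (θ.hom.app (M i)ᘁ).hom =
        ∑ b, ((γ⁻¹ : (Matrix α α K)ˣ) : Matrix α α K) b a • D.φ (i, false) b) := by
  let A : ∀ i : I, Module.End K (H.obj (LX M (i, true))) := fun i => (θ.hom.app (M i)).hom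
  let B : ∀ i : I, Module.End K (H.obj (LX M (i, true))) := fun i => (θ.inv.app (M i)).hom
  have hAB : ∀ i, A i ∘ₗ B i = LinearMap.id := by
    intro i
    have h := congrArg (fun f => f.hom) (θ.inv_hom_id_app (M i))
    simp only [ModuleCat.hom_comp, ModuleCat.hom_id] at h
    exact h
  have hBA : ∀ i, B i ∘ₗ A i = LinearMap.id := by
    intro i
    have h := congrArg (fun f => f.hom) (θ.hom_inv_id_app (M i))
    simp only [ModuleCat.hom_comp, ModuleCat.hom_id] at h
    exact h
  have h1 : Cat3b_mt D A * Cat3b_mt D B = 1 := by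
    rw [Cat3b_mt_mul, ← Cat3b_mt_one D]
    congr 1
    funext i
    exact hAB i
  have h2 : Cat3b_mt D B * Cat3b_mt D A = 1 := by
    rw [Cat3b_mt_mul, ← Cat3b_mt_one D]
    congr 1
    funext i
    exact hBA i
  refine ⟨⟨Cat3b_mt D A, Cat3b_mt D B, h1, h2⟩, ⟨Cat3b_mt_bd D A, Cat3b_mt_bd D B⟩, ?_, ?_⟩
  · intro i hi a
    refine LinearMap.ext fun x => ?_
    exact (Cat3b_expand D A hi a x).trans
      (Cat3b_sum_apply (fun b => Cat3b_mt D A a b) (fun b => D.φ (i, true) b) x).symm
  · intro i hi a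
    refine LinearMap.ext fun y => ?_
    refine Eq.trans ?_
      (Cat3b_sum_apply (fun b => Cat3b_mt D B b a) (fun b => D.φ (i, false) b) y).symm
    change D.φ (i, false) a ((θ.hom.app (M i)ᘁ).hom y) =
      ∑ b, (Cat3b_mt D B b a) * (D.φ (i, false) b y)
    by_cases ha : D.c a = i
    · have key : ∀ y' : H.obj (M i)ᘁ, D.φ (i, false) a y' =
          prg H (M i) (M i)ᘁ y' (D.e (i, true) a) := by
        intro y'
        rw [D.hprg i hi]
        rw [Finset.sum_eq_single a]
        · rw [Cat3b_dual D ha, if_pos rfl, mul_one]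
        · intro b _ hb
          rw [Cat3b_dual D ha, if_neg hb, mul_zero]
        · intro h; exact absurd (Finset.mem_univ a) h
      rw [key]
      have h3 : (D.e (i, true) a : H.obj (LX M (i, true))) = A i (B i (D.e (i, true) a)) := by
        rw [← LinearMap.comp_apply, hAB i, LinearMap.id_apply]
      rw [h3]
      have h4 := prg_aut H (M i) (M i)ᘁ θ.hom hθ y (B i (D.e (i, true) a))
      refine h4.trans ?_
      rw [D.hprg i hi]
      refine Finset.sum_congr rfl fun b _ => ?_
      rw [mul_comm]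
      by_cases hb : D.c b = i
      · subst hb
        rfl
      · rw [D.hφ (i, false) b hb, LinearMap.zero_apply, mul_zero, mul_zero]
    · rw [D.hφ (i, false) a ha, LinearMap.zero_apply]
      symm
      refine Finset.sum_eq_zero fun b _ => ?_
      by_cases hb : D.c b = i
      · rw [Cat3b_mt_zero D B (fun h => ha (h.symm.trans hb)), zero_mul]
      · rw [D.hφ (i, false) b hb, LinearMap.zero_apply, mul_zero]

/-- The set of the matrices of all monoidal automorphisms of `H` satisfies the irreducibility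
condition of the core theorem.
Proof.  Let `c a = c b = i` and let `E` be the endomorphism of `H (M i)` with
`E x = φ b x • e a`.  By `AbsIrr` it is a linear combination of automorphisms; take the same
combination of matrices. -/
theorem Crd.irr {I : Type t} {M : I → C} {S : Finset I} {α : Type} [Fintype α] [DecidableEq α]
    (D : Crd H M S α) (hirr : ∀ i ∈ S, AbsIrr H (M i)) (a b : α) (hab : D.c a = D.c b) :
    ∃ T ∈ Submodule.span K ((fun g : (Matrix α α K)ˣ => (g : Matrix α α K)) ''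
      {γ | γ ∈ BG D.c K ∧ ∃ θ : H ≅ H, NatTrans.IsMonoidal θ.hom ∧
        (∀ i ∈ S, ∀ a, D.φ (i, true) a ∘ₗ (θ.hom.app (M i)).hom =
          ∑ b, (γ : Matrix α α K) a b • D.φ (i, true) b) ∧
        (∀ i ∈ S, ∀ a, D.φ (i, false) a ∘ₗ (θ.hom.app (M i)ᘁ).hom =
          ∑ b, ((γ⁻¹ : (Matrix α α K)ˣ) : Matrix α α K) b a • D.φ (i, false) b)}),
      ∀ a' b', D.c a' = D.c a → D.c b' = D.c a → T a' b' = if a' = a ∧ b' = b then 1 else 0 := by
  let E : Module.End K (H.obj (M (D.c a))) :=
    (D.φ (D.c a, true) b).smulRight (D.e (D.c a, true) a)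
  have hE : E ∈ Submodule.span K {φ : Module.End K (H.obj (M (D.c a))) |
      ∃ θ : H ≅ H, NatTrans.IsMonoidal θ.hom ∧ φ = (θ.hom.app (M (D.c a))).hom} := by
    rw [hirr (D.c a) (D.hc a)]
    exact Submodule.mem_top
  have key : ∀ E ∈ Submodule.span K {φ : Module.End K (H.obj (M (D.c a))) |
      ∃ θ : H ≅ H, NatTrans.IsMonoidal θ.hom ∧ φ = (θ.hom.app (M (D.c a))).hom},
      ∃ T ∈ Submodule.span K ((fun g : (Matrix α α K)ˣ => (g : Matrix α α K)) ''
      {γ | γ ∈ BG D.c K ∧ ∃ θ : H ≅ H, NatTrans.IsMonoidal θ.hom ∧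
        (∀ i ∈ S, ∀ a, D.φ (i, true) a ∘ₗ (θ.hom.app (M i)).hom =
          ∑ b, (γ : Matrix α α K) a b • D.φ (i, true) b) ∧
        (∀ i ∈ S, ∀ a, D.φ (i, false) a ∘ₗ (θ.hom.app (M i)ᘁ).hom =
          ∑ b, ((γ⁻¹ : (Matrix α α K)ˣ) : Matrix α α K) b a • D.φ (i, false) b)}),
      ∀ a' b', D.c a' = D.c a → D.c b' = D.c a →
        T a' b' = D.φ (D.c a, true) a' (E (D.e (D.c a, true) b')) := by
    intro E hE
    induction hE using Submodule.span_induction with
    | mem φ hφ =>
      obtain ⟨θ, hθ, rfl⟩ := hφ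
      obtain ⟨γ, hγ, h1, h2⟩ := D.aut θ hθ
      refine ⟨(γ : Matrix α α K), Submodule.subset_span ⟨γ, ⟨hγ, θ, hθ, h1, h2⟩, rfl⟩, ?_⟩
      intro a' b' _ hb'
      have h3 := LinearMap.congr_fun (h1 (D.c a) (D.hc a) a') (D.e (D.c a, true) b')
      have h6 := h3.trans (Cat3b_sum_apply (fun d => (γ : Matrix α α K) a' d)
        (fun d => D.φ (D.c a, true) d) (D.e (D.c a, true) b'))
      refine Eq.trans ?_ h6.symm
      have h4 : ∀ d : α, (γ : Matrix α α K) a' d * (D.φ (D.c a, true) d)
          (D.e (D.c a, true) b') = (γ : Matrix α α K) a' d * (if d = b' then 1 else 0) := by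
        intro d
        rw [Cat3b_dual D hb']
      simp only [h4]
      simp
    | zero =>
      refine ⟨0, Submodule.zero_mem _, fun a' b' _ _ => ?_⟩
      rw [LinearMap.zero_apply, Matrix.zero_apply]
      exact (map_zero _).symm
    | add φ ψ _ _ h1 h2 =>
      obtain ⟨T1, hT1, h1⟩ := h1
      obtain ⟨T2, hT2, h2⟩ := h2
      refine ⟨T1 + T2, Submodule.add_mem _ hT1 hT2, fun a' b' ha' hb' => ?_⟩
      rw [Matrix.add_apply, h1 a' b' ha' hb', h2 a' b' ha' hb', LinearMap.add_apply]
      exact (map_add _ _ _).symm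
    | smul r φ _ h1 =>
      obtain ⟨T1, hT1, h1⟩ := h1
      refine ⟨r • T1, Submodule.smul_mem _ _ hT1, fun a' b' ha' hb' => ?_⟩
      rw [Matrix.smul_apply, h1 a' b' ha' hb', LinearMap.smul_apply]
      exact (map_smul _ _ _).symm
  obtain ⟨T, hT, h⟩ := key E hE
  refine ⟨T, hT, fun a' b' ha' hb' => ?_⟩
  rw [h a' b' ha' hb']
  have h5 : E (D.e (D.c a, true) b') =
      (D.φ (D.c a, true) b (D.e (D.c a, true) b')) • D.e (D.c a, true) a := rfl
  rw [h5, map_smul, Cat3b_dual D hb', Cat3b_dual D rfl, smul_eq_mul]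
  by_cases h6 : a' = a
  · by_cases h7 : b' = b
    · rw [if_pos h7.symm, if_pos h6, if_pos ⟨h6, h7⟩, mul_one]
    · rw [if_neg (fun h => h7 h.symm), zero_mul, if_neg (fun h => h7 h.2)]
  · rw [if_neg h6, mul_zero, if_neg (fun h => h6 h.1)]

end H69
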