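import Pool.Agent.W_f569db_h69.Cat3
import Pool.Agent.W_f569db_h69.Cat1e
import Pool.Agent.W_f569db_h69.Cat1s

/-!
# The coordinate matrix of a morphism from the unit object
-/

set_option autoImplicit false
set_option linter.unusedSectionVars false

open CategoryTheory MonoidalCategory

universe u v w t

namespace H69

variable {K : Type u} [Field K] {C : Type v} [Category.{w} C] [MonoidalCategory C]
  [RightRigidCategory C]

/-- The letters of the standard word of degree zero: the letters `M (w s)`, then their duals. -/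
def lt0 {I : Type t} {m : ℕ} (w : Fin m → I) : Fin m ⊕ Fin m → I × Bool :=
  Sum.elim (fun s => (w s, true)) (fun s => (w s, false))

/-- The list of all labels. -/
def l0 (m : ℕ) : List (Fin m ⊕ Fin m) :=
  (List.finRange m).map Sum.inl ++ (List.finRange m).map Sum.inr

theorem l0_nodup (m : ℕ) : (l0 m).Nodup := by
  unfold l0
  rw [List.nodup_append]
  refine ⟨List.Nodup.map Sum.inl_injective (List.nodup_finRange m),
    List.Nodup.map Sum.inr_injective (List.nodup_finRange m), ?_⟩
  intro a ha b hb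
  rw [List.mem_map] at ha hb
  obtain ⟨x, -, rfl⟩ := ha
  obtain ⟨y, -, rfl⟩ := hb
  exact Sum.inl_ne_inr

theorem mem_l0 (m : ℕ) (a : Fin m ⊕ Fin m) : a ∈ l0 m := by
  unfold l0
  rw [List.mem_append, List.mem_map, List.mem_map]
  rcases a with x | y
  · exact Or.inl ⟨x, List.mem_finRange x, rfl⟩
  · exact Or.inr ⟨y, List.mem_finRange y, rfl⟩

variable {H : C ⥤ ModuleCat.{u} K} [H.Monoidal]
  {I : Type t} {M : I → C} {S : Finset I} {α : Type} [Fintype α] [DecidableEq α]

/-- The matrix coefficients of an element of the realisation of the standard word. -/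
noncomputable def xmat (D : Crd H M S α) {m : ℕ} (w : Fin m → I)
    (v : H.obj (NL (fun a => LX M (lt0 w a)) (l0 m))) :
    Matrix (Fin m → α) (Fin m → α) K :=
  Matrix.of fun a b =>
    fL H (fun a => LX M (lt0 w a)) (fun q => D.φ (lt0 w q) (Sum.elim a b q)) (l0 m) v

theorem xmat_supp (D : Crd H M S α) {m : ℕ} (w : Fin m → I)
    (v : H.obj (NL (fun a => LX M (lt0 w a)) (l0 m))) : Supp D.c w (xmat D w v) := by
  intro a b hab
  constructor
  · intro s
    by_contra hne
    apply hab
    have h0 : D.φ (lt0 w (Sum.inl s)) (Sum.elim a b (Sum.inl s)) = 0 := D.hφ _ _ hne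
    have h1 := fL_eq_zero H (fun a => LX M (lt0 w a))
      (fun q => D.φ (lt0 w q) (Sum.elim a b q)) (l0 m) (Sum.inl s) (mem_l0 m _) h0
    show fL H (fun a => LX M (lt0 w a)) (fun q => D.φ (lt0 w q) (Sum.elim a b q)) (l0 m) v = 0
    rw [h1, LinearMap.zero_apply]
  · intro s
    by_contra hne
    apply hab
    have h0 : D.φ (lt0 w (Sum.inr s)) (Sum.elim a b (Sum.inr s)) = 0 := D.hφ _ _ hne
    have h1 := fL_eq_zero H (fun a => LX M (lt0 w a))
      (fun q => D.φ (lt0 w q) (Sum.elim a b q)) (l0 m) (Sum.inr s) (mem_l0 m _) h0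
    show fL H (fun a => LX M (lt0 w a)) (fun q => D.φ (lt0 w q) (Sum.elim a b q)) (l0 m) v = 0
    rw [h1, LinearMap.zero_apply]

/-- From `fL_separates`. -/
theorem xmat_ne_zero (D : Crd H M S α) {m : ℕ} (w : Fin m → I) (hw : ∀ s, w s ∈ S)
    (v : H.obj (NL (fun a => LX M (lt0 w a)) (l0 m))) (hv : v ≠ 0) : xmat D w v ≠ 0 := by
  intro h0
  apply hv
  have hw' : ∀ q : Fin m ⊕ Fin m, (lt0 w q).1 ∈ S := by
    rintro (s | s)
    · exact hw s
    · exact hw s
  refine fL_separates H (β := Option α) (fun a => LX M (lt0 w a))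
    (fun q b => b.elim 0 (fun b' => D.φ (lt0 w q) b'))
    (fun q b => b.elim 0 (fun b' => D.e (lt0 w q) b')) ?_ (l0 m) (l0_nodup m) v ?_
  · intro q x
    rw [Fintype.sum_option]
    have h1 := D.hexp (lt0 w q) (hw' q) x
    simp only [Option.elim_none, Option.elim_some, smul_zero, zero_add]
    exact h1
  · intro b
    by_cases hb : ∃ q, b q = none
    · obtain ⟨q, hq⟩ := hb
      have h1 := fL_eq_zero H (fun a => LX M (lt0 w a))
        (fun q => (b q).elim 0 (fun b' => D.φ (lt0 w q) b')) (l0 m) q (mem_l0 m q)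
        (by simp only [hq, Option.elim_none])
      rw [h1, LinearMap.zero_apply]
    · push Not at hb
      have hb' : ∀ q, ∃ a, b q = some a := fun q => Option.ne_none_iff_exists'.1 (hb q)
      choose a ha using hb'
      have h1 : (fun q => (b q).elim (0 : Module.Dual K (H.obj (LX M (lt0 w q))))
          (fun b' => D.φ (lt0 w q) b')) =
          fun q => D.φ (lt0 w q) (Sum.elim (fun s => a (Sum.inl s)) (fun s => a (Sum.inr s)) q) := by
        funext q
        rw [ha q, Option.elim_some]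
        rcases q with s | s <;> rfl
      have h2 := congrFun (congrFun h0 fun s => a (Sum.inl s)) fun s => a (Sum.inr s)
      rw [h1]
      exact h2

/-- From `fL_aut` and `fL_expand`. -/
theorem xmat_comm (D : Crd H M S α) {m : ℕ} (w : Fin m → I) (hw : ∀ s, w s ∈ S)
    (v : H.obj (NL (fun a => LX M (lt0 w a)) (l0 m))) (θ : H ≅ H)
    (hθ : NatTrans.IsMonoidal θ.hom) (hv : (θ.hom.app _).hom v = v) (γ : (Matrix α α K)ˣ)
    (h1 : ∀ i ∈ S, ∀ a, D.φ (i, true) a ∘ₗ (θ.hom.app (M i)).hom =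
          ∑ b, (γ : Matrix α α K) a b • D.φ (i, true) b)
    (h2 : ∀ i ∈ S, ∀ a, D.φ (i, false) a ∘ₗ (θ.hom.app (M i)ᘁ).hom =
          ∑ b, ((γ⁻¹ : (Matrix α α K)ˣ) : Matrix α α K) b a • D.φ (i, false) b) :
    ten (Fin m) (γ : Matrix α α K) * xmat D w v = xmat D w v * ten (Fin m) (γ : Matrix α α K) := by
  have key : xmat D w v = ten (Fin m) (γ : Matrix α α K) * xmat D w v *
      ten (Fin m) ((γ⁻¹ : (Matrix α α K)ˣ) : Matrix α α K) := by
    ext a b
    have e1 : xmat D w v a b = fL H (fun a => LX M (lt0 w a))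
        (fun q => D.φ (lt0 w q) (Sum.elim a b q)) (l0 m) ((θ.hom.app _).hom v) := by
      rw [hv]
      rfl
    rw [e1, fL_aut H (fun a => LX M (lt0 w a)) θ.hom hθ]
    let g : Fin m ⊕ Fin m → α → K := Sum.elim
      (fun s a' => (γ : Matrix α α K) (a s) a')
      (fun s b' => ((γ⁻¹ : (Matrix α α K)ˣ) : Matrix α α K) b' (b s))
    have e2 : (fun q => D.φ (lt0 w q) (Sum.elim a b q) ∘ₗ
        (θ.hom.app (LX M (lt0 w q))).hom) = fun q => ∑ c, g q c • D.φ (lt0 w q) c := by
      funext q
      rcases q with s | s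
      · exact h1 (w s) (hw s) (a s)
      · exact h2 (w s) (hw s) (b s)
    have e3 := fL_expand H (fun a => LX M (lt0 w a)) g (fun q => D.φ (lt0 w q)) (l0 m)
      (l0_nodup m) (mem_l0 m)
    rw [e2, e3, LinearMap.sum_apply]
    simp only [Matrix.mul_apply, Finset.sum_mul]
    rw [Finset.sum_comm, ← Finset.sum_product']
    refine Fintype.sum_equiv (Equiv.sumArrowEquivProdArrow (Fin m) (Fin m) α) _ _ ?_
    intro f
    rw [LinearMap.smul_apply, smul_eq_mul, Fintype.prod_sum_type]
    have e4 : (fun q => D.φ (lt0 w q) (f q)) =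
        fun q => D.φ (lt0 w q) (Sum.elim (fun s => f (Sum.inl s)) (fun s => f (Sum.inr s)) q) := by
      funext q
      rcases q with s | s <;> rfl
    rw [e4]
    show (∏ s, (γ : Matrix α α K) (a s) (f (Sum.inl s))) *
      (∏ s, ((γ⁻¹ : (Matrix α α K)ˣ) : Matrix α α K) (f (Sum.inr s)) (b s)) * _ =
      (∏ s, (γ : Matrix α α K) (a s) (f (Sum.inl s))) * _ *
      (∏ s, ((γ⁻¹ : (Matrix α α K)ˣ) : Matrix α α K) (f (Sum.inr s)) (b s))
    rw [mul_right_comm]
    rfl
  have h3 : xmat D w v * ten (Fin m) (γ : Matrix α α K) =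
      ten (Fin m) (γ : Matrix α α K) * xmat D w v *
        ten (Fin m) ((γ⁻¹ : (Matrix α α K)ˣ) : Matrix α α K) * ten (Fin m) (γ : Matrix α α K) := by
    rw [← key]
  rw [h3, Matrix.mul_assoc (ten (Fin m) (γ : Matrix α α K) * xmat D w v), ten_inv_mul,
    Matrix.mul_one]

end H69
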