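import Pool.Agent.W_f569db_h69.Cat3c
import Pool.Agent.W_f569db_h69.Cat1a
import Pool.Agent.W_f569db_h69.Cat1p

/-!
# From a nonzero trace invariant to a nonzero closed diagram
-/

set_option autoImplicit false
set_option linter.unusedSectionVars false

open CategoryTheory MonoidalCategory

universe u v w t

namespace H69

variable {K : Type u} [Field K] {C : Type v} [Category.{w} C] [MonoidalCategory C]
  [SymmetricCategory C] [RightRigidCategory C]

/-- A nonempty tensor power of `z` factors through `z`.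
Proof.  `pw X l z (k :: L) = z ≫ (ρ_ _).inv ≫ ((mapI ..).hom ⊗ₘ pw X l z L) ≫ (appI ..).hom`. -/
theorem pw_factor {D Λ : Type*} (X : Λ → C) (l : List Λ) (z : 𝟙_ C ⟶ NL X l) (k : D)
    (L : List D) : ∃ g : NL X l ⟶ NL (fun p : D × Λ => X p.2) (copies l (k :: L)),
      pw X l z (k :: L) = z ≫ g := by
  refine ⟨(ρ_ _).inv ≫
    ((mapI (fun p : D × Λ => X p.2) (fun a => (k, a)) l).hom ⊗ₘ pw X l z L) ≫
      (appI (fun p : D × Λ => X p.2) (l.map (fun a => (k, a))) (copies l L)).hom, ?_⟩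
  change (λ_ (𝟙_ C)).inv ≫
      ((z ≫ (mapI (fun p : D × Λ => X p.2) (fun a => (k, a)) l).hom) ⊗ₘ pw X l z L) ≫
      (appI (fun p : D × Λ => X p.2) (l.map (fun a => (k, a))) (copies l L)).hom = _
  have h1 : (z ≫ (mapI (fun p : D × Λ => X p.2) (fun a => (k, a)) l).hom) ⊗ₘ pw X l z L =
      z ▷ 𝟙_ C ≫ ((mapI (fun p : D × Λ => X p.2) (fun a => (k, a)) l).hom ⊗ₘ pw X l z L) := by
    rw [← tensorHom_id, tensorHom_comp_tensorHom, Category.id_comp]
  rw [h1, unitors_inv_equal, Category.assoc, ← rightUnitor_inv_naturality_assoc]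
  rfl

variable {H : C ⥤ ModuleCat.{u} K} [H.Monoidal]
  {I : Type t} {M : I → C} {S : Finset I} {α : Type} [Fintype α] [DecidableEq α]

/-- Contraction of a dual letter with a letter. -/
theorem exists_contract (D : Crd H M S α) (i j : I) (hij : i = j) (hi : i ∈ S) :
    ∃ e : LX M (i, false) ⊗ LX M (j, true) ⟶ 𝟙_ C,
      uF H ∘ₗ (H.map e).hom = ∑ b, ft H (D.φ (i, false) b) (D.φ (j, true) b) := by
  subst hij
  refine ⟨ExactPairing.evaluation (M i) (M i)ᘁ, ?_⟩
  refine bt_ext H fun y x => ?_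
  rw [LinearMap.comp_apply, LinearMap.sum_apply]
  simp only [ft_bt]
  exact D.hprg i hi y x

/-- the elements of a list of copies -/
theorem cat3d_mem_copies {D Λ : Type*} (l : List Λ) (L : List D) (p : D × Λ) :
    p ∈ copies l L ↔ p.1 ∈ L ∧ p.2 ∈ l := by
  induction L with
  | nil =>
    constructor
    · intro h
      exact absurd h List.not_mem_nil
    · intro h
      exact absurd h.1 List.not_mem_nil
  | cons k L ih =>
    change p ∈ l.map (fun a => (k, a)) ++ copies l L ↔ _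
    rw [List.mem_append, ih, List.mem_map, List.mem_cons]
    constructor
    · rintro (⟨a, ha, rfl⟩ | ⟨h1, h2⟩)
      · exact ⟨Or.inl rfl, ha⟩
      · exact ⟨Or.inr h1, h2⟩
    · rintro ⟨h1 | h1, h2⟩
      · exact Or.inl ⟨p.2, h2, by rw [← h1]⟩
      · exact Or.inr ⟨h1, h2⟩

theorem cat3d_nodup_copies {D Λ : Type*} (l : List Λ) (L : List D) (hl : l.Nodup)
    (hL : L.Nodup) : (copies l L).Nodup := by
  induction L with
  | nil => exact List.nodup_nil
  | cons k L ih =>
    rw [List.nodup_cons] at hL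
    change (l.map (fun a => (k, a)) ++ copies l L).Nodup
    refine List.Nodup.append (hl.map fun a b h => congrArg Prod.snd h) (ih hL.2) ?_
    intro p hp hp'
    obtain ⟨a, _, rfl⟩ := List.mem_map.1 hp
    exact hL.1 ((cat3d_mem_copies l L _).1 hp').1

theorem cat3d_mem_pairL {Q Λ : Type*} (μ ν : Q → Λ) (L : List Q) (p : Λ) :
    p ∈ pairL μ ν L ↔ ∃ q ∈ L, p = μ q ∨ p = ν q := by
  induction L with
  | nil =>
    constructor
    · intro h
      exact absurd h List.not_mem_nil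
    · rintro ⟨q, hq, _⟩
      exact absurd hq List.not_mem_nil
  | cons q L ih =>
    change p ∈ μ q :: ν q :: pairL μ ν L ↔ _
    rw [List.mem_cons, List.mem_cons, ih]
    constructor
    · rintro (h | h | ⟨q', hq', h⟩)
      · exact ⟨q, List.mem_cons_self, Or.inl h⟩
      · exact ⟨q, List.mem_cons_self, Or.inr h⟩
      · exact ⟨q', List.mem_cons_of_mem _ hq', h⟩
    · rintro ⟨q', hq', h⟩
      rcases List.mem_cons.1 hq' with rfl | hq'
      · rcases h with h | h
        · exact Or.inl h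
        · exact Or.inr (Or.inl h)
      · exact Or.inr (Or.inr ⟨q', hq', h⟩)

theorem cat3d_nodup_pairL {Q Λ : Type*} (μ ν : Q → Λ) (L : List Q) (hL : L.Nodup)
    (hμ : Function.Injective μ) (hν : Function.Injective ν) (hμν : ∀ q q', μ q ≠ ν q') :
    (pairL μ ν L).Nodup := by
  induction L with
  | nil => exact List.nodup_nil
  | cons q L ih =>
    rw [List.nodup_cons] at hL
    change (μ q :: ν q :: pairL μ ν L).Nodup
    rw [List.nodup_cons, List.nodup_cons, List.mem_cons]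
    refine ⟨?_, ?_, ih hL.2⟩
    · rintro (h | h)
      · exact hμν _ _ h
      · obtain ⟨q', hq', h | h⟩ := (cat3d_mem_pairL μ ν L _).1 h
        · exact hL.1 (hμ h ▸ hq')
        · exact hμν _ _ h
    · intro h
      obtain ⟨q', hq', h | h⟩ := (cat3d_mem_pairL μ ν L _).1 h
      · exact hμν _ _ h.symm
      · exact hL.1 (hν h ▸ hq')

/-- If a trace invariant of the coordinate matrix of `z` is not zero then `z` is not numerically
trivial.

Proof.  Since `xmat` is supported in the pattern `w` and the sum is not zero, `w (σ q).2 = w q.2` for all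
`q` (look at a nonzero summand).  Let `X q = LX M (lt0 w q)`, `X' p = X p.2` for
`p : Fin (d + 1) × (Fin m ⊕ Fin m)`, `Q = Fin (d + 1) × Fin m`, `ν q = (q.1, inl q.2)`,
`μ q = ((σ⁻¹ q).1, inr (σ⁻¹ q).2)`, `L` a list of all elements of `Q` without repetitions.  The lists
`copies (l0 m) (List.finRange (d + 1))` and `pairL μ ν L` have no repetitions and contain all labels, so
they are permutations of each other; take `f`, `s` from `fL_perm` (the sign rule holds for all letters,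
`hs`).  Take `e q : X' (μ q) ⊗ X' (ν q) ⟶ 𝟙` from `exists_contract`.  Let
`T = pw X (l0 m) z (List.finRange (d + 1)) ≫ f.hom ≫ (pairI X' μ ν L).hom ≫ ctr _ e L`.
For `b : Q → α` let `ψ_b (k, inl s) = D.φ _ (b (k, s))` and `ψ_b (k, inr s) = D.φ _ (b (σ (k, s)))`; then
`ψ_b (ν q) = φ (b q)`, `ψ_b (μ q) = φ (b q)`.  By `uF_ctr`, `fL_expand` (coefficients `1`), `fL_pair`,
`fL_perm`, `fL_pw`:
`uF (H T (one1)) = ∑_b fL ψ_b (pairL μ ν L) (...) = s ∑_b ∏_k fL (ψ_b (k, ·)) (l0 m) (H z one1)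
 = s ∑_b ∏_k xmat (b (k, ·)) (b (σ (k, ·))) ≠ 0`.
Finally `T` factors through `z` by `pw_factor` (`List.finRange (d + 1)` is not empty). -/
theorem exists_test (hs : ∀ p q : I × Bool, SignRule H (LX M p) (LX M q))
    (D : Crd H M S α) {m : ℕ} (w : Fin m → I) (hw : ∀ s, w s ∈ S)
    (z : 𝟙_ C ⟶ NL (fun a => LX M (lt0 w a)) (l0 m)) (d : ℕ)
    (σ : Equiv.Perm (Fin (d + 1) × Fin m))
    (hne : ∑ a : Fin (d + 1) × Fin m → α, ∏ k,
      xmat D w ((H.map z).hom (one1 H)) (fun s => a (k, s)) (fun s => a (σ (k, s))) ≠ 0) :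
    ∃ v : NL (fun a => LX M (lt0 w a)) (l0 m) ⟶ 𝟙_ C, H.map (z ≫ v) ≠ 0 := by
  classical
  -- the colours match
  have hcol : ∀ q : Fin (d + 1) × Fin m, w (σ⁻¹ q).2 = w q.2 := by
    obtain ⟨a, -, ha⟩ := Finset.exists_ne_zero_of_sum_ne_zero hne
    have h1 : ∀ k, xmat D w ((H.map z).hom (one1 H)) (fun s => a (k, s))
        (fun s => a (σ (k, s))) ≠ 0 := fun k h0 =>
      ha (Finset.prod_eq_zero (Finset.mem_univ k) h0)
    have h2 : ∀ q : Fin (d + 1) × Fin m, D.c (a q) = w q.2 := fun q =>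
      (xmat_supp D w _ _ _ (h1 q.1)).1 q.2
    have h3 : ∀ q : Fin (d + 1) × Fin m, D.c (a (σ q)) = w q.2 := fun q =>
      (xmat_supp D w _ _ _ (h1 q.1)).2 q.2
    intro q
    have h4 : σ (σ⁻¹ q) = q := σ.apply_symm_apply q
    rw [← h3 (σ⁻¹ q), h4, h2]
  let X' : Fin (d + 1) × (Fin m ⊕ Fin m) → C := fun p => LX M (lt0 w p.2)
  let ν : Fin (d + 1) × Fin m → Fin (d + 1) × (Fin m ⊕ Fin m) := fun q => (q.1, Sum.inl q.2)
  let μ : Fin (d + 1) × Fin m → Fin (d + 1) × (Fin m ⊕ Fin m) := fun q =>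
    ((σ⁻¹ q).1, Sum.inr (σ⁻¹ q).2)
  let L : List (Fin (d + 1) × Fin m) := Finset.univ.toList
  have hLn : L.Nodup := Finset.nodup_toList _
  have hLm : ∀ q, q ∈ L := fun q => Finset.mem_toList.2 (Finset.mem_univ q)
  have hνi : Function.Injective ν := by
    intro q q' h
    have h1 := congrArg Prod.fst h
    have h2 := Sum.inl_injective (congrArg Prod.snd h)
    exact Prod.ext h1 h2
  have hμi : Function.Injective μ := by
    intro q q' h
    have h1 := congrArg Prod.fst h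
    have h2 := Sum.inr_injective (congrArg Prod.snd h)
    exact (σ⁻¹).injective (Prod.ext h1 h2)
  have hμν : ∀ q q', μ q ≠ ν q' := by
    intro q q' h
    exact Sum.inr_ne_inl (congrArg Prod.snd h)
  have hperm : (copies (l0 m) (List.finRange (d + 1))).Perm (pairL μ ν L) := by
    rw [List.perm_ext_iff_of_nodup
      (cat3d_nodup_copies _ _ (l0_nodup m) (List.nodup_finRange _))
      (cat3d_nodup_pairL μ ν L hLn hμi hνi hμν)]
    intro p
    rw [cat3d_mem_copies, cat3d_mem_pairL]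
    constructor
    · intro _
      obtain ⟨k, a⟩ := p
      rcases a with a | a
      · exact ⟨(k, a), hLm _, Or.inr rfl⟩
      · refine ⟨σ (k, a), hLm _, Or.inl ?_⟩
        have h4 : σ⁻¹ (σ (k, a)) = (k, a) := σ.symm_apply_apply (k, a)
        change (k, Sum.inr a) = ((σ⁻¹ (σ (k, a))).1, Sum.inr (σ⁻¹ (σ (k, a))).2)
        rw [h4]
    · intro _
      exact ⟨List.mem_finRange _, mem_l0 m _⟩
  obtain ⟨f, s, hf⟩ := fL_perm H X' (fun a b => hs (lt0 w a.2) (lt0 w b.2)) hperm
  let Φ : ∀ q : Fin (d + 1) × Fin m, α → Module.Dual K (H.obj (X' (μ q) ⊗ X' (ν q))) :=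
    fun q b => ft H (X := X' (μ q)) (Y := X' (ν q)) (D.φ (w (σ⁻¹ q).2, false) b)
      (D.φ (w q.2, true) b)
  have he : ∀ q : Fin (d + 1) × Fin m, ∃ e : X' (μ q) ⊗ X' (ν q) ⟶ 𝟙_ C,
      uF H ∘ₗ (H.map e).hom = ∑ b, Φ q b := fun q =>
    exists_contract D (w (σ⁻¹ q).2) (w q.2) (hcol q) (hw _)
  choose e he using he
  -- the coordinate functions
  let ψ : (Fin (d + 1) × Fin m → α) → ∀ p : Fin (d + 1) × (Fin m ⊕ Fin m),
      Module.Dual K (H.obj (X' p)) := fun b p =>
    D.φ (lt0 w p.2) (Sum.elim (fun s => b (p.1, s)) (fun s => b (σ (p.1, s))) p.2)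
  have hψμ : ∀ b q, ψ b (μ q) = D.φ (w (σ⁻¹ q).2, false) (b q) := by
    intro b q
    have h4 : σ ((σ⁻¹ q).1, (σ⁻¹ q).2) = q := σ.apply_symm_apply q
    change D.φ (w (σ⁻¹ q).2, false) (b (σ ((σ⁻¹ q).1, (σ⁻¹ q).2))) = _
    rw [h4]
  have hψν : ∀ b q, ψ b (ν q) = D.φ (w q.2, true) (b q) := fun b q => rfl
  obtain ⟨g, hg⟩ : ∃ g : NL (fun a => LX M (lt0 w a)) (l0 m) ⟶
      NL X' (copies (l0 m) (List.finRange (d + 1))),
      pw (fun a => LX M (lt0 w a)) (l0 m) z (List.finRange (d + 1)) = z ≫ g := by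
    rw [List.finRange_succ]
    exact pw_factor (fun a => LX M (lt0 w a)) (l0 m) z (0 : Fin (d + 1))
      ((List.finRange d).map Fin.succ)
  have key : uF H ((H.map (pw (fun a => LX M (lt0 w a)) (l0 m) z (List.finRange (d + 1)) ≫
      f.hom ≫ (pairI X' μ ν L).hom ≫ ctr (fun q => X' (μ q) ⊗ X' (ν q)) e L)).hom (one1 H)) =
      (s : ℤ) • ∑ a : Fin (d + 1) × Fin m → α, ∏ k,
        xmat D w ((H.map z).hom (one1 H)) (fun s => a (k, s)) (fun s => a (σ (k, s))) := by
    rw [map_comp_apply, map_comp_apply, map_comp_apply, uF_ctr]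
    have h1 : (fun q => uF H ∘ₗ (H.map (e q)).hom) = fun q => ∑ b : α, (1 : K) • Φ q b := by
      funext q
      rw [he]
      simp only [one_smul]
    rw [h1, fL_expand H (fun q => X' (μ q) ⊗ X' (ν q)) (fun _ _ => (1 : K)) Φ L hLn hLm,
      LinearMap.sum_apply, Finset.smul_sum]
    refine Finset.sum_congr rfl fun b _ => ?_
    rw [LinearMap.smul_apply, Finset.prod_const_one, one_smul]
    have h2 : (fun q => Φ q (b q)) = fun q => ft H (ψ b (μ q)) (ψ b (ν q)) := by
      funext q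
      rw [hψμ, hψν]
    have h3 := fL_pair H X' μ ν (ψ b) L ((H.map f.hom).hom
      ((H.map (pw (fun a => LX M (lt0 w a)) (l0 m) z (List.finRange (d + 1)))).hom (one1 H)))
    have h4 := fL_pw H (fun a => LX M (lt0 w a)) (l0 m) z (List.finRange (d + 1)) (ψ b)
    rw [hf, h4] at h3
    rw [h2]
    refine h3.trans ?_
    congr 1
  refine ⟨g ≫ f.hom ≫ (pairI X' μ ν L).hom ≫ ctr (fun q => X' (μ q) ⊗ X' (ν q)) e L, ?_⟩
  intro h0
  rw [← Category.assoc, ← hg] at h0
  rw [h0] at key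
  have h5 : uF H ((0 : H.obj (𝟙_ C) ⟶ H.obj (𝟙_ C)).hom (one1 H)) = 0 := by
    rw [ModuleCat.hom_zero, LinearMap.zero_apply, map_zero]
  rw [h5] at key
  rcases Int.units_eq_one_or s with rfl | rfl
  · rw [Units.val_one, one_smul] at key
    exact hne key.symm
  · rw [Units.val_neg, Units.val_one, neg_smul, one_smul] at key
    exact hne (neg_eq_zero.1 key.symm)

end H69
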