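import Pool.Agent.W_f569db_h69.Cat3d
import Pool.Agent.W_f569db_h69.Cat3b
import Pool.Agent.W_f569db_h69.Core

/-!
# The degree zero case, standard words
-/

set_option autoImplicit false
set_option linter.unusedSectionVars false

open CategoryTheory MonoidalCategory

universe u v w t

namespace H69

variable {K : Type u} [Field K] [CharZero K] {C : Type v} [Category.{w} C] [MonoidalCategory C]
  [SymmetricCategory C] [RightRigidCategory C]
  (H : C ⥤ ModuleCat.{u} K) [H.Monoidal] {I : Type t} (M : I → C)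

/-- The rule of signs for all letters.  From `signRule_dual` and `signRule_symm`. -/
theorem signRule_letters (hs : ∀ i j, SignRule H (M i) (M j)) (p q : I × Bool) :
    SignRule H (LX M p) (LX M q) := by
  have h1 : ∀ i j, SignRule H (M i)ᘁ (M j) := fun i j =>
    signRule_dual H (M i) (M i)ᘁ (M j) (hs i j)
  have h2 : ∀ i j, SignRule H (M i) (M j)ᘁ := fun i j =>
    signRule_symm H (M j)ᘁ (M i) (h1 j i)
  have h3 : ∀ i j, SignRule H (M i)ᘁ (M j)ᘁ := fun i j =>
    signRule_dual H (M i) (M i)ᘁ (M j)ᘁ (h2 i j)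
  obtain ⟨i, a⟩ := p
  obtain ⟨j, b⟩ := q
  cases a <;> cases b
  · exact h3 i j
  · exact h1 i j
  · exact h2 i j
  · exact hs i j

/-- An element coming from the unit object is fixed by the monoidal automorphisms. -/
theorem aut_fix {N : C} (z : 𝟙_ C ⟶ N) (θ : H ⟶ H) (hθ : NatTrans.IsMonoidal θ) :
    (θ.app N).hom ((H.map z).hom (one1 H)) = (H.map z).hom (one1 H) := by
  have h := θ.naturality z
  have h2 := congrArg (fun t => t.hom (one1 H)) h
  simp only [ModuleCat.hom_comp, LinearMap.comp_apply] at h2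
  rw [h2, Cat2s_aut_one H θ hθ]

theorem map_eq_zero_iff {N : C} (z : 𝟙_ C ⟶ N) :
    H.map z = 0 ↔ (H.map z).hom (one1 H) = 0 := by
  constructor
  · intro h
    rw [h]
    rfl
  · intro h
    ext x
    have h1 : x = uF H x • one1 H := eq_smul_one1 H x
    rw [h1, map_smul, h, smul_zero]
    rfl

/-- The standard word of degree zero.
Proof.  `exists_crd` for `S` = the image of `w`; `core` for `xmat`; `exists_test`. -/
theorem deg0_std (hs : ∀ i j, SignRule H (M i) (M j)) (hirr : ∀ i, AbsIrr H (M i))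
    {m : ℕ} (w : Fin m → I) (z : 𝟙_ C ⟶ NL (fun a => LX M (lt0 w a)) (l0 m))
    (hz : H.map z ≠ 0) :
    ∃ v : NL (fun a => LX M (lt0 w a)) (l0 m) ⟶ 𝟙_ C, H.map (z ≫ v) ≠ 0 := by
  classical
  obtain ⟨α, hα1, hα2, ⟨D⟩⟩ := exists_crd H M (Finset.univ.image w)
  have hw : ∀ s, w s ∈ Finset.univ.image w := fun s =>
    Finset.mem_image_of_mem w (Finset.mem_univ s)
  have hv : (H.map z).hom (one1 H) ≠ 0 := fun h => hz ((map_eq_zero_iff H z).2 h)
  obtain ⟨d, σ, hne⟩ := core D.c w (xmat D w ((H.map z).hom (one1 H)))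
    (xmat_ne_zero D w hw _ hv) (xmat_supp D w _)
    {γ | γ ∈ BG D.c K ∧ ∃ θ : H ≅ H, NatTrans.IsMonoidal θ.hom ∧
        (∀ i ∈ Finset.univ.image w, ∀ a, D.φ (i, true) a ∘ₗ (θ.hom.app (M i)).hom =
          ∑ b, (γ : Matrix α α K) a b • D.φ (i, true) b) ∧
        (∀ i ∈ Finset.univ.image w, ∀ a, D.φ (i, false) a ∘ₗ (θ.hom.app (M i)ᘁ).hom =
          ∑ b, ((γ⁻¹ : (Matrix α α K)ˣ) : Matrix α α K) b a • D.φ (i, false) b)}
    (fun γ hγ => hγ.1) (fun a b hab => Crd.irr D (fun i _ => hirr i) a b hab)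
    (fun γ hγ => by
      obtain ⟨-, θ, hθ, h1, h2⟩ := hγ
      exact xmat_comm D w hw _ θ hθ (aut_fix H z θ.hom hθ) γ h1 h2)
  exact exists_test (signRule_letters H M hs) D w hw z d σ hne

end H69
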