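import Pool.Agent.W_f569db_h69.Cat3e

/-!
# The degree zero case, all words
-/

set_option autoImplicit false
set_option linter.unusedSectionVars false

open CategoryTheory MonoidalCategory

universe u v w t

namespace H69

variable {K : Type u} [Field K] [CharZero K] {C : Type v} [Category.{w} C] [MonoidalCategory C]
  [SymmetricCategory C] [RightRigidCategory C]
  (H : C ⥤ ModuleCat.{u} K) [H.Monoidal] {I : Type t} (M : I → C)

/-- The degree of a word. -/
noncomputable def degW {I : Type t} (W : List (I × Bool)) : I →₀ ℤ :=
  (W.map fun p => if p.2 then Finsupp.single p.1 (1 : ℤ) else -Finsupp.single p.1 (1 : ℤ)).sum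

/-- Splitting a word in the letters `(i, true)` and the letters `(i, false)` -/
theorem Cat3f_split {I : Type t} (W : List (I × Bool)) : ∃ A B : List I,
    W.Perm (A.map (fun i => (i, true)) ++ B.map (fun i => (i, false))) ∧
      degW W = (A.map fun i => Finsupp.single i (1 : ℤ)).sum -
        (B.map fun i => Finsupp.single i (1 : ℤ)).sum := by
  induction W with
  | nil => exact ⟨[], [], by simp, by simp [degW]⟩
  | cons p W ih =>
    obtain ⟨A, B, h1, h2⟩ := ih
    obtain ⟨i, b⟩ := p
    have h3 : degW ((i, b) :: W) =
        (if b then Finsupp.single i (1 : ℤ) else -Finsupp.single i (1 : ℤ)) + degW W := by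
      simp only [degW, List.map_cons, List.sum_cons]
    cases b with
    | true =>
      refine ⟨i :: A, B, ?_, ?_⟩
      · exact h1.cons (i, true)
      · rw [h3, h2, if_pos rfl, List.map_cons, List.sum_cons]
        abel
    | false =>
      refine ⟨A, i :: B, ?_, ?_⟩
      · rw [List.map_cons]
        exact (h1.cons (i, false)).trans List.perm_middle.symm
      · rw [h3, h2, if_neg (by simp), List.map_cons, List.sum_cons]
        abel

/-- The degree of a list of letters counts the letters -/
theorem Cat3f_count {I : Type t} [DecidableEq I] (A : List I) (j : I) :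
    (A.map fun i => Finsupp.single i (1 : ℤ)).sum j = (A.count j : ℤ) := by
  induction A with
  | nil => simp
  | cons i A ih =>
    rw [List.map_cons, List.sum_cons, Finsupp.add_apply, ih, List.count_cons, Finsupp.single_apply]
    by_cases h : i = j
    · simp [h, add_comm]
    · simp [h]

/-- A word of degree zero is a permutation of a standard word -/
theorem Cat3f_std {I : Type t} (W : List (I × Bool)) (hW : degW W = 0) :
    ∃ (m : ℕ) (w : Fin m → I), W.Perm ((l0 m).map (lt0 w)) := by
  classical
  obtain ⟨A, B, h1, h2⟩ := Cat3f_split W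
  have h3 : A.Perm B := by
    rw [List.perm_iff_count]
    intro j
    rw [hW] at h2
    have h4 := DFunLike.congr_fun h2 j
    rw [Finsupp.sub_apply, Cat3f_count, Cat3f_count, Finsupp.zero_apply] at h4
    omega
  refine ⟨A.length, A.get, h1.trans ?_⟩
  have h5 : (l0 A.length).map (lt0 A.get) =
      A.map (fun i => (i, true)) ++ A.map (fun i => (i, false)) := by
    have e1 : (List.finRange A.length).map (fun s => (A.get s, true)) =
        A.map (fun i => (i, true)) := by
      have e3 := congrArg (List.map fun i => (i, true)) (List.map_get_finRange A)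
      rw [List.map_map] at e3
      exact e3
    have e2 : (List.finRange A.length).map (fun s => (A.get s, false)) =
        A.map (fun i => (i, false)) := by
      have e3 := congrArg (List.map fun i => (i, false)) (List.map_get_finRange A)
      rw [List.map_map] at e3
      exact e3
    rw [← e1, ← e2, l0, List.map_append, List.map_map, List.map_map]
    rfl
  rw [h5]
  exact List.Perm.append_left _ (h3.symm.map _)

/-- Words of degree zero.
Proof.  A word of degree zero is a permutation of `(l0 m).map (lt0 w)` for some `m`, `w` (`m` = the number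
of the letters `(i, true)`, `w` = their list; the list of the `i` with `(i, false)` in the word is a
permutation of it, by counting).  Use the isomorphism of `fL_perm` and `mapI` and `deg0_std`. -/
theorem deg0 (hs : ∀ i j, SignRule H (M i) (M j)) (hirr : ∀ i, AbsIrr H (M i))
    (W : List (I × Bool)) (hW : degW W = 0) (z : 𝟙_ C ⟶ NL (LX M) W) (hz : H.map z ≠ 0) :
    ∃ v : NL (LX M) W ⟶ 𝟙_ C, H.map (z ≫ v) ≠ 0 := by
  obtain ⟨m, w, hp⟩ := Cat3f_std W hW
  obtain ⟨f, -, -⟩ := fL_perm H (LX M) (signRule_letters H M hs) hp
  let g : NL (LX M) W ≅ NL (fun a => LX M (lt0 w a)) (l0 m) :=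
    f ≪≫ (mapI (LX M) (lt0 w) (l0 m)).symm
  have hz' : H.map (z ≫ g.hom) ≠ 0 := by
    intro h0
    apply hz
    have h1 : H.map z = H.map (z ≫ g.hom) ≫ H.map g.inv := by
      rw [← H.map_comp, Category.assoc, g.hom_inv_id, Category.comp_id]
    rw [h1, h0, Limits.zero_comp]
  obtain ⟨v, hv⟩ := deg0_std H M hs hirr w (z ≫ g.hom) hz'
  exact ⟨g.hom ≫ v, by rwa [← Category.assoc]⟩

end H69
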