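import Pool.Agent.W_f569db_h69.Cat3f

/-!
# The degrees of the morphisms which are not killed by the realisation
-/

set_option autoImplicit false
set_option linter.unusedSectionVars false

open CategoryTheory MonoidalCategory

universe u v w t

namespace H69

variable {K : Type u} [Field K] [CharZero K] {C : Type v} [Category.{w} C] [MonoidalCategory C]
  [SymmetricCategory C] [RightRigidCategory C]
  (H : C ⥤ ModuleCat.{u} K) [H.Monoidal] {I : Type t} (M : I → C)

/-- `d` is the degree of a word `W` for which there is a morphism `𝟙 ⟶ NL W` not killed by `H`. -/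
def HasDeg (d : I →₀ ℤ) : Prop :=
  ∃ (W : List (I × Bool)) (z : 𝟙_ C ⟶ NL (LX M) W), degW W = d ∧ H.map z ≠ 0

omit [CharZero K] [SymmetricCategory C] [RightRigidCategory C] in
theorem cat4_map_one (X : C) : (H.map (𝟙 X)).hom = LinearMap.id := by
  rw [H.map_id]; rfl

omit [CharZero K] [SymmetricCategory C] [RightRigidCategory C] in
theorem cat4_iso_ne_zero {X Y : C} (e : X ≅ Y) {x : H.obj X} (hx : x ≠ 0) :
    (H.map e.hom).hom x ≠ 0 := by
  intro h
  apply hx
  have h1 : (H.map e.inv).hom ((H.map e.hom).hom x) = x := by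
    rw [← map_comp_apply, e.hom_inv_id, cat4_map_one]; rfl
  rw [← h1, h, map_zero]

theorem HasDeg.zero : HasDeg H M 0 := by
  refine ⟨[], 𝟙 (𝟙_ C), rfl, fun h => ?_⟩
  have h1 := (map_eq_zero_iff H (𝟙 (𝟙_ C))).1 h
  rw [cat4_map_one] at h1
  have h2 := congrArg (uF H) h1
  rw [LinearMap.id_apply, uF_one1, map_zero] at h2
  exact one_ne_zero h2

/-- The external product of two morphisms from the unit object. -/
def cat4z {W W' : List (I × Bool)} (z : 𝟙_ C ⟶ NL (LX M) W) (z' : 𝟙_ C ⟶ NL (LX M) W') :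
    𝟙_ C ⟶ NL (LX M) (W ++ W') :=
  (ρ_ (𝟙_ C)).inv ≫ (z ⊗ₘ z') ≫ (appI (LX M) W W').hom

theorem cat4z_ne_zero {W W' : List (I × Bool)} (z : 𝟙_ C ⟶ NL (LX M) W)
    (z' : 𝟙_ C ⟶ NL (LX M) W') (hz : H.map z ≠ 0) (hz' : H.map z' ≠ 0) :
    H.map (cat4z M z z') ≠ 0 := by
  intro h
  have h1 := (map_eq_zero_iff H (cat4z M z z')).1 h
  have hx : (H.map z).hom (one1 H) ≠ 0 := fun h => hz ((map_eq_zero_iff H z).2 h)
  have hy : (H.map z').hom (one1 H) ≠ 0 := fun h => hz' ((map_eq_zero_iff H z').2 h)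
  rw [cat4z, map_comp_apply, map_comp_apply, map_rightUnitor_inv, map_tensor_bt] at h1
  exact cat4_iso_ne_zero H (appI (LX M) W W') (bt_ne_zero H hx hy) h1

theorem cat4_degW_append (W W' : List (I × Bool)) : degW (W ++ W') = degW W + degW W' := by
  simp [degW]

/-- `bt_ne_zero`, `appI`. -/
theorem HasDeg.add {d d' : I →₀ ℤ} (h : HasDeg H M d) (h' : HasDeg H M d') :
    HasDeg H M (d + d') := by
  obtain ⟨W, z, hW, hz⟩ := h
  obtain ⟨W', z', hW', hz'⟩ := h'
  exact ⟨W ++ W', cat4z M z z', by rw [cat4_degW_append, hW, hW'],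
    cat4z_ne_zero H M z z' hz hz'⟩

theorem HasDeg.sum {β : Type*} (s : Finset β) (f : β → (I →₀ ℤ)) (h : ∀ b ∈ s, HasDeg H M (f b)) :
    HasDeg H M (∑ b ∈ s, f b) :=
  Finset.sum_induction f (HasDeg H M) (fun _ _ => HasDeg.add H M) (HasDeg.zero H M) h

theorem HasDeg.nsmul {d : I →₀ ℤ} (h : HasDeg H M d) (n : ℕ) : HasDeg H M (n • d) := by
  induction n with
  | zero => rw [zero_smul]; exact HasDeg.zero H M
  | succ n ih => rw [succ_nsmul]; exact HasDeg.add H M ih h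

/-- The criterion.
Proof.  `z ⊗ t` with `t` of degree `- d`; `deg0`; the morphism
`(ρ_ _).inv ≫ (NL W ◁ t) ≫ (appI ..).hom ≫ v` is the test morphism for `z`. -/
theorem key (hs : ∀ i j, SignRule H (M i) (M j)) (hirr : ∀ i, AbsIrr H (M i))
    (W : List (I × Bool)) (z : 𝟙_ C ⟶ NL (LX M) W) (hz : H.map z ≠ 0)
    (h : HasDeg H M (-degW W)) : ∃ v : NL (LX M) W ⟶ 𝟙_ C, H.map (z ≫ v) ≠ 0 := by
  obtain ⟨W', t, hW', ht⟩ := h
  obtain ⟨v, hv⟩ := deg0 H M hs hirr (W ++ W')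
    (by rw [cat4_degW_append, hW', add_neg_cancel]) (cat4z M z t) (cat4z_ne_zero H M z t hz ht)
  refine ⟨(ρ_ _).inv ≫ (NL (LX M) W ◁ t) ≫ (appI (LX M) W W').hom ≫ v, ?_⟩
  have e : z ≫ (ρ_ _).inv ≫ (NL (LX M) W ◁ t) ≫ (appI (LX M) W W').hom ≫ v =
      cat4z M z t ≫ v := by
    rw [cat4z, MonoidalCategory.tensorHom_def, rightUnitor_inv_naturality_assoc]
    simp only [Category.assoc]
  rw [e]
  exact hv

end H69
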