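import Pool.Agent.W_f569db_h69.Cat4

/-!
# Degrees: morphisms between words, pairings, copairings
-/

set_option autoImplicit false
set_option linter.unusedSectionVars false

open CategoryTheory MonoidalCategory

universe u v w t

namespace H69

variable {K : Type u} [Field K] [CharZero K] {C : Type v} [Category.{w} C] [MonoidalCategory C]
  [SymmetricCategory C] [RightRigidCategory C]
  (H : C ⥤ ModuleCat.{u} K) [H.Monoidal] {I : Type t} (M : I → C)

/-- Composition with isomorphisms on both sides does not change whether `H` kills a morphism. -/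
theorem cat4b_iso_ne {X Y X' Y' : C} (a : X' ≅ X) (p : X ⟶ Y) (b : Y ≅ Y')
    (hp : H.map p ≠ 0) : H.map (a.hom ≫ p ≫ b.hom) ≠ 0 := by
  intro h
  apply hp
  have h1 : p = a.inv ≫ (a.hom ≫ p ≫ b.hom) ≫ b.inv := by simp
  rw [h1, H.map_comp, H.map_comp (a.hom ≫ p ≫ b.hom), h]
  simp

/-- `H` kills `g ▷ Z` if it kills `g`. -/
theorem cat4b_whisker_zero {X Y : C} (g : X ⟶ Y) (Z : C) (hg : H.map g = 0) :
    H.map (g ▷ Z) = 0 := by
  ext1
  refine bt_ext H fun x y => ?_
  rw [map_whiskerRight_bt, hg]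
  simp [bt]

/-- The tensor power as a word. -/
def cat4b_tpowI (i₀ : I) : (n : ℕ) →
    (tpow (M i₀) n ≅ NL (LX M) (List.replicate n (i₀, true)))
  | 0 => Iso.refl _
  | n + 1 => whiskerLeftIso (M i₀) (cat4b_tpowI i₀ n)

/-- The tensor power as a word without dual letters. -/
def cat4b_tpowJ (i₀ : I) : (n : ℕ) → (NL M (List.replicate n i₀) ≅ tpow (M i₀) n)
  | 0 => Iso.refl _
  | n + 1 => whiskerLeftIso (M i₀) (cat4b_tpowJ i₀ n)

theorem cat4b_degW_append (W W' : List (I × Bool)) : degW (W ++ W') = degW W + degW W' := by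
  simp [degW, List.sum_append]

/-- A morphism from a word without dual letters to a word.
Proof.  By induction on `u`, for all `W`: a morphism `f : X ⊗ NL u ⟶ NL W` gives
`g : NL u ⟶ NL W ⊗ Xᘁ` (swap the factors of the source, then `tensorRightHomEquiv`; `f` can be
recovered from `g` by compositions and whiskering, so `H g = 0` would give `H f = 0`), and
`NL W ⊗ Xᘁ` is isomorphic to `NL (W ++ [(i, false)])`. -/
theorem HasDeg.of_hom (l : List I) (W : List (I × Bool)) (f : NL M l ⟶ NL (LX M) W)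
    (hf : H.map f ≠ 0) :
    HasDeg H M (degW W - (l.map fun i => Finsupp.single i (1 : ℤ)).sum) := by
  induction l generalizing W with
  | nil =>
    refine ⟨W, f, ?_, hf⟩
    simp
  | cons i l ih =>
    let f1 : NL M l ⊗ M i ⟶ NL (LX M) W :=
      (β_ (NL M l) (M i)).hom ≫ (show M i ⊗ NL M l ⟶ NL (LX M) W from f)
    let g1 : NL M l ⟶ NL (LX M) W ⊗ (M i)ᘁ :=
      tensorRightHomEquiv (NL M l) (M i) (M i)ᘁ (NL (LX M) W) f1
    let J : NL (LX M) W ⊗ (M i)ᘁ ≅ NL (LX M) (W ++ [(i, false)]) :=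
      whiskerLeftIso (NL (LX M) W) (ρ_ (M i)ᘁ).symm ≪≫ appI (LX M) W [(i, false)]
    have hf1 : H.map f1 ≠ 0 := by
      intro h
      apply hf
      have h1 : (show M i ⊗ NL M l ⟶ NL (LX M) W from f) = (β_ (NL M l) (M i)).inv ≫ f1 := by
        simp [f1]
      have h2 : H.map (show M i ⊗ NL M l ⟶ NL (LX M) W from f) = 0 := by
        rw [h1, H.map_comp, h]
        simp
      exact h2
    have hg1 : H.map g1 ≠ 0 := by
      intro h
      apply hf1
      have h1 : f1 = (tensorRightHomEquiv (NL M l) (M i) (M i)ᘁ (NL (LX M) W)).symm g1 := by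
        simp [g1]
      have h2 : f1 = g1 ▷ (M i) ≫ ((α_ _ _ _).hom ≫ NL (LX M) W ◁ ε_ (M i) (M i)ᘁ ≫ (ρ_ _).hom) := by
        rw [h1]
        rfl
      rw [h2, H.map_comp, cat4b_whisker_zero H g1 (M i) h]
      simp
    have hg : H.map (g1 ≫ J.hom) ≠ 0 := by
      have := cat4b_iso_ne H (Iso.refl _) g1 J hg1
      simpa using this
    obtain ⟨W', z, hW', hz⟩ := ih (W ++ [(i, false)]) (g1 ≫ J.hom) hg
    refine ⟨W', z, ?_, hz⟩
    rw [hW', cat4b_degW_append]
    simp [degW]
    abel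

/-- Pairings and copairings, from `HasDeg.of_hom`. -/
theorem HasDeg.of_pairing (i j i₀ : I) (n : ℕ) (p : M i ⊗ M j ⟶ tpow (M i₀) n)
    (hp : H.map p ≠ 0) :
    HasDeg H M (n • Finsupp.single i₀ (1 : ℤ) - Finsupp.single i 1 - Finsupp.single j 1) := by
  let a : NL M [i, j] ≅ M i ⊗ M j := whiskerLeftIso (M i) (ρ_ (M j))
  have h := HasDeg.of_hom H M [i, j] (List.replicate n (i₀, true))
    (a.hom ≫ p ≫ (cat4b_tpowI M i₀ n).hom) (cat4b_iso_ne H a p _ hp)
  have h2 : degW (List.replicate n (i₀, true)) -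
      (([i, j] : List I).map fun i => Finsupp.single i (1 : ℤ)).sum =
      n • Finsupp.single i₀ (1 : ℤ) - Finsupp.single i 1 - Finsupp.single j 1 := by
    simp [degW, sub_sub]
  rw [← h2]
  exact h

theorem HasDeg.of_copairing (i j i₀ : I) (n : ℕ) (q : tpow (M i₀) n ⟶ M i ⊗ M j)
    (hq : H.map q ≠ 0) :
    HasDeg H M (Finsupp.single i (1 : ℤ) + Finsupp.single j 1 - n • Finsupp.single i₀ (1 : ℤ)) := by
  let b : M i ⊗ M j ≅ NL (LX M) [(i, true), (j, true)] :=
    whiskerLeftIso (M i) (ρ_ (M j)).symm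
  have h := HasDeg.of_hom H M (List.replicate n i₀) [(i, true), (j, true)]
    ((cat4b_tpowJ M i₀ n).hom ≫ q ≫ b.hom) (cat4b_iso_ne H _ q b hq)
  have h2 : degW [(i, true), (j, true)] -
      ((List.replicate n i₀).map fun i => Finsupp.single i (1 : ℤ)).sum =
      Finsupp.single i (1 : ℤ) + Finsupp.single j 1 - n • Finsupp.single i₀ (1 : ℤ) := by
    simp [degW]
  rw [← h2]
  exact h

end H69
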