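import Pool.Agent.W_f569db_h69.Cat4

/-!
# Degrees: weights
-/

set_option autoImplicit false
set_option linter.unusedSectionVars false

open CategoryTheory MonoidalCategory

universe u v w t

namespace H69

variable {K : Type u} [Field K] [CharZero K] {C : Type v} [Category.{w} C] [MonoidalCategory C]
  [SymmetricCategory C] [RightRigidCategory C]
  (H : C ⥤ ModuleCat.{u} K) [H.Monoidal] {I : Type t} (M : I → C)

theorem Cat4c_letter (n : I → ℕ) (θ : H ≅ H) (hθ : NatTrans.IsMonoidal θ.hom)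
    (hn : ∀ i, θ.hom.app (M i) = (2 : K) ^ n i • 𝟙 (H.obj (M i))) (p : I × Bool)
    (x : H.obj (LX M p)) : (θ.hom.app (LX M p)).hom x =
      ((2 : K) ^ (if p.2 then (n p.1 : ℤ) else -(n p.1 : ℤ))) • x := by
  have h2 : (2 : K) ≠ 0 := two_ne_zero
  have hM : ∀ (i : I) (x : H.obj (M i)), (θ.hom.app (M i)).hom x = ((2 : K) ^ n i) • x := by
    intro i x
    rw [hn i]
    rfl
  obtain ⟨i, b⟩ := p
  cases b with
  | true =>
    rw [if_pos rfl, zpow_natCast]
    exact hM i x
  | false =>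
    change H.obj (M i)ᘁ at x
    change (θ.hom.app (M i)ᘁ).hom x = ((2 : K) ^ (-(n i : ℤ))) • x
    have key : (2 : K) ^ n i • (θ.hom.app (M i)ᘁ).hom x = x := by
      obtain ⟨N, e, φ', e', h1, h3, -⟩ := exists_coord H (M i) (M i)ᘁ
      have h4 : ∀ t, φ' t ((2 : K) ^ n i • (θ.hom.app (M i)ᘁ).hom x) = φ' t x := by
        intro t
        have h5 := prg_aut H (M i) (M i)ᘁ θ.hom hθ x (e t)
        rw [hM i (e t), prg_smul_right] at h5
        rw [map_smul, h1, h1]
        exact h5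
      rw [h3 ((2 : K) ^ n i • (θ.hom.app (M i)ᘁ).hom x)]
      conv_rhs => rw [h3 x]
      exact Finset.sum_congr rfl fun t _ => by rw [h4 t]
    conv_rhs => rw [← key]
    rw [smul_smul, zpow_neg, zpow_natCast, inv_mul_cancel₀ (pow_ne_zero _ h2), one_smul]

theorem Cat4c_word (n : I → ℕ) (θ : H ≅ H) (hθ : NatTrans.IsMonoidal θ.hom)
    (hn : ∀ i, θ.hom.app (M i) = (2 : K) ^ n i • 𝟙 (H.obj (M i))) (W : List (I × Bool))
    (v : H.obj (NL (LX M) W)) : (θ.hom.app (NL (LX M) W)).hom v =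
      ((2 : K) ^ (W.map fun p => if p.2 then (n p.1 : ℤ) else -(n p.1 : ℤ)).sum) • v := by
  have h2 : (2 : K) ≠ 0 := two_ne_zero
  induction W with
  | nil =>
    change H.obj (𝟙_ C) at v
    change (θ.hom.app (𝟙_ C)).hom v = ((2 : K) ^ (0 : ℤ)) • v
    rw [zpow_zero, one_smul]
    conv_lhs => rw [eq_smul_one1 H v]
    rw [map_smul, Cat2s_aut_one H θ.hom hθ]
    exact (eq_smul_one1 H v).symm
  | cons p W ih =>
    have key : (θ.hom.app (LX M p ⊗ NL (LX M) W)).hom =
        ((2 : K) ^ ((p :: W).map fun p => if p.2 then (n p.1 : ℤ) else -(n p.1 : ℤ)).sum) •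
          (LinearMap.id : H.obj (LX M p ⊗ NL (LX M) W) →ₗ[K] H.obj (LX M p ⊗ NL (LX M) W)) := by
      refine bt_ext H fun x y => ?_
      rw [Cat2s_aut_bt H θ.hom hθ, Cat4c_letter H M n θ hθ hn, ih, bt_smul_left, bt_smul_right,
        smul_smul, ← zpow_add₀ h2, List.map_cons, List.sum_cons]
      rfl
    exact LinearMap.congr_fun key v

theorem Cat4c_deg (n : I → ℕ) (W : List (I × Bool)) :
    ((degW W).sum fun i k => k * (n i : ℤ)) =
      (W.map fun p => if p.2 then (n p.1 : ℤ) else -(n p.1 : ℤ)).sum := by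
  let L : (I →₀ ℤ) →+ ℤ := Finsupp.liftAddHom fun i => AddMonoidHom.mulRight (n i : ℤ)
  have hL : ∀ d : I →₀ ℤ, (d.sum fun i k => k * (n i : ℤ)) = L d := fun d => rfl
  rw [hL]
  unfold degW
  rw [map_list_sum, List.map_map]
  congr 1
  refine List.map_congr_left fun p _ => ?_
  have h1 : L (Finsupp.single p.1 1) = (n p.1 : ℤ) := by
    rw [← hL, Finsupp.sum_single_index (by simp), one_mul]
  simp only [Function.comp]
  split_ifs with hp
  · exact h1
  · rw [map_neg, h1]

/-- Weights.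
Proof.  `θ` acts on the realisation of a letter `(i, true)` as `2 ^ n i` and on `(i, false)` as
`2 ^ (- n i)` (`prg_aut`), so on the realisation of `NL W` as `2 ^ (weight)`; it fixes the elements
which come from the unit object. -/
theorem HasDeg.weight {d : I →₀ ℤ} (h : HasDeg H M d) (n : I → ℕ) (θ : H ≅ H)
    (hθ : NatTrans.IsMonoidal θ.hom) (hn : ∀ i, θ.hom.app (M i) = (2 : K) ^ n i • 𝟙 (H.obj (M i))) :
    (d.sum fun i k => k * (n i : ℤ)) = 0 := by
  obtain ⟨W, z, hd, hz⟩ := h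
  rw [← hd, Cat4c_deg]
  set N := (W.map fun p => if p.2 then (n p.1 : ℤ) else -(n p.1 : ℤ)).sum with hN
  have hv : (H.map z).hom (one1 H) ≠ 0 := by
    intro h0
    apply hz
    ext x
    have h1 := eq_smul_one1 H x
    rw [h1, map_smul, h0, smul_zero]
    rfl
  have h3 : (θ.hom.app (NL (LX M) W)).hom ((H.map z).hom (one1 H)) =
      (H.map z).hom (one1 H) := by
    have h4 := θ.hom.naturality z
    have h5 := congrArg (fun t => t.hom (one1 H)) h4
    simp only [ModuleCat.hom_comp, LinearMap.comp_apply] at h5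
    rw [Cat2s_aut_one H θ.hom hθ] at h5
    exact h5
  rw [Cat4c_word H M n θ hθ hn] at h3
  have h6 : ((2 : K) ^ N - 1) • (H.map z).hom (one1 H) = 0 := by
    rw [sub_smul, one_smul, hN, h3, sub_self]
  have h7 : (2 : K) ^ N = 1 := by
    rcases smul_eq_zero.1 h6 with h8 | h8
    · exact sub_eq_zero.1 h8
    · exact absurd h8 hv
  have h8 : (2 : ℚ) ^ N = 1 := by
    have h9 : (((2 : ℚ) ^ N : ℚ) : K) = ((1 : ℚ) : K) := by
      push_cast
      exact h7
    exact Rat.cast_injective h9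
  have h9 : (2 : ℚ) ^ N = (2 : ℚ) ^ (0 : ℤ) := by rw [h8, zpow_zero]
  exact zpow_right_injective₀ (by norm_num : (0 : ℚ) < 2) (by norm_num) h9

end H69
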