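import Pool.Agent.W_f569db_h69.Cat4

/-!
# Degrees: conjugation
-/

set_option autoImplicit false
set_option linter.unusedSectionVars false

open CategoryTheory MonoidalCategory

universe u v w t

namespace H69

variable {K : Type u} [Field K] [CharZero K] {C : Type v} [Category.{w} C] [MonoidalCategory C]
  [SymmetricCategory C] [RightRigidCategory C]
  (H : C ⥤ ModuleCat.{u} K) [H.Monoidal] {I : Type t} (M : I → C)

/-- A monoidal functor preserves exact pairings. -/
theorem exists_mapPairing (F : C ⥤ C) [F.Monoidal] (X Y : C) [ExactPairing X Y] :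
    Nonempty (ExactPairing (F.obj X) (F.obj Y)) := by
  refine ⟨{ coevaluation' := Functor.LaxMonoidal.ε F ≫ F.map (η_ X Y) ≫ Functor.OplaxMonoidal.δ F X Y
            evaluation' := Functor.LaxMonoidal.μ F Y X ≫ F.map (ε_ X Y) ≫ Functor.OplaxMonoidal.η F
            coevaluation_evaluation' := ?_
            evaluation_coevaluation' := ?_ }⟩
  · have h := congrArg (fun f => F.obj Y ◁ Functor.LaxMonoidal.ε F ≫
      Functor.LaxMonoidal.μ F Y (𝟙_ C) ≫ F.map f ≫ Functor.OplaxMonoidal.δ F (𝟙_ C) Y ≫
      Functor.OplaxMonoidal.η F ▷ F.obj Y) (ExactPairing.coevaluation_evaluation X Y)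
    simp only [Functor.map_comp, Functor.Monoidal.map_whiskerLeft,
      Functor.Monoidal.map_whiskerRight, Functor.Monoidal.map_associator_inv,
      Functor.Monoidal.map_rightUnitor, Functor.Monoidal.map_leftUnitor_inv, Category.assoc,
      Functor.Monoidal.μ_δ_assoc] at h
    simp only [MonoidalCategory.whiskerLeft_comp, MonoidalCategory.comp_whiskerRight,
      Category.assoc]
    rw [h]
    simp
  · have h := congrArg (fun f => Functor.LaxMonoidal.ε F ▷ F.obj X ≫
      Functor.LaxMonoidal.μ F (𝟙_ C) X ≫ F.map f ≫ Functor.OplaxMonoidal.δ F X (𝟙_ C) ≫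
      F.obj X ◁ Functor.OplaxMonoidal.η F) (ExactPairing.evaluation_coevaluation X Y)
    simp only [Functor.map_comp, Functor.Monoidal.map_whiskerLeft,
      Functor.Monoidal.map_whiskerRight, Functor.Monoidal.map_associator,
      Functor.Monoidal.map_leftUnitor, Functor.Monoidal.map_rightUnitor_inv, Category.assoc,
      Functor.Monoidal.μ_δ_assoc] at h
    simp only [MonoidalCategory.whiskerLeft_comp, MonoidalCategory.comp_whiskerRight,
      Category.assoc]
    rw [h]
    simp

theorem Cat4d_letter (g : I → I) (F : C ⥤ C) [F.Monoidal]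
    (hF : ∀ i, Nonempty (F.obj (M i) ≅ M (g i))) (a : I × Bool) :
    Nonempty (F.obj (LX M a) ≅ LX M (g a.1, a.2)) := by
  obtain ⟨i, b⟩ := a
  obtain ⟨e⟩ := hF i
  cases b with
  | true => exact ⟨e⟩
  | false =>
    obtain ⟨p⟩ := exists_mapPairing F (M i) ((M i)ᘁ)
    letI := p
    have q : ExactPairing (M (g i)) (F.obj ((M i)ᘁ)) :=
      exactPairingCongrLeft (X := M (g i)) (X' := F.obj (M i)) (Y := F.obj ((M i)ᘁ)) e.symm
    exact ⟨rightDualIso q HasRightDual.exact⟩

theorem Cat4d_word (g : I → I) (F : C ⥤ C) [F.Monoidal]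
    (hF : ∀ i, Nonempty (F.obj (M i) ≅ M (g i))) (W : List (I × Bool)) :
    Nonempty (F.obj (NL (LX M) W) ≅ NL (LX M) (W.map fun a => (g a.1, a.2))) := by
  induction W with
  | nil => exact ⟨(Functor.Monoidal.εIso F).symm⟩
  | cons a W ih =>
    obtain ⟨e⟩ := ih
    obtain ⟨e'⟩ := Cat4d_letter M g F hF a
    exact ⟨(Functor.Monoidal.μIso F (LX M a) (NL (LX M) W)).symm ≪≫ (e' ⊗ᵢ e)⟩

theorem Cat4d_deg (g : I → I) (W : List (I × Bool)) :
    degW (W.map fun a => (g a.1, a.2)) = (degW W).mapDomain g := by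
  induction W with
  | nil => simp [degW]
  | cons a W ih =>
    have h1 : ∀ (b : I × Bool) (V : List (I × Bool)), degW (b :: V) =
        (if b.2 then Finsupp.single b.1 (1 : ℤ) else -Finsupp.single b.1 (1 : ℤ)) + degW V := by
      intro b V
      simp [degW]
    rw [List.map_cons, h1, h1, ih, Finsupp.mapDomain_add]
    congr 1
    obtain ⟨i, b⟩ := a
    cases b
    · simp only [Bool.false_eq_true, if_false]
      rw [← Finsupp.single_neg, ← Finsupp.single_neg, Finsupp.mapDomain_single]
    · simp only [if_true]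
      rw [Finsupp.mapDomain_single]

/-- Conjugation.
Proof.  `F (NL W)` is isomorphic to `NL (g W)`: by `exists_mapPairing` and `rightDualIso` also the dual
letters are mapped to the right letters. -/
theorem HasDeg.conj {d : I →₀ ℤ} (h : HasDeg H M d) (g : I → I) (F : C ⥤ C) [F.Monoidal]
    (hF : ∀ i, Nonempty (F.obj (M i) ≅ M (g i)))
    (hF0 : ∀ {X Y : C} (f : X ⟶ Y), H.map (F.map f) = 0 → H.map f = 0) :
    HasDeg H M (d.mapDomain g) := by
  obtain ⟨W, z, hW, hz⟩ := h
  obtain ⟨e⟩ := Cat4d_word M g F hF W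
  refine ⟨W.map fun a => (g a.1, a.2), Functor.LaxMonoidal.ε F ≫ F.map z ≫ e.hom, ?_, ?_⟩
  · rw [Cat4d_deg, hW]
  · intro h0
    apply hz
    apply hF0
    have h1 := congrArg (fun f => H.map (Functor.OplaxMonoidal.η F) ≫ f ≫ H.map e.inv) h0
    simp only [Limits.zero_comp, Limits.comp_zero] at h1
    rw [← h1, H.map_comp, H.map_comp, Category.assoc, Category.assoc, ← H.map_comp e.hom,
      Iso.hom_inv_id, H.map_id, Category.comp_id, ← Category.assoc, ← H.map_comp,
      Functor.Monoidal.η_ε, H.map_id, Category.id_comp]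

end H69
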