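import Mathlib

/-!
# Combinatorics of degrees
-/

set_option autoImplicit false
set_option linter.unusedSectionVars false

universe t

namespace H69

/-- Combinatorics of degrees.  `T` is a set of degrees closed under addition and under the finite group
`G`, all its elements have weight zero, and for each `i` there is `g` such that
`± (e_i + e_{g i} - n_i e_{i₀})` are in `T`.  Then `T = -T`.

Proof.  Write `p_i = e_i + e_{g_i i} - n_i e_{i₀}`.  For all `g ∈ G`, `± g p_i ∈ T`, and `g i₀ = i₀`, so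
`± P_i ∈ T` with `P_i = ∑_g g p_i = 2 ∑_g e_{g i} - |G| n_i e_{i₀}` (reindex `g ↦ g g_i`).
For `d ∈ T`: `2 ∑_g g d = ∑_i d_i (P_i + |G| n_i e_{i₀}) = ∑_i d_i P_i` (weight zero), so
`- 2 ∑_g g d ∈ T`; and `- 2 d = 2 ∑_{g ≠ 1} g d - 2 ∑_g g d ∈ T`, `- d = - 2 d + d ∈ T`. -/
theorem neg_mem_of_orbits {I : Type t} {G : Type*} [Group G] [Finite G] [MulAction G I] (i₀ : I)
    (hG0 : ∀ g : G, g • i₀ = i₀) (n : I → ℕ) (T : Set (I →₀ ℤ)) (h0 : (0 : I →₀ ℤ) ∈ T)
    (hadd : ∀ d ∈ T, ∀ d' ∈ T, d + d' ∈ T)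
    (hwt : ∀ d ∈ T, (d.sum fun i k => k * (n i : ℤ)) = 0)
    (hG : ∀ d ∈ T, ∀ g : G, d.mapDomain (fun i => g • i) ∈ T)
    (hp : ∀ i, ∃ g : G,
      n i • Finsupp.single i₀ (1 : ℤ) - Finsupp.single i 1 - Finsupp.single (g • i) 1 ∈ T ∧
      Finsupp.single i (1 : ℤ) + Finsupp.single (g • i) 1 - n i • Finsupp.single i₀ (1 : ℤ) ∈ T)
    (d : I →₀ ℤ) (hd : d ∈ T) : -d ∈ T := by
  classical
  have := Fintype.ofFinite G
  let M : AddSubmonoid (I →₀ ℤ) := ⟨⟨T, fun {a b} ha hb => hadd a ha b hb⟩, h0⟩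
  have hM : ∀ x, x ∈ M ↔ x ∈ T := fun x => Iff.rfl
  let A : G → (I →₀ ℤ) →+ (I →₀ ℤ) := fun g => Finsupp.mapDomain.addMonoidHom (fun i => g • i)
  have hA : ∀ g x, A g x = Finsupp.mapDomain (fun i => g • i) x := fun g x => rfl
  have hA1 : ∀ x, A 1 x = x := by
    intro x
    rw [hA]
    have : (fun i : I => (1 : G) • i) = id := by
      funext i
      simp
    rw [this, Finsupp.mapDomain_id]
  have hAs : ∀ g i (k : ℤ), A g (Finsupp.single i k) = Finsupp.single (g • i) k := by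
    intro g i k
    rw [hA, Finsupp.mapDomain_single]
  let S : (I →₀ ℤ) →+ (I →₀ ℤ) := ∑ g : G, A g
  have hS : ∀ x, S x = ∑ g : G, A g x := by
    intro x
    show (∑ g : G, A g) x = _
    rw [AddMonoidHom.finsetSum_apply]
  have hS0 : S (Finsupp.single i₀ 1) = (Fintype.card G : ℤ) • Finsupp.single i₀ 1 := by
    rw [hS]
    have : ∀ g ∈ (Finset.univ : Finset G), A g (Finsupp.single i₀ (1 : ℤ)) =
        Finsupp.single i₀ 1 := by
      intro g _
      rw [hAs, hG0]
    rw [Finset.sum_congr rfl this, Finset.sum_const, Finset.card_univ, natCast_zsmul]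
  have hSg : ∀ (g : G) i, S (Finsupp.single (g • i) 1) = S (Finsupp.single i 1) := by
    intro g i
    rw [hS, hS]
    refine Fintype.sum_equiv (Equiv.mulRight g) _ _ ?_
    intro x
    rw [hAs, hAs, Equiv.coe_mulRight, mul_smul]
  have hSM : ∀ x ∈ M, S x ∈ M := by
    intro x hx
    rw [hS]
    exact M.sum_mem fun g _ => hG x hx g
  -- the elements P i
  let P : I → (I →₀ ℤ) := fun i => (2 : ℤ) • S (Finsupp.single i 1) -
    (n i : ℤ) • (Fintype.card G : ℤ) • Finsupp.single i₀ (1 : ℤ)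
  have hP : ∀ i, P i ∈ M ∧ -P i ∈ M := by
    intro i
    obtain ⟨g, h1, h2⟩ := hp i
    have h3 := hSM _ h2
    have h4 := hSM _ h1
    have e3 : S (Finsupp.single i (1 : ℤ) + Finsupp.single (g • i) 1 -
        n i • Finsupp.single i₀ (1 : ℤ)) = P i := by
      rw [map_sub, map_add, hSg, map_nsmul, hS0]
      show _ = (2 : ℤ) • S (Finsupp.single i 1) -
        (n i : ℤ) • (Fintype.card G : ℤ) • Finsupp.single i₀ (1 : ℤ)
      rw [two_smul, natCast_zsmul (Finsupp.single i₀ (1 : ℤ)),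
        natCast_zsmul (Fintype.card G • Finsupp.single i₀ (1 : ℤ)) (n i)]
    have e4 : S (n i • Finsupp.single i₀ (1 : ℤ) - Finsupp.single i 1 -
        Finsupp.single (g • i) 1) = -P i := by
      rw [← e3, ← map_neg]
      congr 1
      abel
    rw [e3] at h3
    rw [e4] at h4
    exact ⟨h3, h4⟩
  have hPk : ∀ i (k : ℤ), k • P i ∈ M := by
    intro i k
    obtain ⟨h1, h2⟩ := hP i
    rcases Int.eq_nat_or_neg k with ⟨m, rfl | rfl⟩
    · rw [natCast_zsmul]
      exact M.nsmul_mem h1 m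
    · rw [neg_smul, ← smul_neg, natCast_zsmul]
      exact M.nsmul_mem h2 m
  have key : (d.sum fun i k => k • P i) = (2 : ℤ) • S d := by
    have h1 : (d.sum fun i k => k • P i) = (2 : ℤ) • (d.sum fun i k => S (Finsupp.single i k)) -
        (d.sum fun i k => k * (n i : ℤ)) • (Fintype.card G : ℤ) • Finsupp.single i₀ (1 : ℤ) := by
      simp only [Finsupp.sum]
      rw [Finset.smul_sum, Finset.sum_smul, ← Finset.sum_sub_distrib]
      refine Finset.sum_congr rfl fun i _ => ?_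
      show d i • ((2 : ℤ) • S (Finsupp.single i 1) -
        (n i : ℤ) • (Fintype.card G : ℤ) • Finsupp.single i₀ (1 : ℤ)) = _
      rw [smul_sub, smul_smul (d i) (n i : ℤ), smul_comm (d i) (2 : ℤ), ← map_zsmul,
        Finsupp.smul_single, smul_eq_mul, mul_one]
    rw [h1, hwt d hd, zero_smul, sub_zero, ← map_finsuppSum, Finsupp.sum_single]
  have h2S : -((2 : ℤ) • S d) ∈ M := by
    rw [← key, Finsupp.sum, ← Finset.sum_neg_distrib]
    refine M.sum_mem fun i _ => ?_
    rw [← neg_smul]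
    exact hPk i _
  have hrest : (2 : ℤ) • S d - (2 : ℤ) • d ∈ M := by
    have h1 : S d = d + ∑ g ∈ Finset.univ.erase (1 : G), A g d := by
      rw [hS, ← Finset.add_sum_erase Finset.univ _ (Finset.mem_univ (1 : G)), hA1]
    rw [h1, smul_add, add_sub_cancel_left]
    have h2 : ∑ g ∈ Finset.univ.erase (1 : G), A g d ∈ M := M.sum_mem fun g _ => hG d hd g
    rw [two_smul]
    exact M.add_mem h2 h2
  have h3 : -((2 : ℤ) • d) ∈ M := by
    have h4 := M.add_mem h2S hrest
    have h5 : -((2 : ℤ) • S d) + ((2 : ℤ) • S d - (2 : ℤ) • d) = -((2 : ℤ) • d) := by abel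
    rw [h5] at h4
    exact h4
  have h6 := M.add_mem h3 ((hM d).2 hd)
  have h7 : -((2 : ℤ) • d) + d = -d := by
    rw [two_smul]
    abel
  rw [h7] at h6
  exact (hM _).1 h6

end H69
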