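import Pool.Agent.W_f569db_h69.Cat3

/-!
# From words to all generated objects
-/

set_option autoImplicit false
set_option linter.unusedSectionVars false

open CategoryTheory MonoidalCategory

universe u v w t

namespace H69

variable {K : Type u} [Field K] {C : Type v} [Category.{w} C] [MonoidalCategory C]
  [SymmetricCategory C] [RightRigidCategory C] [Preadditive C] [MonoidalPreadditive C]

/-- The auxiliary form with an arbitrary finite index type. -/
theorem Cat5b_exists_words_aux {I : Type t} {M : I → C} {N : C} (h : Gen M N) :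
    ∃ (ι : Type) (_ : Fintype ι) (W : ι → List (I × Bool)) (a : ∀ k, N ⟶ NL (LX M) (W k))
      (b : ∀ k, NL (LX M) (W k) ⟶ N), ∑ k, a k ≫ b k = 𝟙 N := by
  induction h with
  | of i =>
    refine ⟨Unit, inferInstance, fun _ => [(i, true)], fun _ => (ρ_ (M i)).inv,
      fun _ => (ρ_ (M i)).hom, ?_⟩
    rw [Fintype.sum_unique]
    exact Iso.inv_hom_id (ρ_ (M i))
  | ofDual i =>
    refine ⟨Unit, inferInstance, fun _ => [(i, false)], fun _ => (ρ_ (M i)ᘁ).inv,
      fun _ => (ρ_ (M i)ᘁ).hom, ?_⟩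
    rw [Fintype.sum_unique]
    exact Iso.inv_hom_id (ρ_ (M i)ᘁ)
  | unit =>
    refine ⟨Unit, inferInstance, fun _ => [], fun _ => 𝟙 (𝟙_ C), fun _ => 𝟙 (𝟙_ C), ?_⟩
    rw [Fintype.sum_unique]
    exact Category.comp_id (𝟙 (𝟙_ C))
  | @tensor X Y hX hY ihX ihY =>
    obtain ⟨ι, _, W, a, b, hab⟩ := ihX
    obtain ⟨ι', _, W', a', b', hab'⟩ := ihY
    refine ⟨ι × ι', inferInstance, fun p => W p.1 ++ W' p.2,
      fun p => (a p.1 ⊗ₘ a' p.2) ≫ (appI (LX M) (W p.1) (W' p.2)).hom,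
      fun p => (appI (LX M) (W p.1) (W' p.2)).inv ≫ (b p.1 ⊗ₘ b' p.2), ?_⟩
    have h1 : ∀ p : ι × ι', ((a p.1 ⊗ₘ a' p.2) ≫ (appI (LX M) (W p.1) (W' p.2)).hom) ≫
        (appI (LX M) (W p.1) (W' p.2)).inv ≫ (b p.1 ⊗ₘ b' p.2) =
        (a p.1 ≫ b p.1) ⊗ₘ (a' p.2 ≫ b' p.2) := by
      intro p
      rw [Category.assoc, Iso.hom_inv_id_assoc, tensorHom_comp_tensorHom]
    rw [Finset.sum_congr rfl fun p _ => h1 p, Fintype.sum_prod_type]
    have h2 : ∀ k : ι, ∑ k' : ι', ((a k ≫ b k) ⊗ₘ (a' k' ≫ b' k')) =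
        (a k ≫ b k) ⊗ₘ (𝟙 Y) := by
      intro k
      rw [← hab', tensor_sum]
    rw [Finset.sum_congr rfl fun k _ => h2 k, ← sum_tensor, hab]
    simp
  | @summand X Y Z i₁ p₁ i₂ p₂ hs hX hY ihX ihY =>
    obtain ⟨ι, _, W, a, b, hab⟩ := ihX
    obtain ⟨ι', _, W', a', b', hab'⟩ := ihY
    refine ⟨ι ⊕ ι', inferInstance, Sum.elim W W',
      fun s => match s with
        | Sum.inl k => i₁ ≫ a k
        | Sum.inr k => i₂ ≫ a' k,
      fun s => match s with
        | Sum.inl k => b k ≫ p₁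
        | Sum.inr k => b' k ≫ p₂, ?_⟩
    rw [Fintype.sum_sum_type, ← hs]
    congr 1
    · have h1 : i₁ ≫ (∑ k, a k ≫ b k) ≫ p₁ = i₁ ≫ p₁ := by rw [hab, Category.id_comp]
      rw [← h1, Preadditive.sum_comp, Preadditive.comp_sum]
      exact Finset.sum_congr rfl fun k _ => by simp
    · have h1 : i₂ ≫ (∑ k, a' k ≫ b' k) ≫ p₂ = i₂ ≫ p₂ := by rw [hab', Category.id_comp]
      rw [← h1, Preadditive.sum_comp, Preadditive.comp_sum]
      exact Finset.sum_congr rfl fun k _ => by simp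

/-- A generated object is a direct summand of a finite direct sum of words.
Proof.  By induction on `Gen`. -/
theorem Gen.exists_words {I : Type t} {M : I → C} {N : C} (h : Gen M N) :
    ∃ (r : ℕ) (W : Fin r → List (I × Bool)) (a : ∀ k, N ⟶ NL (LX M) (W k))
      (b : ∀ k, NL (LX M) (W k) ⟶ N), ∑ k, a k ≫ b k = 𝟙 N := by
  obtain ⟨ι, _, W, a, b, hab⟩ := Cat5b_exists_words_aux h
  classical
  let E := (Fintype.equivFin ι).symm
  refine ⟨Fintype.card ι, fun k => W (E k), fun k => a (E k), fun k => b (E k), ?_⟩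
  rw [← hab]
  exact Equiv.sum_comp E fun k => a k ≫ b k

/-- If the words have no numerically trivial classes with nonzero realisation then the same holds for
all generated objects.
Proof.  `z = ∑ z ≫ a k ≫ b k`; if `H (z ≫ a k) ≠ 0` then there is a test morphism `v` for `z ≫ a k`, so
`a k ≫ v` is a test morphism for `z`. -/
theorem gen_of_words (H : C ⥤ ModuleCat.{u} K) [H.Additive] {I : Type t} (M : I → C)
    (hW : ∀ (W : List (I × Bool)) (z : 𝟙_ C ⟶ NL (LX M) W), H.map z ≠ 0 →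
      ∃ v : NL (LX M) W ⟶ 𝟙_ C, H.map (z ≫ v) ≠ 0)
    {N : C} (hN : Gen M N) (z : 𝟙_ C ⟶ N) (hz : ∀ v : N ⟶ 𝟙_ C, H.map (z ≫ v) = 0) :
    H.map z = 0 := by
  obtain ⟨r, W, a, b, hab⟩ := hN.exists_words
  have h1 : ∀ k, H.map (z ≫ a k) = 0 := by
    intro k
    by_contra hk
    obtain ⟨v, hv⟩ := hW (W k) (z ≫ a k) hk
    apply hv
    rw [Category.assoc]
    exact hz (a k ≫ v)
  have h2 : z = ∑ k, (z ≫ a k) ≫ b k := by
    have h3 : z ≫ 𝟙 N = z := Category.comp_id z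
    rw [← hab, Preadditive.comp_sum] at h3
    rw [← h3]
    exact Finset.sum_congr rfl fun k _ => by rw [h3, Category.assoc]
  rw [h2, Functor.map_sum]
  apply Finset.sum_eq_zero
  intro k _
  rw [H.map_comp, h1 k, Limits.zero_comp]

end H69
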