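import Pool.Agent.W_f569db_h69.Defs

/-!
# Schur-Weyl duality, first step: coefficient comparison
-/

set_option linter.unusedSectionVars false

namespace H69

open Matrix Finset

variable {α I : Type*} [Fintype α] [DecidableEq α]

/-- The exponent of the monomial of a pair of index vectors. -/
noncomputable def CI_mu {κ : Type*} [Fintype κ] (a b : κ → α) : (α × α) →₀ ℕ :=
  ∑ s, Finsupp.single (a s, b s) 1

theorem CI_mu_apply {κ : Type*} [Fintype κ] (a b : κ → α) (x : α × α) :
    CI_mu a b x = Fintype.card {s : κ // (a s, b s) = x} := by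
  classical
  unfold CI_mu
  rw [Finsupp.finsetSum_apply, Fintype.card_subtype]
  simp only [Finsupp.single_apply]
  rw [Finset.sum_boole]
  simp

/-- Pairs of index vectors with the same monomial differ by a permutation. -/
theorem CI_perm {κ : Type*} [Fintype κ] {a b u v : κ → α} (h : CI_mu a b = CI_mu u v) :
    ∃ σ : Equiv.Perm κ, a = u ∘ σ ∧ b = v ∘ σ := by
  classical
  have he : ∀ x : α × α, Nonempty ({s : κ // (a s, b s) = x} ≃ {s : κ // (u s, v s) = x}) := by
    intro x
    refine ⟨Fintype.equivOfCardEq ?_⟩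
    rw [← CI_mu_apply, ← CI_mu_apply, h]
  let e : ∀ x : α × α, {s : κ // (a s, b s) = x} ≃ {s : κ // (u s, v s) = x} :=
    fun x => Classical.choice (he x)
  let σ : Equiv.Perm κ := Equiv.ofFiberEquiv e
  have hσ : ∀ s, (u (σ s), v (σ s)) = (a s, b s) := fun s =>
    Equiv.ofFiberEquiv_map (f := fun s => (a s, b s)) (g := fun s => (u s, v s)) e s
  refine ⟨σ, ?_, ?_⟩
  · funext s
    exact (congrArg Prod.fst (hσ s)).symm
  · funext s
    exact (congrArg Prod.snd (hσ s)).symm

/-- The inverse of an invertible block diagonal matrix is block diagonal. -/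
theorem CI_inv (c : α → I) {R : Type*} [CommRing R] {A B : Matrix α α R} (hA : Bd c A)
    (h : A * B = 1) : Bd c B := by
  classical
  let B' : Matrix α α R := Matrix.of fun p q => if c p = c q then B p q else 0
  have h1 : A * B' = 1 := by
    ext p q
    rw [Matrix.mul_apply]
    by_cases hpq : c p = c q
    · rw [← h, Matrix.mul_apply]
      refine Finset.sum_congr rfl fun e _ => ?_
      by_cases hz : A p e = 0
      · rw [hz, zero_mul, zero_mul]
      · have h2 : c e = c q := (hA p e hz).symm.trans hpq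
        show A p e * (if c e = c q then B e q else 0) = _
        rw [if_pos h2]
    · have hne : p ≠ q := fun hh => hpq (congrArg c hh)
      rw [Matrix.one_apply_ne hne]
      refine Finset.sum_eq_zero fun e _ => ?_
      by_cases hz : A p e = 0
      · rw [hz, zero_mul]
      · have h2 : ¬ c e = c q := fun hh => hpq ((hA p e hz).trans hh)
        show A p e * (if c e = c q then B e q else 0) = _
        rw [if_neg h2, mul_zero]
  have h2 : B * A = 1 := mul_eq_one_comm.1 h
  have h3 : B' = B := by
    calc B' = (B * A) * B' := by rw [h2, one_mul]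
      _ = B * (A * B') := by rw [mul_assoc]
      _ = B := by rw [h1, mul_one]
  intro p q hne
  by_contra hpq
  apply hne
  rw [← h3]
  show (if c p = c q then B p q else 0) = 0
  rw [if_neg hpq]

open Classical in
/-- The generic block diagonal matrix. -/
noncomputable def CI_G (c : α → I) : Matrix α α (MvPolynomial (α × α) ℚ) :=
  Matrix.of fun p q => if c p = c q then MvPolynomial.X (p, q) else 0

theorem CI_prod (c : α → I) {κ : Type*} [Fintype κ] {a b : κ → α} (h : ∀ s, c (a s) = c (b s)) :
    ∏ s, CI_G c (a s) (b s) = MvPolynomial.monomial (CI_mu a b) 1 := by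
  classical
  unfold CI_mu
  rw [MvPolynomial.monomial_sum_one]
  refine Finset.prod_congr rfl fun s _ => ?_
  show (if c (a s) = c (b s) then MvPolynomial.X (a s, b s) else 0) = _
  rw [if_pos (h s)]
  rfl

/-- The generic identity. -/
theorem CI_generic (c : α → I) {κ : Type*} [Fintype κ] [DecidableEq κ]
    (A : Matrix (κ → α) (κ → α) ℚ)
    (hcomm : ∀ g ∈ BG c ℚ, ten κ (g : Matrix α α ℚ) * A = A * ten κ (g : Matrix α α ℚ))
    (a b : κ → α) :
    ∑ e, (∏ s, CI_G c (a s) (e s)) * MvPolynomial.C (A e b) =
      ∑ e, MvPolynomial.C (A a e) * ∏ s, CI_G c (e s) (b s) := by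
  classical
  have hdet : (CI_G c).det ≠ 0 := by
    intro h0
    have h1 := congrArg (MvPolynomial.eval (fun x : α × α => if x.1 = x.2 then (1 : ℚ) else 0)) h0
    rw [RingHom.map_det, map_zero] at h1
    have h2 : (MvPolynomial.eval (fun x : α × α => if x.1 = x.2 then (1 : ℚ) else 0)).mapMatrix
        (CI_G c) = 1 := by
      ext p q
      rw [RingHom.mapMatrix_apply, Matrix.map_apply]
      show MvPolynomial.eval _ (if c p = c q then MvPolynomial.X (p, q) else 0) = _
      by_cases hpq : p = q
      · subst hpq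
        simp
      · rw [Matrix.one_apply_ne hpq]
        split_ifs
        · rw [MvPolynomial.eval_X]
          exact if_neg hpq
        · exact map_zero _
    rw [h2, Matrix.det_one] at h1
    exact one_ne_zero h1
  have key : (∑ e, (∏ s, CI_G c (a s) (e s)) * MvPolynomial.C (A e b) -
      ∑ e, MvPolynomial.C (A a e) * ∏ s, CI_G c (e s) (b s)) * (CI_G c).det = 0 := by
    refine MvPolynomial.funext fun x => ?_
    rw [map_mul, map_zero, RingHom.map_det]
    set g : Matrix α α ℚ := (MvPolynomial.eval x).mapMatrix (CI_G c) with hg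
    have hgapp : ∀ p q, MvPolynomial.eval x (CI_G c p q) = g p q := fun p q => rfl
    by_cases hd : g.det = 0
    · rw [hd, mul_zero]
    · have hu : IsUnit g := (Matrix.isUnit_iff_isUnit_det g).2 (isUnit_iff_ne_zero.2 hd)
      obtain ⟨u, hu⟩ := hu
      have hbd : Bd c g := by
        intro p q hpq
        by_contra hne
        apply hpq
        rw [← hgapp]
        show MvPolynomial.eval x (if c p = c q then MvPolynomial.X (p, q) else 0) = 0
        rw [if_neg hne, map_zero]
      have hmem : u ∈ BG c ℚ := by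
        refine mem_BG.2 ⟨hu ▸ hbd, ?_⟩
        refine CI_inv c (hu ▸ hbd : Bd c (u : Matrix α α ℚ)) ?_
        exact u.mul_inv
      have h1 := hcomm u hmem
      rw [hu] at h1
      have h2 := congrFun (congrFun h1 a) b
      rw [Matrix.mul_apply, Matrix.mul_apply] at h2
      have h3 : MvPolynomial.eval x (∑ e, (∏ s, CI_G c (a s) (e s)) * MvPolynomial.C (A e b) -
          ∑ e, MvPolynomial.C (A a e) * ∏ s, CI_G c (e s) (b s)) = 0 := by
        rw [map_sub, map_sum, map_sum]
        simp only [map_mul, map_prod, MvPolynomial.eval_C, hgapp]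
        simp only [ten_apply] at h2
        rw [h2, sub_self]
      rw [h3, zero_mul]
  rcases mul_eq_zero.1 key with h | h
  · exact sub_eq_zero.1 h
  · exact absurd h hdet

/-- Coefficient comparison.  If `A` commutes with `g^{⊗ κ}` for all invertible block diagonal `g`
over `ℚ`, then it commutes with each matrix `B`, supported in the pattern `τ`, which is invariant
under the place permutations preserving `τ`.

Proof.  Work in `P = MvPolynomial (α × α) ℚ`, let `X_{pq}` be the variables and `G` the generic block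
diagonal matrix, `G p q = X_{pq}` if `c p = c q`, else `0`.  For all `a, b` the polynomial
`Q_{ab} = ∑_e A(a,e) ∏_s G(e s, b s) - ∑_e ∏_s G(a s, e s) A(e,b)` satisfies: `Q_{ab} * det G` vanishes
at all rational points (at a point with `det ≠ 0` the matrix is in `BG c ℚ`; the inverse of an
invertible block diagonal matrix is block diagonal, e.g. by Cramer's rule, or by
`A⁻¹ = polynomial in A` (Cayley-Hamilton), or one adds to `Q_{ab} * det G` no more than this fact).
So `Q_{ab} * det G = 0` (`MvPolynomial.funext`), and `det G ≠ 0` since its value at the identity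
matrix is `1`; hence `Q_{ab} = 0`.  For `a, b` of pattern `τ` compare the coefficients at the monomial
`m = ∏_s X_{(u s, v s)}`, `u, v` of pattern `τ`: with
`O_m (a, b) = 1` if `∏_s X_{(a s, b s)} = m` and `0` otherwise this says `A * O_m = O_m * A`.
Two pairs `(a, b)`, `(u, v)` of pattern `τ` have the same monomial iff the multisets of the `(a s, b s)`
and of the `(u s, v s)` agree, iff there is a permutation `σ` of `κ` with `a = u ∘ σ`, `b = v ∘ σ`,
and then `σ` preserves `τ`.  So `B` is a linear combination of the `O_m`. -/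
theorem comm_of_inv (c : α → I) {κ : Type*} [Fintype κ] [DecidableEq κ] (τ : κ → I)
    (A : Matrix (κ → α) (κ → α) ℚ) (hA : Supp c τ A)
    (hcomm : ∀ g ∈ BG c ℚ, ten κ (g : Matrix α α ℚ) * A = A * ten κ (g : Matrix α α ℚ))
    (B : Matrix (κ → α) (κ → α) ℚ) (hB : Supp c τ B)
    (hinv : ∀ σ : Equiv.Perm κ, (∀ s, τ (σ s) = τ s) → ∀ a b, B (a ∘ σ) (b ∘ σ) = B a b) :
    A * B = B * A := by
  classical
  -- the coefficients
  let β : ((α × α) →₀ ℕ) → ℚ := fun m =>
    if h : ∃ uv : (κ → α) × (κ → α), (∀ s, c (uv.1 s) = τ s) ∧ (∀ s, c (uv.2 s) = τ s) ∧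
      CI_mu uv.1 uv.2 = m then B h.choose.1 h.choose.2 else 0
  have hβ : ∀ e b : κ → α, (∀ s, c (e s) = τ s) → (∀ s, c (b s) = τ s) → β (CI_mu e b) = B e b := by
    intro e b he hb
    have hex : ∃ uv : (κ → α) × (κ → α), (∀ s, c (uv.1 s) = τ s) ∧ (∀ s, c (uv.2 s) = τ s) ∧
      CI_mu uv.1 uv.2 = CI_mu e b := ⟨(e, b), he, hb, rfl⟩
    show (if h : ∃ uv : (κ → α) × (κ → α), (∀ s, c (uv.1 s) = τ s) ∧ (∀ s, c (uv.2 s) = τ s) ∧
      CI_mu uv.1 uv.2 = CI_mu e b then B h.choose.1 h.choose.2 else 0) = B e b
    rw [dif_pos hex]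
    obtain ⟨h1, h2, h3⟩ := hex.choose_spec
    obtain ⟨σ, hσ1, hσ2⟩ := CI_perm h3
    have hτ : ∀ s, τ (σ s) = τ s := by
      intro s
      rw [← h1 s, ← he (σ s), hσ1]
      rfl
    have h4 := hinv σ hτ e b
    rw [← hσ1, ← hσ2] at h4
    exact h4
  let Φ : MvPolynomial (α × α) ℚ →ₗ[ℚ] ℚ := (MvPolynomial.basisMonomials (α × α) ℚ).constr ℚ β
  have hΦ : ∀ m, Φ (MvPolynomial.monomial m 1) = β m := by
    intro m
    have h1 := (MvPolynomial.basisMonomials (α × α) ℚ).constr_basis ℚ β m
    rw [MvPolynomial.coe_basisMonomials] at h1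
    exact h1
  have hΦC : ∀ (q : ℚ) (f : MvPolynomial (α × α) ℚ), Φ (MvPolynomial.C q * f) = q * Φ f := by
    intro q f
    rw [← MvPolynomial.smul_eq_C_mul, map_smul, smul_eq_mul]
  ext a b
  rw [Matrix.mul_apply, Matrix.mul_apply]
  by_cases hab : (∀ s, c (a s) = τ s) ∧ (∀ s, c (b s) = τ s)
  · obtain ⟨ha, hb⟩ := hab
    have h1 := congrArg Φ (CI_generic c A hcomm a b)
    rw [map_sum, map_sum] at h1
    have h2 : ∑ e, A a e * B e b = ∑ e, Φ (MvPolynomial.C (A a e) * ∏ s, CI_G c (e s) (b s)) := by
      refine Finset.sum_congr rfl fun e _ => ?_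
      rw [hΦC]
      by_cases hz : A a e = 0
      · rw [hz, zero_mul, zero_mul]
      · have he := (hA a e hz).2
        rw [CI_prod c fun s => (he s).trans (hb s).symm, hΦ, hβ e b he hb]
    have h3 : ∑ e, B a e * A e b = ∑ e, Φ ((∏ s, CI_G c (a s) (e s)) * MvPolynomial.C (A e b)) := by
      refine Finset.sum_congr rfl fun e _ => ?_
      rw [mul_comm (∏ s, CI_G c (a s) (e s)), hΦC, mul_comm (B a e)]
      by_cases hz : A e b = 0
      · rw [hz, zero_mul, zero_mul]
      · have he := (hA e b hz).1
        rw [CI_prod c fun s => (ha s).trans (he s).symm, hΦ, hβ a e ha he]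
    rw [h2, h3, h1]
  · have h1 : ∑ e, A a e * B e b = 0 := by
      refine Finset.sum_eq_zero fun e _ => ?_
      by_contra hne
      exact hab ⟨(hA a e (left_ne_zero_of_mul hne)).1, (hB e b (right_ne_zero_of_mul hne)).2⟩
    have h2 : ∑ e, B a e * A e b = 0 := by
      refine Finset.sum_eq_zero fun e _ => ?_
      by_contra hne
      exact hab ⟨(hB a e (left_ne_zero_of_mul hne)).1, (hA e b (right_ne_zero_of_mul hne)).2⟩
    rw [h1, h2]

end H69
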