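import Pool.Agent.W_f569db_h69.Defs

/-!
# Elimination: reduction of an invertible matrix to monomial form
-/

set_option linter.unusedSectionVars false

namespace H69

open Matrix Finset

variable {α : Type*} [Fintype α] [DecidableEq α] {F : Type*} [Field F]

/-- Row operation which clears the column `r` of `h` in the rows of `Q \ {q}`, by means of the
row `q`. -/
noncomputable def rowEl (h : Matrix α α F) (Q : Finset α) (q r : α) : Matrix α α F :=
  Matrix.of fun i j => if i = j then 1 else if j = q ∧ i ∈ Q then -(h i r / h q r) else 0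

/-- The inverse of `rowEl`. -/
noncomputable def rowElInv (h : Matrix α α F) (Q : Finset α) (q r : α) : Matrix α α F :=
  Matrix.of fun i j => if i = j then 1 else if j = q ∧ i ∈ Q then h i r / h q r else 0

/-- Column operation which clears the row `q` of `h` in the columns of `R \ {r}`, by means of the
column `r`. -/
noncomputable def colEl (h : Matrix α α F) (R : Finset α) (q r : α) : Matrix α α F :=
  Matrix.of fun i j => if i = j then 1 else if i = r ∧ j ∈ R then -(h q j / h q r) else 0

/-- The inverse of `colEl`. -/
noncomputable def colElInv (h : Matrix α α F) (R : Finset α) (q r : α) : Matrix α α F :=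
  Matrix.of fun i j => if i = j then 1 else if i = r ∧ j ∈ R then h q j / h q r else 0

/-- The strictly off-diagonal matrix with the column `q` given by `w`. -/
def Elim_N (w : α → F) (q : α) : Matrix α α F :=
  Matrix.of fun i j => if i = j then 0 else if j = q then w i else 0

theorem Elim_N_mul (w w' : α → F) (q : α) : Elim_N w q * Elim_N w' q = 0 := by
  ext i j
  rw [Matrix.mul_apply, Matrix.zero_apply]
  refine sum_eq_zero fun k _ => ?_
  simp only [Elim_N, Matrix.of_apply]
  split_ifs with h1 h2 h3 h4 <;> simp_all

theorem Elim_N_add_neg (w : α → F) (q : α) : Elim_N w q + Elim_N (fun i => -w i) q = 0 := by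
  ext i j
  rw [Matrix.add_apply, Matrix.zero_apply]
  simp only [Elim_N, Matrix.of_apply]
  split_ifs <;> simp

theorem Elim_one_add_mul (w : α → F) (q : α) :
    (1 + Elim_N w q) * (1 + Elim_N (fun i => -w i) q) = 1 := by
  rw [add_mul, mul_add, mul_add, Elim_N_mul, one_mul, one_mul, mul_one, add_zero, add_assoc,
    add_comm (Elim_N (fun i => -w i) q), Elim_N_add_neg, add_zero]

theorem Elim_one_add_mul' (w : α → F) (q : α) :
    (1 + Elim_N (fun i => -w i) q) * (1 + Elim_N w q) = 1 := by
  rw [add_mul, mul_add, mul_add, Elim_N_mul, one_mul, one_mul, mul_one, add_zero, add_assoc,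
    Elim_N_add_neg, add_zero]

theorem Elim_rowEl_eq (h : Matrix α α F) (Q : Finset α) (q r : α) :
    rowEl h Q q r = 1 + Elim_N (fun i => -(if i ∈ Q then h i r / h q r else 0)) q := by
  ext i j
  rw [Matrix.add_apply, Matrix.one_apply]
  simp only [rowEl, Elim_N, Matrix.of_apply]
  split_ifs with h1 h2 h3 h4 <;> simp_all

theorem Elim_rowElInv_eq (h : Matrix α α F) (Q : Finset α) (q r : α) :
    rowElInv h Q q r = 1 + Elim_N (fun i => (if i ∈ Q then h i r / h q r else 0)) q := by
  ext i j
  rw [Matrix.add_apply, Matrix.one_apply]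
  simp only [rowElInv, Elim_N, Matrix.of_apply]
  split_ifs with h1 h2 h3 h4 <;> simp_all

theorem Elim_colEl_eq (h : Matrix α α F) (R : Finset α) (q r : α) :
    colEl h R q r = (1 + Elim_N (fun j => -(if j ∈ R then h q j / h q r else 0)) r)ᵀ := by
  ext i j
  rw [Matrix.transpose_apply, Matrix.add_apply, Matrix.one_apply]
  simp only [colEl, Elim_N, Matrix.of_apply]
  by_cases hij : i = j
  · subst hij; simp
  · have hji : ¬ j = i := fun h => hij h.symm
    split_ifs <;> simp_all

theorem Elim_colElInv_eq (h : Matrix α α F) (R : Finset α) (q r : α) :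
    colElInv h R q r = (1 + Elim_N (fun j => (if j ∈ R then h q j / h q r else 0)) r)ᵀ := by
  ext i j
  rw [Matrix.transpose_apply, Matrix.add_apply, Matrix.one_apply]
  simp only [colElInv, Elim_N, Matrix.of_apply]
  by_cases hij : i = j
  · subst hij; simp
  · have hji : ¬ j = i := fun h => hij h.symm
    split_ifs <;> simp_all

theorem rowEl_mul_inv (h : Matrix α α F) (Q : Finset α) (q r : α) :
    rowEl h Q q r * rowElInv h Q q r = 1 := by
  rw [Elim_rowEl_eq, Elim_rowElInv_eq]
  exact Elim_one_add_mul' _ _

theorem rowElInv_mul (h : Matrix α α F) (Q : Finset α) (q r : α) :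
    rowElInv h Q q r * rowEl h Q q r = 1 := by
  rw [Elim_rowEl_eq, Elim_rowElInv_eq]
  exact Elim_one_add_mul _ _

theorem colEl_mul_inv (h : Matrix α α F) (R : Finset α) (q r : α) :
    colEl h R q r * colElInv h R q r = 1 := by
  rw [Elim_colEl_eq, Elim_colElInv_eq, ← Matrix.transpose_mul, Elim_one_add_mul,
    Matrix.transpose_one]

theorem colElInv_mul (h : Matrix α α F) (R : Finset α) (q r : α) :
    colElInv h R q r * colEl h R q r = 1 := by
  rw [Elim_colEl_eq, Elim_colElInv_eq, ← Matrix.transpose_mul, Elim_one_add_mul',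
    Matrix.transpose_one]

/-- `rowEl` as a unit. -/
noncomputable def rowElU (h : Matrix α α F) (Q : Finset α) (q r : α) : (Matrix α α F)ˣ :=
  ⟨rowEl h Q q r, rowElInv h Q q r, rowEl_mul_inv h Q q r, rowElInv_mul h Q q r⟩

/-- `colEl` as a unit. -/
noncomputable def colElU (h : Matrix α α F) (R : Finset α) (q r : α) : (Matrix α α F)ˣ :=
  ⟨colEl h R q r, colElInv h R q r, colEl_mul_inv h R q r, colElInv_mul h R q r⟩

/-- The isolated entries. -/
def ElimIso (h : Matrix α α F) (i j : α) : Prop :=
  h i j ≠ 0 ∧ (∀ j', j' ≠ j → h i j' = 0) ∧ (∀ i', i' ≠ i → h i' j = 0)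

theorem Elim_rowEl_mul_apply (h : Matrix α α F) (Q : Finset α) (q r : α) (m : Matrix α α F)
    (i j : α) : (rowEl h Q q r * m) i j =
      m i j + (if i ≠ q ∧ i ∈ Q then -(h i r / h q r) * m q j else 0) := by
  rw [Elim_rowEl_eq, add_mul, one_mul, Matrix.add_apply]
  congr 1
  rw [Matrix.mul_apply, sum_eq_single q]
  · simp only [Elim_N, Matrix.of_apply]
    split_ifs <;> simp_all
  · intro k _ hk
    simp only [Elim_N, Matrix.of_apply]
    split_ifs <;> simp_all
  · intro hq
    exact absurd (mem_univ q) hq

theorem Elim_mul_colEl_apply (h : Matrix α α F) (R : Finset α) (q r : α) (m : Matrix α α F)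
    (i j : α) : (m * colEl h R q r) i j =
      m i j + (if j ≠ r ∧ j ∈ R then m i r * -(h q j / h q r) else 0) := by
  rw [Elim_colEl_eq, Matrix.transpose_add, Matrix.transpose_one, mul_add, mul_one,
    Matrix.add_apply]
  congr 1
  rw [Matrix.mul_apply, sum_eq_single r]
  · simp only [Elim_N, Matrix.transpose_apply, Matrix.of_apply]
    split_ifs <;> simp_all
  · intro k _ hk
    simp only [Elim_N, Matrix.transpose_apply, Matrix.of_apply]
    split_ifs <;> simp_all
  · intro hq
    exact absurd (mem_univ r) hq

/-- The effect of one elimination on the isolated entries. -/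
theorem Elim_step (h : Matrix α α F) (Q R : Finset α)
    (hQ : ∀ i, i ∈ Q ↔ ∀ j, ¬ ElimIso h i j) (hR : ∀ j, j ∈ R ↔ ∀ i, ¬ ElimIso h i j)
    (q r : α) (hq : q ∈ Q) (hr : r ∈ R) (hqr : h q r ≠ 0) :
    (∀ i j, ElimIso h i j → ElimIso (rowEl h Q q r * h * colEl h R q r) i j) ∧
      ElimIso (rowEl h Q q r * h * colEl h R q r) q r := by
  have hent : ∀ i j, (rowEl h Q q r * h * colEl h R q r) i j
      = (h i j + (if i ≠ q ∧ i ∈ Q then -(h i r / h q r) * h q j else 0))
        + (if j ≠ r ∧ j ∈ R then
            (h i r + (if i ≠ q ∧ i ∈ Q then -(h i r / h q r) * h q r else 0))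
              * -(h q j / h q r) else 0) := by
    intro i j
    rw [Elim_mul_colEl_apply, Elim_rowEl_mul_apply, Elim_rowEl_mul_apply]
  constructor
  · rintro i j ⟨h1, h2, h3⟩
    have hiQ : i ∉ Q := fun hi => (hQ i).1 hi j ⟨h1, h2, h3⟩
    have hjR : j ∉ R := fun hj => (hR j).1 hj i ⟨h1, h2, h3⟩
    have hqi : q ≠ i := fun h0 => hiQ (h0 ▸ hq)
    have hrj : r ≠ j := fun h0 => hjR (h0 ▸ hr)
    have hqj : h q j = 0 := h3 q hqi
    have hir : h i r = 0 := h2 r hrj
    have hcol : ∀ i', (rowEl h Q q r * h * colEl h R q r) i' j = h i' j := by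
      intro i'
      rw [hent, hqj]
      simp [hjR]
    have hrow : ∀ j', (rowEl h Q q r * h * colEl h R q r) i j' = h i j' := by
      intro j'
      rw [hent, hir]
      simp [hiQ]
    refine ⟨?_, ?_, ?_⟩
    · rw [hcol]; exact h1
    · intro j' hj'
      rw [hrow]; exact h2 j' hj'
    · intro i' hi'
      rw [hcol]; exact h3 i' hi'
  · refine ⟨?_, ?_, ?_⟩
    · rw [hent]
      simpa using hqr
    · intro j hj
      rw [hent]
      by_cases hjR : j ∈ R
      · simp only [ne_eq, not_true_eq_false, false_and, if_false, add_zero, hj, not_false_eq_true,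
          hjR, and_self, if_true]
        field_simp
        ring
      · have hex : ∃ i, ElimIso h i j := by
          by_contra hcon
          push Not at hcon
          exact hjR ((hR j).2 hcon)
        obtain ⟨i, hi⟩ := hex
        have hqi : q ≠ i := by
          rintro rfl
          exact (hQ q).1 hq j hi
        have : h q j = 0 := hi.2.2 q hqi
        simp [hjR, this]
    · intro i hi
      rw [hent]
      by_cases hiQ : i ∈ Q
      · simp only [ne_eq, not_true_eq_false, false_and, if_false, add_zero, hi, not_false_eq_true,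
          hiQ, and_self, if_true]
        field_simp
        ring
      · have hex : ∃ j, ElimIso h i j := by
          by_contra hcon
          push Not at hcon
          exact hiQ ((hQ i).2 hcon)
        obtain ⟨j, hj⟩ := hex
        have hrj : r ≠ j := by
          rintro rfl
          exact (hR r).1 hr i hj
        have : h i r = 0 := hj.2.1 r hrj
        simp [hiQ, this]

/-- A column of an invertible matrix is not zero. -/
theorem Elim_col_ne_zero (h : (Matrix α α F)ˣ) (r : α) : ∃ q, (h : Matrix α α F) q r ≠ 0 := by
  by_contra hcon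
  push Not at hcon
  have h1 : (((h⁻¹ : (Matrix α α F)ˣ) : Matrix α α F) * (h : Matrix α α F)) r r = 1 := by
    rw [Units.inv_mul, Matrix.one_apply_eq]
  rw [Matrix.mul_apply, sum_eq_zero fun k _ => by rw [hcon k, mul_zero]] at h1
  exact zero_ne_one h1

/-- If all columns have an isolated entry, the matrix is monomial. -/
theorem Elim_perm (h : Matrix α α F) (hall : ∀ j, ∃ i, ElimIso h i j) :
    ∃ π : Equiv.Perm α, ∀ q r, h q r ≠ 0 ↔ q = π r := by
  choose f hf using hall
  have hinj : Function.Injective f := by
    intro j j' hjj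
    by_contra hne
    have h1 := (hf j).2.1 j' (fun h0 => hne h0.symm)
    rw [hjj] at h1
    exact (hf j').1 h1
  refine ⟨Equiv.ofBijective f (Finite.injective_iff_bijective.1 hinj), fun q r => ?_⟩
  rw [Equiv.ofBijective_apply]
  constructor
  · intro hqr
    by_contra hne
    exact hqr ((hf r).2.2 q hne)
  · rintro rfl
    exact (hf r).1

open Classical in
/-- The set of isolated entries. -/
noncomputable def ElimSet (h : Matrix α α F) : Finset (α × α) :=
  univ.filter fun p => ElimIso h p.1 p.2

/-- Elimination.  `U`, `V` are groups of invertible matrices such that for each matrix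
`h ∈ U g V` and sets `Q`, `R` of rows and columns for which `h` has a nonzero entry in `Q × R` there
is a pivot `(q, r) ∈ Q × R` for which the elimination matrices are in `U`, `V`.  Then `U g V`
contains a monomial matrix.

Proof.  Call `(q, r)` isolated in `h` if `h q r ≠ 0` and all other entries of the row `q` and of the
column `r` are zero.  Choose `h ∈ U g V` for which the number of isolated pairs is as large as
possible (it is at most `(card α)^2`).  Suppose that some column `r₁` has no isolated entry, let
`Q`, `R` be the sets of rows, columns without isolated entry.  As `h` is invertible, `h q₁ r₁ ≠ 0`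
for some `q₁`, and `q₁ ∈ Q` (in a row with an isolated entry all other entries are zero).  Take the
pivot `(q, r)`; `h' := rowEl * h * colEl` (`colEl` defined from `h`, note that the row `q` of
`rowEl * h` is the row `q` of `h`).  An isolated pair `(i, j)` of `h` has `i ∉ Q`, `j ∉ R`, and
`h q j = 0`, `h i r = 0`, so it is still isolated in `h'`; moreover `(q, r)` is isolated in `h'`.
This is a contradiction.  So all columns of `h` have an isolated entry, and this gives `π`. -/
theorem exists_monomial (U V : Subgroup (Matrix α α F)ˣ) (g : (Matrix α α F)ˣ)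
    (piv : ∀ u ∈ U, ∀ v ∈ V, ∀ Q R : Finset α,
      (∃ q ∈ Q, ∃ r ∈ R, ((u * g * v : (Matrix α α F)ˣ) : Matrix α α F) q r ≠ 0) →
      ∃ q ∈ Q, ∃ r ∈ R, ((u * g * v : (Matrix α α F)ˣ) : Matrix α α F) q r ≠ 0 ∧
        rowElU ((u * g * v : (Matrix α α F)ˣ) : Matrix α α F) Q q r ∈ U ∧
        colElU ((u * g * v : (Matrix α α F)ˣ) : Matrix α α F) R q r ∈ V) :
    ∃ u ∈ U, ∃ v ∈ V, ∃ π : Equiv.Perm α, ∀ q r,
      ((u * g * v : (Matrix α α F)ˣ) : Matrix α α F) q r ≠ 0 ↔ q = π r := by
  classical
  have main : ∀ n : ℕ, ∀ u ∈ U, ∀ v ∈ V,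
      Fintype.card (α × α) - (ElimSet ((u * g * v : (Matrix α α F)ˣ) : Matrix α α F)).card = n →
      ∃ u ∈ U, ∃ v ∈ V, ∃ π : Equiv.Perm α, ∀ q r,
        ((u * g * v : (Matrix α α F)ˣ) : Matrix α α F) q r ≠ 0 ↔ q = π r := by
    intro n
    induction n using Nat.strong_induction_on with
    | _ n ih =>
      intro u hu v hv hn
      set h : (Matrix α α F)ˣ := u * g * v with hh
      by_cases hall : ∀ j, ∃ i, ElimIso (h : Matrix α α F) i j
      · exact ⟨u, hu, v, hv, Elim_perm _ hall⟩
      · push Not at hall
        obtain ⟨r₁, hr₁⟩ := hall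
        set Q : Finset α := univ.filter fun i => ∀ j, ¬ ElimIso (h : Matrix α α F) i j with hQdef
        set R : Finset α := univ.filter fun j => ∀ i, ¬ ElimIso (h : Matrix α α F) i j with hRdef
        have hQ : ∀ i, i ∈ Q ↔ ∀ j, ¬ ElimIso (h : Matrix α α F) i j := by
          intro i; simp [hQdef]
        have hR : ∀ j, j ∈ R ↔ ∀ i, ¬ ElimIso (h : Matrix α α F) i j := by
          intro j; simp [hRdef]
        obtain ⟨q₁, hq₁⟩ := Elim_col_ne_zero h r₁
        have hq₁Q : q₁ ∈ Q := by
          rw [hQ]
          intro j hj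
          have : r₁ = j := by
            by_contra hne
            exact hq₁ (hj.2.1 r₁ hne)
          exact hr₁ q₁ (this ▸ hj)
        obtain ⟨q, hq, r, hr, hqr, hU, hV⟩ :=
          piv u hu v hv Q R ⟨q₁, hq₁Q, r₁, (hR r₁).2 hr₁, hq₁⟩
        rw [← hh] at hqr hU hV
        obtain ⟨hs1, hs2⟩ := Elim_step (h : Matrix α α F) Q R hQ hR q r hq hr hqr
        have hval : (((rowElU (h : Matrix α α F) Q q r * u) * g *
            (v * colElU (h : Matrix α α F) R q r) : (Matrix α α F)ˣ) : Matrix α α F)
            = rowEl (h : Matrix α α F) Q q r * (h : Matrix α α F)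
              * colEl (h : Matrix α α F) R q r := by
          have : (rowElU (h : Matrix α α F) Q q r * u) * g *
            (v * colElU (h : Matrix α α F) R q r)
            = rowElU (h : Matrix α α F) Q q r * h * colElU (h : Matrix α α F) R q r := by
            rw [hh]
            group
          rw [this, Units.val_mul, Units.val_mul]
          rfl
        have hlt : (ElimSet (h : Matrix α α F)).card
            < (ElimSet (rowEl (h : Matrix α α F) Q q r * (h : Matrix α α F)
              * colEl (h : Matrix α α F) R q r)).card := by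
          apply card_lt_card
          rw [ssubset_iff_of_subset]
          · refine ⟨(q, r), ?_, ?_⟩
            · simpa [ElimSet] using hs2
            · simp only [ElimSet, mem_filter, mem_univ, true_and]
              exact (hQ q).1 hq r
          · intro p hp
            simp only [ElimSet, mem_filter, mem_univ, true_and] at hp ⊢
            exact hs1 _ _ hp
        have hle : (ElimSet (rowEl (h : Matrix α α F) Q q r * (h : Matrix α α F)
              * colEl (h : Matrix α α F) R q r)).card ≤ Fintype.card (α × α) := card_le_univ _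
        refine ih _ ?_ (rowElU (h : Matrix α α F) Q q r * u) (U.mul_mem hU hu)
          (v * colElU (h : Matrix α α F) R q r) (V.mul_mem hv hV) rfl
        rw [hval, ← hn]
        omega
  exact main _ 1 U.one_mem 1 V.one_mem rfl

end H69
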