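import Pool.Agent.W_f569db_h69.SchurWeyl

/-!
# Invariant functionals are orthogonal to the powers of `x` if the trace invariants vanish
-/

set_option linter.unusedSectionVars false

namespace H69

open Matrix Finset

variable {α I : Type*} [Fintype α] [DecidableEq α]

/-- currying of a pair of words -/
def invOrthE (α : Type*) (D : Type*) (ι : Type*) :
    (D × ι → α) × (D × ι → α) ≃ (D → (ι → α) × (ι → α)) where
  toFun p := fun k => (fun s => p.1 (k, s), fun s => p.2 (k, s))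
  invFun e := (fun p => (e p.1).1 p.2, fun p => (e p.1).2 p.2)
  left_inv p := rfl
  right_inv e := rfl

theorem invOrth_ten {D ι : Type*} [Fintype D] [Fintype ι] {R : Type*} [CommRing R]
    (A : Matrix α α R) (a b : D × ι → α) :
    ten (D × ι) A a b = ∏ k : D, ten ι A (fun s => a (k, s)) (fun s => b (k, s)) := by
  simp only [ten_apply]
  rw [Fintype.prod_prod_type]

/-- the transpose of a unit -/
def invOrthT {R : Type*} [CommRing R] (g : (Matrix α α R)ˣ) : (Matrix α α R)ˣ where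
  val := (g : Matrix α α R)ᵀ
  inv := ((g⁻¹ : (Matrix α α R)ˣ) : Matrix α α R)ᵀ
  val_inv := by rw [← Matrix.transpose_mul, Units.inv_mul, Matrix.transpose_one]
  inv_val := by rw [← Matrix.transpose_mul, Units.mul_inv, Matrix.transpose_one]

theorem invOrthT_val {R : Type*} [CommRing R] (g : (Matrix α α R)ˣ) :
    ((invOrthT g : (Matrix α α R)ˣ) : Matrix α α R) = (g : Matrix α α R)ᵀ := rfl

theorem invOrthT_inv {R : Type*} [CommRing R] (g : (Matrix α α R)ˣ) :
    (((invOrthT g)⁻¹ : (Matrix α α R)ˣ) : Matrix α α R)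
      = ((g⁻¹ : (Matrix α α R)ˣ) : Matrix α α R)ᵀ := rfl

/-- An invariant `t` of `∏ GL(V_i)(ℚ)` on `End(V^{⊗ ι})^{⊗ (d+1)}` is orthogonal to `x^{⊗ (d+1)}` if all
trace invariants of `x` of degree `d + 1` vanish.

Proof.  Let `κ = Fin (d + 1) × ι`, `τ (k, s) = w s`, and
`A a b = t (fun k => (fun s => a (k, s), fun s => b (k, s)))` if `a, b : κ → α` have colour pattern
`τ`, else `0`.  The hypothesis `ht` says (as `κ(g)_{(a,b),(a',b')} = (ten g)_{a a'} (ten g⁻¹)_{b' b}`) that
`A` is invariant under conjugation with `ten κ g`, up to transposition and replacing `g` by its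
inverse or transpose: `∑_{a,b} t(a,b) g(a,a') g⁻¹(b',b) = t(a',b')`, that is,
`(ten g)ᵀ A (ten g⁻¹)ᵀ = A`; as the transposes of the elements of `BG c ℚ` are in `BG c ℚ`, `A` commutes
with all `ten κ g`, `g ∈ BG c ℚ`.  Apply `schurWeyl`.  Since `x` is supported in the pattern `w`,
`∑ t(..) ∏ x(..) = ∑_{a, b of pattern τ} A a b ∏_k x(a(k,·), b(k,·)) = ∑_σ q σ ∑_b ∏_k x (b(σ(k,·)), b(k,·))`,
and each inner sum is `0` by `htr` (replace `σ` by its inverse: substitute `b = a ∘ σ⁻¹`). -/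
theorem inv_orth (c : α → I) {ι : Type*} [Fintype ι] [DecidableEq ι] (w : ι → I)
    {K : Type*} [Field K] [CharZero K] (x : Matrix (ι → α) (ι → α) K) (hx : Supp c w x) (d : ℕ)
    (htr : ∀ (σ : Equiv.Perm (Fin (d + 1) × ι)),
      ∑ a : Fin (d + 1) × ι → α, ∏ k, x (fun s => a (k, s)) (fun s => a (σ (k, s))) = 0)
    (t : (Fin (d + 1) → (ι → α) × (ι → α)) → ℚ)
    (ht : ∀ g ∈ BG c ℚ, ∀ e' : Fin (d + 1) → (ι → α) × (ι → α),
      ∑ e, t e * ∏ k, (ten ι (g : Matrix α α ℚ) (e k).1 (e' k).1 *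
        ten ι ((g⁻¹ : (Matrix α α ℚ)ˣ) : Matrix α α ℚ) (e' k).2 (e k).2) = t e') :
    ∑ e, ((t e : ℚ) : K) * ∏ k, x (e k).1 (e k).2 = 0 := by
  classical
  set κ := Fin (d + 1) × ι with hκ
  let E := invOrthE α (Fin (d + 1)) ι
  let τ : κ → I := fun p => w p.2
  let pat : (κ → α) → Prop := fun a => ∀ p, c (a p) = τ p
  let A : Matrix (κ → α) (κ → α) ℚ := Matrix.of fun a b =>
    if pat a ∧ pat b then t (E (a, b)) else 0
  have hAdef : ∀ a b, A a b = if pat a ∧ pat b then t (E (a, b)) else 0 := fun a b => rfl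
  have hAS : Supp c τ A := by
    intro a b hab
    rw [hAdef] at hab
    by_cases h : pat a ∧ pat b
    · exact h
    · rw [if_neg h] at hab
      exact absurd rfl hab
  -- block diagonal tensor powers preserve the pattern
  have hpat : ∀ (g : Matrix α α ℚ), Bd c g → ∀ a b : κ → α, ten κ g a b ≠ 0 → (pat a ↔ pat b) := by
    intro g hg a b hab
    have h1 := ten_ne_zero hg hab
    constructor
    · intro h p
      rw [← h1 p]
      exact h p
    · intro h p
      rw [h1 p]
      exact h p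
  -- invariance of `A`
  have hinvA : ∀ g ∈ BG c ℚ, ∀ a' b' : κ → α,
      ∑ a, ∑ b, A a b * (ten κ (g : Matrix α α ℚ) a a' *
        ten κ ((g⁻¹ : (Matrix α α ℚ)ˣ) : Matrix α α ℚ) b' b) = A a' b' := by
    intro g hg a' b'
    have hg1 : Bd c (g : Matrix α α ℚ) := (mem_BG.1 hg).1
    have hg2 : Bd c ((g⁻¹ : (Matrix α α ℚ)ˣ) : Matrix α α ℚ) := (mem_BG.1 hg).2
    by_cases hab' : pat a' ∧ pat b'
    · rw [hAdef a' b', if_pos hab', ← ht g hg (E (a', b')), ← E.sum_comp, Fintype.sum_prod_type]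
      apply Finset.sum_congr rfl
      intro a _
      apply Finset.sum_congr rfl
      intro b _
      have h1 : ∏ k, (ten ι (g : Matrix α α ℚ) ((E (a, b)) k).1 ((E (a', b')) k).1 *
          ten ι ((g⁻¹ : (Matrix α α ℚ)ˣ) : Matrix α α ℚ) ((E (a', b')) k).2 ((E (a, b)) k).2)
          = ten κ (g : Matrix α α ℚ) a a' *
            ten κ ((g⁻¹ : (Matrix α α ℚ)ˣ) : Matrix α α ℚ) b' b := by
        rw [Finset.prod_mul_distrib, invOrth_ten, invOrth_ten]
        rfl
      rw [h1]
      by_cases h0 : ten κ (g : Matrix α α ℚ) a a' = 0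
      · rw [h0, zero_mul, mul_zero, mul_zero]
      by_cases h0' : ten κ ((g⁻¹ : (Matrix α α ℚ)ˣ) : Matrix α α ℚ) b' b = 0
      · rw [h0', mul_zero, mul_zero, mul_zero]
      have h2 : pat a := (hpat _ hg1 a a' h0).2 hab'.1
      have h3 : pat b := (hpat _ hg2 b' b h0').1 hab'.2
      rw [hAdef, if_pos ⟨h2, h3⟩]
    · rw [hAdef a' b', if_neg hab']
      apply Finset.sum_eq_zero
      intro a _
      apply Finset.sum_eq_zero
      intro b _
      by_cases h0 : ten κ (g : Matrix α α ℚ) a a' = 0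
      · rw [h0, zero_mul, mul_zero]
      by_cases h0' : ten κ ((g⁻¹ : (Matrix α α ℚ)ˣ) : Matrix α α ℚ) b' b = 0
      · rw [h0', mul_zero, mul_zero]
      rw [hAdef, if_neg, zero_mul]
      rintro ⟨h2, h3⟩
      exact hab' ⟨(hpat _ hg1 a a' h0).1 h2, (hpat _ hg2 b' b h0').2 h3⟩
  have hcomm : ∀ g ∈ BG c ℚ,
      ten κ (g : Matrix α α ℚ) * A = A * ten κ (g : Matrix α α ℚ) := by
    intro g hg
    have hgT : invOrthT g ∈ BG c ℚ := by
      rw [mem_BG, invOrthT_val, invOrthT_inv]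
      exact ⟨(mem_BG.1 hg).1.transpose, (mem_BG.1 hg).2.transpose⟩
    have h1 : ten κ (g : Matrix α α ℚ) * A *
        ten κ ((g⁻¹ : (Matrix α α ℚ)ˣ) : Matrix α α ℚ) = A := by
      ext a' b'
      rw [← hinvA (invOrthT g) hgT a' b', Matrix.mul_apply]
      simp only [Matrix.mul_apply, Finset.sum_mul]
      rw [Finset.sum_comm]
      apply Finset.sum_congr rfl
      intro a _
      apply Finset.sum_congr rfl
      intro b _
      rw [invOrthT_val, invOrthT_inv, ← ten_transpose, ← ten_transpose, Matrix.transpose_apply,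
        Matrix.transpose_apply]
      ring
    calc ten κ (g : Matrix α α ℚ) * A
        = ten κ (g : Matrix α α ℚ) * A *
          (ten κ ((g⁻¹ : (Matrix α α ℚ)ˣ) : Matrix α α ℚ) * ten κ (g : Matrix α α ℚ)) := by
          rw [ten_inv_mul, mul_one]
      _ = A * ten κ (g : Matrix α α ℚ) := by
          rw [← mul_assoc, h1]
  obtain ⟨q, -, hqA⟩ := schurWeyl c τ A hAS hcomm
  -- the value
  rw [← E.sum_comp, Fintype.sum_prod_type]
  have hterm : ∀ a b : κ → α, ((t (E (a, b)) : ℚ) : K) * ∏ k, x ((E (a, b)) k).1 ((E (a, b)) k).2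
      = ∑ σ : Equiv.Perm κ, (q σ : K) *
        ((if a = b ∘ σ then 1 else 0) * ∏ k, x ((E (a, b)) k).1 ((E (a, b)) k).2) := by
    intro a b
    by_cases h0 : ∏ k, x ((E (a, b)) k).1 ((E (a, b)) k).2 = 0
    · simp only [h0, mul_zero, Finset.sum_const_zero]
    · rw [← ne_eq, Finset.prod_ne_zero_iff] at h0
      have hp : pat a ∧ pat b := by
        constructor
        · intro p
          exact (hx _ _ (h0 p.1 (Finset.mem_univ _))).1 p.2
        · intro p
          exact (hx _ _ (h0 p.1 (Finset.mem_univ _))).2 p.2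
      have h1 := hqA a b hp.1 hp.2
      rw [hAdef, if_pos hp] at h1
      rw [h1]
      push_cast
      rw [Finset.sum_mul]
      apply Finset.sum_congr rfl
      intro σ _
      by_cases hab : a = b ∘ σ
      · simp only [if_pos hab, Rat.cast_one]
        ring
      · simp only [if_neg hab, Rat.cast_zero]
        ring
  rw [Finset.sum_congr rfl (fun a _ => Finset.sum_congr rfl (fun b _ => hterm a b))]
  have hswap : ∑ a : κ → α, ∑ b : κ → α, ∑ σ : Equiv.Perm κ, (q σ : K) *
        ((if a = b ∘ σ then 1 else 0) * ∏ k, x ((E (a, b)) k).1 ((E (a, b)) k).2)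
      = ∑ σ : Equiv.Perm κ, (q σ : K) * ∑ b : κ → α,
          ∏ k, x ((E (b ∘ σ, b)) k).1 ((E (b ∘ σ, b)) k).2 := by
    have h1 : ∀ a : κ → α, ∑ b : κ → α, ∑ σ : Equiv.Perm κ, (q σ : K) *
        ((if a = b ∘ σ then 1 else 0) * ∏ k, x ((E (a, b)) k).1 ((E (a, b)) k).2)
        = ∑ σ : Equiv.Perm κ, ∑ b : κ → α, (q σ : K) *
        ((if a = b ∘ σ then 1 else 0) * ∏ k, x ((E (a, b)) k).1 ((E (a, b)) k).2) :=
      fun a => Finset.sum_comm
    rw [Finset.sum_congr rfl (fun a _ => h1 a), Finset.sum_comm]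
    apply Finset.sum_congr rfl
    intro σ _
    rw [Finset.sum_comm, Finset.mul_sum]
    apply Finset.sum_congr rfl
    intro b _
    rw [Finset.sum_eq_single (b ∘ σ)]
    · rw [if_pos rfl, one_mul]
    · intro a _ ha
      rw [if_neg ha, zero_mul, mul_zero]
    · intro h
      exact absurd (Finset.mem_univ _) h
  rw [hswap]
  apply Finset.sum_eq_zero
  intro σ _
  have h1 : ∑ b : κ → α, ∏ k, x ((E (b ∘ σ, b)) k).1 ((E (b ∘ σ, b)) k).2
      = ∑ a : κ → α, ∏ k, x (fun s => a (k, s)) (fun s => a (σ⁻¹ (k, s))) := by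
    rw [← (Equiv.arrowCongr σ (Equiv.refl α)).sum_comp]
    apply Finset.sum_congr rfl
    intro a _
    apply Finset.prod_congr rfl
    intro k _
    congr 1
    funext s
    simp [E, invOrthE, Equiv.arrowCongr]
  rw [h1, htr σ⁻¹, mul_zero]

end H69
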