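import Pool.Agent.W_f569db_h69.CommInv

/-!
# Schur-Weyl duality for a product of general linear groups, over `ℚ`
-/

set_option linter.unusedSectionVars false

namespace H69

open Matrix Finset

variable {α I : Type*} [Fintype α] [DecidableEq α]

/-- the index tuples of pattern `τ` -/
abbrev SWJ (c : α → I) {κ : Type*} (τ : κ → I) : Type _ := {a : κ → α // ∀ s, c (a s) = τ s}

/-- the place permutations preserving `τ` -/
def SWSt {κ : Type*} (τ : κ → I) : Subgroup (Equiv.Perm κ) where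
  carrier := {σ | ∀ s, τ (σ s) = τ s}
  mul_mem' := by
    intro σ ρ hσ hρ s
    rw [Equiv.Perm.mul_apply]
    exact (hσ _).trans (hρ s)
  one_mem' := fun s => rfl
  inv_mem' := by
    intro σ hσ s
    have h := hσ (σ⁻¹ s)
    have e : σ (σ⁻¹ s) = s := σ.apply_symm_apply s
    rw [e] at h
    exact h.symm

theorem mem_SWSt {κ : Type*} {τ : κ → I} {σ : Equiv.Perm κ} :
    σ ∈ SWSt τ ↔ ∀ s, τ (σ s) = τ s := Iff.rfl

/-- the action on the tuples -/
def SWact (c : α → I) {κ : Type*} (τ : κ → I) (σ : SWSt τ) (a : SWJ c τ) : SWJ c τ :=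
  ⟨a.1 ∘ σ.1, fun s => (a.2 (σ.1 s)).trans (σ.2 s)⟩

/-- the representation of the place permutations on the functions -/
def SWrep (c : α → I) {κ : Type*} (τ : κ → I) :
    Representation ℚ (SWSt τ) (SWJ c τ → ℚ) where
  toFun σ :=
    { toFun := fun f a => f (SWact c τ σ a)
      map_add' := fun _ _ => rfl
      map_smul' := fun _ _ => rfl }
  map_one' := rfl
  map_mul' := fun _ _ => rfl

theorem SWrep_apply (c : α → I) {κ : Type*} (τ : κ → I) (σ : SWSt τ) (f : SWJ c τ → ℚ)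
    (a : SWJ c τ) : SWrep c τ σ f a = f (SWact c τ σ a) := rfl

theorem SWact_inj (c : α → I) {κ : Type*} (τ : κ → I) (σ : SWSt τ) {a b : SWJ c τ}
    (h : SWact c τ σ a = SWact c τ σ b) : a = b := by
  apply Subtype.ext
  funext s
  have h1 := congrFun (congrArg Subtype.val h) (σ.1⁻¹ s)
  change a.1 (σ.1 (σ.1⁻¹ s)) = b.1 (σ.1 (σ.1⁻¹ s)) at h1
  have e : σ.1 (σ.1⁻¹ s) = s := σ.1.apply_symm_apply s
  rw [e] at h1
  exact h1

open Classical in
theorem SW_mul_sub (c : α → I) {κ : Type*} [Fintype κ] [DecidableEq κ] (τ : κ → I)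
    (X Y : Matrix (κ → α) (κ → α) ℚ) (hX : Supp c τ X) :
    (X * Y).submatrix (Subtype.val : SWJ c τ → κ → α) (Subtype.val : SWJ c τ → κ → α) =
      X.submatrix (Subtype.val : SWJ c τ → κ → α) (Subtype.val : SWJ c τ → κ → α) *
        Y.submatrix (Subtype.val : SWJ c τ → κ → α) (Subtype.val : SWJ c τ → κ → α) := by
  ext a b
  rw [Matrix.mul_apply, Matrix.submatrix_apply, Matrix.mul_apply]
  simp only [Matrix.submatrix_apply]
  rw [← Finset.sum_filter_of_ne (p := fun j : κ → α => ∀ s, c (j s) = τ s)]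
  · rw [Finset.sum_subtype (p := fun j : κ → α => ∀ s, c (j s) = τ s)]
    intro x
    simp
  · intro j _ hj
    exact (hX _ _ (left_ne_zero_of_mul hj)).2

theorem SW_span {G V : Type*} [Group G] [AddCommGroup V] [Module ℚ V]
    (ρ : Representation ℚ G V) (r : MonoidAlgebra ℚ G) :
    ρ.asAlgebraHom r ∈ Submodule.span ℚ (Set.range fun g => (ρ g : Module.End ℚ V)) := by
  induction r using MonoidAlgebra.induction_on with
  | of g =>
    rw [Representation.asAlgebraHom_of]
    exact Submodule.subset_span ⟨g, rfl⟩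
  | add x y hx hy =>
    rw [map_add]
    exact Submodule.add_mem _ hx hy
  | smul t x hx =>
    rw [map_smul]
    exact Submodule.smul_mem _ _ hx

open Classical in
/-- an endomorphism commuting with the place permutations commutes with `A` -/
theorem SW_comm (c : α → I) {κ : Type*} [Fintype κ] [DecidableEq κ] (τ : κ → I)
    (A : Matrix (κ → α) (κ → α) ℚ) (hA : Supp c τ A)
    (hcomm : ∀ g ∈ BG c ℚ, ten κ (g : Matrix α α ℚ) * A = A * ten κ (g : Matrix α α ℚ))
    (φ : (SWJ c τ → ℚ) →ₗ[ℚ] (SWJ c τ → ℚ))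
    (hφ : ∀ σ : SWSt τ, ∀ v, φ (SWrep c τ σ v) = SWrep c τ σ (φ v)) (v : SWJ c τ → ℚ) :
    Matrix.toLin' (A.submatrix (Subtype.val : SWJ c τ → κ → α)
        (Subtype.val : SWJ c τ → κ → α)) (φ v) =
      φ (Matrix.toLin' (A.submatrix (Subtype.val : SWJ c τ → κ → α)
        (Subtype.val : SWJ c τ → κ → α)) v) := by
  obtain ⟨BJ, hBJ⟩ : ∃ BJ, BJ = LinearMap.toMatrix' φ := ⟨_, rfl⟩
  have hφB : φ = Matrix.toLin' BJ := by rw [hBJ, Matrix.toLin'_toMatrix']
  obtain ⟨B, hBdef⟩ : ∃ B : Matrix (κ → α) (κ → α) ℚ, B = Matrix.of fun a b =>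
      if h : (∀ s, c (a s) = τ s) ∧ (∀ s, c (b s) = τ s) then BJ ⟨a, h.1⟩ ⟨b, h.2⟩ else 0 :=
    ⟨_, rfl⟩
  have hBS : Supp c τ B := by
    intro a b hab
    rw [hBdef, Matrix.of_apply] at hab
    by_contra hn
    rw [dif_neg hn] at hab
    exact hab rfl
  have hBsub : B.submatrix (Subtype.val : SWJ c τ → κ → α) (Subtype.val : SWJ c τ → κ → α)
      = BJ := by
    ext a b
    rw [Matrix.submatrix_apply, hBdef, Matrix.of_apply, dif_pos ⟨a.2, b.2⟩]
  have hBinv : ∀ σ : Equiv.Perm κ, (∀ s, τ (σ s) = τ s) → ∀ a b, B (a ∘ σ) (b ∘ σ) = B a b := by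
    intro σ hσ a b
    have hiff : ∀ x : κ → α, (∀ s, c ((x ∘ σ) s) = τ s) ↔ (∀ s, c (x s) = τ s) := by
      intro x
      constructor
      · intro h s
        have h1 := h (σ⁻¹ s)
        have h2 := hσ (σ⁻¹ s)
        have e : σ (σ⁻¹ s) = s := σ.apply_symm_apply s
        rw [Function.comp_apply, e] at h1
        rw [e] at h2
        rw [h1, ← h2]
      · intro h s
        exact (h (σ s)).trans (hσ s)
    by_cases h : (∀ s, c (a s) = τ s) ∧ (∀ s, c (b s) = τ s)
    · have h' : (∀ s, c ((a ∘ σ) s) = τ s) ∧ (∀ s, c ((b ∘ σ) s) = τ s) :=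
        ⟨(hiff a).2 h.1, (hiff b).2 h.2⟩
      rw [hBdef, Matrix.of_apply, Matrix.of_apply, dif_pos h, dif_pos h', hBJ,
        LinearMap.toMatrix'_apply, LinearMap.toMatrix'_apply]
      have h1 := congrFun (hφ ⟨σ, hσ⟩ (Pi.single (⟨b ∘ σ, h'.2⟩ : SWJ c τ) (1 : ℚ))) ⟨a, h.1⟩
      rw [SWrep_apply] at h1
      have h2 : SWrep c τ ⟨σ, hσ⟩ (Pi.single (⟨b ∘ σ, h'.2⟩ : SWJ c τ) (1 : ℚ)) =
          Pi.single (⟨b, h.2⟩ : SWJ c τ) (1 : ℚ) := by
        funext x
        rw [SWrep_apply, Pi.single_apply, Pi.single_apply]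
        by_cases hx : x = ⟨b, h.2⟩
        · rw [if_pos hx, if_pos]
          rw [hx]
          rfl
        · rw [if_neg hx, if_neg]
          intro hx2
          apply hx
          apply SWact_inj c τ ⟨σ, hσ⟩
          rw [hx2]
          rfl
      rw [h2] at h1
      rw [h1]
      rfl
    · have h' : ¬ ((∀ s, c ((a ∘ σ) s) = τ s) ∧ (∀ s, c ((b ∘ σ) s) = τ s)) := by
        rw [hiff a, hiff b]
        exact h
      rw [hBdef, Matrix.of_apply, Matrix.of_apply, dif_neg h, dif_neg h']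
  have hAB := comm_of_inv c τ A hA hcomm B hBS hBinv
  have h1 := SW_mul_sub c τ A B hA
  have h2 := SW_mul_sub c τ B A hBS
  rw [hBsub] at h1 h2
  rw [hφB, ← Matrix.toLin'_mul_apply, ← Matrix.toLin'_mul_apply, ← h1, ← h2, hAB]

/-- Schur-Weyl duality.  `V = ⊕ V_i` over `ℚ`, `κ` is the set of tensor positions, `τ : κ → I` the
pattern, `A` an operator on `⊗_s V_{τ s}` (extended by `0` to `V^{⊗ κ}`) which commutes with
`g^{⊗ κ}` for all `g ∈ ∏ GL(V_i)`.  Then `A` is a combination of the place permutations which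
preserve the pattern `τ`.

Proof.  Let `St` be the group of the permutations preserving `τ`,
`J = {a : κ → α // ∀ s, c (a s) = τ s}`.  `M = J → ℚ` is a representation of `St`
(`(σ f)(a) = f (a ∘ σ)` or the like), it is a semisimple module over `MonoidAlgebra ℚ St` (Maschke,
instance in Mathlib).  By `comm_of_inv` the restriction of `A` to `M` commutes with all `St`-linear
endomorphisms of `M`, so by `jacobson_density` (applied to the standard basis) it agrees with the
action of an element `r` of the group algebra; `q σ` is a coefficient of `r`. -/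
theorem schurWeyl (c : α → I) {κ : Type*} [Fintype κ] [DecidableEq κ] (τ : κ → I)
    (A : Matrix (κ → α) (κ → α) ℚ) (hA : Supp c τ A)
    (hcomm : ∀ g ∈ BG c ℚ, ten κ (g : Matrix α α ℚ) * A = A * ten κ (g : Matrix α α ℚ)) :
    ∃ q : Equiv.Perm κ → ℚ, (∀ σ, q σ ≠ 0 → ∀ s, τ (σ s) = τ s) ∧
      ∀ a b : κ → α, (∀ s, c (a s) = τ s) → (∀ s, c (b s) = τ s) →
        A a b = ∑ σ : Equiv.Perm κ, q σ * (if a = b ∘ σ then 1 else 0) := by
  classical
  have _inst : Finite (SWSt τ) := inferInstance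
  have _inst : NeZero (Nat.card (SWSt τ) : ℚ) := ⟨by
    have : Nat.card (SWSt τ) ≠ 0 := Nat.card_pos.ne'
    exact_mod_cast this⟩
  obtain ⟨AJ, hAJ⟩ : ∃ AJ, AJ = A.submatrix (Subtype.val : SWJ c τ → κ → α)
    (Subtype.val : SWJ c τ → κ → α) := ⟨_, rfl⟩
  let ρ := SWrep c τ
  let f : Module.End (Module.End (MonoidAlgebra ℚ (SWSt τ)) ρ.asModule) ρ.asModule :=
    { toFun := fun m => ρ.asModuleEquiv.symm (Matrix.toLin' AJ (ρ.asModuleEquiv m))
      map_add' := by
        intro x y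
        rw [map_add, map_add, map_add]
      map_smul' := by
        intro φ x
        have h := SW_comm c τ A hA hcomm
          (ρ.asModuleEquiv.toLinearMap ∘ₗ (φ.restrictScalars ℚ) ∘ₗ ρ.asModuleEquiv.symm.toLinearMap)
          (by
            intro σ v
            change ρ.asModuleEquiv (φ (ρ.asModuleEquiv.symm (ρ σ v))) =
              ρ σ (ρ.asModuleEquiv (φ (ρ.asModuleEquiv.symm v)))
            rw [Representation.asModuleEquiv_symm_map_rho, map_smul,
              Representation.asModuleEquiv_map_smul, Representation.asAlgebraHom_of])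
          (ρ.asModuleEquiv x)
        rw [← hAJ] at h
        change Matrix.toLin' AJ (ρ.asModuleEquiv (φ (ρ.asModuleEquiv.symm (ρ.asModuleEquiv x)))) =
          ρ.asModuleEquiv (φ (ρ.asModuleEquiv.symm (Matrix.toLin' AJ (ρ.asModuleEquiv x)))) at h
        rw [LinearEquiv.symm_apply_apply] at h
        change ρ.asModuleEquiv.symm (Matrix.toLin' AJ (ρ.asModuleEquiv (φ x))) =
          φ (ρ.asModuleEquiv.symm (Matrix.toLin' AJ (ρ.asModuleEquiv x)))
        rw [h, LinearEquiv.symm_apply_apply] }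
  obtain ⟨r, hr⟩ := jacobson_density f
    (univ.image fun b : SWJ c τ => ρ.asModuleEquiv.symm (Pi.single b (1 : ℚ)))
  have hr2 : ∀ b : SWJ c τ, Matrix.toLin' AJ (Pi.single b (1 : ℚ)) =
      ρ.asAlgebraHom r (Pi.single b (1 : ℚ)) := by
    intro b
    have h := congrArg ρ.asModuleEquiv (hr _ (mem_image_of_mem _ (mem_univ b)))
    rw [Representation.asModuleEquiv_map_smul, LinearEquiv.apply_symm_apply] at h
    change ρ.asModuleEquiv (ρ.asModuleEquiv.symm (Matrix.toLin' AJ (ρ.asModuleEquiv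
      (ρ.asModuleEquiv.symm (Pi.single b (1 : ℚ)))))) = _ at h
    rw [LinearEquiv.apply_symm_apply, LinearEquiv.apply_symm_apply] at h
    exact h
  obtain ⟨w, hw⟩ := (Submodule.mem_span_range_iff_exists_fun ℚ).mp (SW_span ρ r)
  obtain ⟨q, hq⟩ : ∃ q : Equiv.Perm κ → ℚ, ∀ σ, q σ =
    if h : σ⁻¹ ∈ SWSt τ then w ⟨σ⁻¹, h⟩ else 0 := ⟨_, fun _ => rfl⟩
  refine ⟨q, ?_, ?_⟩
  · intro σ hσ
    by_cases h : σ⁻¹ ∈ SWSt τ
    · have h1 := (SWSt τ).inv_mem h
      rw [inv_inv] at h1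
      exact mem_SWSt.1 h1
    · rw [hq, dif_neg h] at hσ
      exact absurd rfl hσ
  · intro a b ha hb
    have h1 := congrFun (hr2 ⟨b, hb⟩) ⟨a, ha⟩
    rw [← hw] at h1
    have h2 : Matrix.toLin' AJ (Pi.single (⟨b, hb⟩ : SWJ c τ) (1 : ℚ)) ⟨a, ha⟩ = A a b := by
      rw [Matrix.toLin'_apply, Matrix.mulVec_single_one, hAJ]
      rfl
    rw [h2] at h1
    rw [h1, LinearMap.sum_apply, Finset.sum_apply]
    have h3 : ∀ σ : SWSt τ, (w σ • (ρ σ : Module.End ℚ (SWJ c τ → ℚ)))
        (Pi.single (⟨b, hb⟩ : SWJ c τ) (1 : ℚ)) ⟨a, ha⟩ =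
        w σ * (if a = b ∘ (σ.1⁻¹ : Equiv.Perm κ) then 1 else 0) := by
      intro σ
      rw [LinearMap.smul_apply, Pi.smul_apply, smul_eq_mul]
      congr 1
      change SWrep c τ σ (Pi.single (⟨b, hb⟩ : SWJ c τ) (1 : ℚ)) ⟨a, ha⟩ = _
      rw [SWrep_apply, Pi.single_apply]
      have hiff : (SWact c τ σ ⟨a, ha⟩ = (⟨b, hb⟩ : SWJ c τ)) ↔
          a = b ∘ (σ.1⁻¹ : Equiv.Perm κ) := by
        constructor
        · intro h
          have h4 := congrArg Subtype.val h
          change a ∘ σ.1 = b at h4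
          rw [← h4]
          funext s
          simp
        · intro h
          apply Subtype.ext
          change a ∘ σ.1 = b
          rw [h]
          funext s
          simp
      rw [if_congr hiff rfl rfl]
    rw [Finset.sum_congr rfl fun σ _ => h3 σ]
    rw [← Finset.sum_filter_add_sum_filter_not (univ : Finset (Equiv.Perm κ))
      (fun σ => σ⁻¹ ∈ SWSt τ)]
    have h5 : ∑ σ ∈ (univ : Finset (Equiv.Perm κ)).filter (fun σ => ¬ σ⁻¹ ∈ SWSt τ),
        q σ * (if a = b ∘ σ then (1 : ℚ) else 0) = 0 := by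
      refine Finset.sum_eq_zero fun σ hσ => ?_
      rw [hq, dif_neg (Finset.mem_filter.1 hσ).2, zero_mul]
    rw [h5, add_zero]
    refine Finset.sum_bij (fun (σ : SWSt τ) _ => (σ.1⁻¹ : Equiv.Perm κ)) ?_ ?_ ?_ ?_
    · intro σ _
      rw [Finset.mem_filter, inv_inv]
      exact ⟨mem_univ _, σ.2⟩
    · intro σ _ σ' _ h
      exact Subtype.ext (inv_injective h)
    · intro σ hσ
      exact ⟨⟨σ⁻¹, (Finset.mem_filter.1 hσ).2⟩, mem_univ _, inv_inv σ⟩
    · intro σ _
      have h6 : (σ.1⁻¹)⁻¹ ∈ SWSt τ := by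
        rw [inv_inv]
        exact σ.2
      rw [hq, dif_pos h6]
      congr 2

end H69
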