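import Mathlib

/-!
# The definitions used in the statement (project MP_f569db_ag)

`C` is a symmetric monoidal category with duals (for instance: motives over a field `k`, with
coefficients in `ℚ` or in `K`), `H : C ⥤ ModuleCat K` is a monoidal functor (for instance: the
realisation given by a Weil cohomology with coefficients in `K`, where the grading is forgotten).
-/

set_option autoImplicit false

open CategoryTheory MonoidalCategory

universe u v w t

namespace H69

variable {K : Type u} [Field K] {C : Type v} [Category.{w} C] [MonoidalCategory C]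

/-- `X` and `Y` satisfy the rule of signs: `H` carries the symmetry `X ⊗ Y ≅ Y ⊗ X` to the swap of the
two factors of `H X ⊗ H Y`, up to a sign.  (For a Weil cohomology this holds if each of the motives
`X` and `Y` is of even or of odd parity.) -/
def SignRule [SymmetricCategory C] (H : C ⥤ ModuleCat.{u} K) [H.Monoidal] (X Y : C) : Prop :=
  ∃ s : ℤˣ, Functor.LaxMonoidal.μ H X Y ≫ H.map (β_ X Y).hom =
    (s : ℤ) • ((β_ (H.obj X) (H.obj Y)).hom ≫ Functor.LaxMonoidal.μ H Y X)

/-- The realisation `H X` is absolutely irreducible: the automorphisms of the monoidal functor `H`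
(for instance, the elements of the absolute Galois group of a field of definition) span all the
`K`-linear endomorphisms of `H X`. -/
def AbsIrr (H : C ⥤ ModuleCat.{u} K) [H.Monoidal] (X : C) : Prop :=
  Submodule.span K {φ : Module.End K (H.obj X) |
    ∃ θ : H ≅ H, NatTrans.IsMonoidal θ.hom ∧ φ = (θ.hom.app X).hom} = ⊤

/-- The tensor power `X^{⊗ n}`. -/
def tpow (X : C) : ℕ → C
  | 0 => 𝟙_ C
  | n + 1 => X ⊗ tpow X n

/-- The objects generated by the `M i`: the smallest class of objects which contains the `M i` and
their duals and the unit object, and is closed under tensor products and under direct summands of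
finite direct sums. -/
inductive Gen [RightRigidCategory C] [Preadditive C] {I : Type t} (M : I → C) : C → Prop
  | of (i : I) : Gen M (M i)
  | ofDual (i : I) : Gen M (M i)ᘁ
  | unit : Gen M (𝟙_ C)
  | tensor {X Y : C} : Gen M X → Gen M Y → Gen M (X ⊗ Y)
  | summand {X Y Z : C} (i₁ : Z ⟶ X) (p₁ : X ⟶ Z) (i₂ : Z ⟶ Y) (p₂ : Y ⟶ Z) :
      i₁ ≫ p₁ + i₂ ≫ p₂ = 𝟙 Z → Gen M X → Gen M Y → Gen M Z

end H69
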