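import Mathlib

/-!
# A valuation ring from a proper ideal of a subalgebra
-/

set_option linter.unusedSectionVars false

universe u v w'

namespace H69

/-- The span of the products of nonempty lists is stable under the subalgebra. -/
theorem ValDom_adjoin {S : Type u} [CommRing S] {K : Type v} [Field K] [Algebra K S] {J : Type w'}
    (f : J → S) {r : S} (hr : r ∈ Algebra.adjoin K (Set.range f)) :
    ∀ s ∈ Submodule.span K ((fun l : List J => (l.map f).prod) '' {l | l ≠ []}),
      r * s ∈ Submodule.span K ((fun l : List J => (l.map f).prod) '' {l | l ≠ []}) := by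
  induction hr using Algebra.adjoin_induction with
  | mem x hx =>
    obtain ⟨j, rfl⟩ := hx
    intro s hs
    induction hs using Submodule.span_induction with
    | mem y hy =>
      obtain ⟨l, hl, rfl⟩ := hy
      refine Submodule.subset_span ⟨j :: l, List.cons_ne_nil _ _, ?_⟩
      show ((j :: l).map f).prod = f j * (l.map f).prod
      rw [List.map_cons, List.prod_cons]
    | zero => rw [mul_zero]; exact Submodule.zero_mem _
    | add y z _ _ hy hz => rw [mul_add]; exact Submodule.add_mem _ hy hz
    | smul a y _ hy => rw [mul_smul_comm]; exact Submodule.smul_mem _ a hy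
  | algebraMap a => intro s hs; rw [← Algebra.smul_def]; exact Submodule.smul_mem _ a hs
  | add x y _ _ hx hy => intro s hs; rw [add_mul]; exact Submodule.add_mem _ (hx s hs) (hy s hs)
  | mul x y _ _ hx hy => intro s hs; rw [mul_assoc]; exact hx _ (hy s hs)

/-- The last step, for a subalgebra and a maximal ideal. -/
theorem ValDom_ext {S : Type u} [CommRing S] {R : Type*} [CommRing R] (i : R →+* S)
    (hi : Function.Injective i) (P : Ideal R) (hP : P.IsMaximal) :
    ∃ (L : Type u) (_ : Field L) (φ : S →+* L) (B : ValuationSubring L),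
      (∀ r : R, φ (i r) ∈ B) ∧ ∀ r ∈ P, φ (i r) ∈ B.nonunits := by
  have hprime : P.IsPrime := hP.isPrime
  obtain ⟨P0, hP0, hle⟩ := Ideal.exists_minimalPrimes_le (I := ⊥) (J := P) bot_le
  obtain ⟨Q, hQ, hQ0⟩ := Ideal.exists_comap_eq_of_mem_minimalPrimes_of_injective hi P0 hP0
  refine ⟨FractionRing (S ⧸ Q), inferInstance,
    (algebraMap (S ⧸ Q) (FractionRing (S ⧸ Q))).comp (Ideal.Quotient.mk Q), ?_⟩
  set φ : S →+* FractionRing (S ⧸ Q) :=
    (algebraMap (S ⧸ Q) (FractionRing (S ⧸ Q))).comp (Ideal.Quotient.mk Q) with hφ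
  have hker : ∀ s, φ s = 0 → s ∈ Q := by
    intro s hs
    have h1 : algebraMap (S ⧸ Q) (FractionRing (S ⧸ Q)) (Ideal.Quotient.mk Q s) = 0 := hs
    have h2 := (map_eq_zero_iff _ (IsFractionRing.injective (S ⧸ Q) (FractionRing (S ⧸ Q)))).1 h1
    exact Ideal.Quotient.eq_zero_iff_mem.1 h2
  have hu : ∀ y : P.primeCompl, IsUnit ((φ.comp i) (y : R)) := by
    intro y
    refine IsUnit.mk0 _ fun h0 => y.2 ?_
    have h1 : i (y : R) ∈ Q := hker _ h0
    have h2 : (y : R) ∈ P0 := by
      rw [← hQ0]
      exact h1
    exact hle h2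
  let ψ : Localization.AtPrime P →+* FractionRing (S ⧸ Q) := IsLocalization.lift hu
  obtain ⟨B, hB, hloc⟩ := IsLocalRing.exists_factor_valuationRing ψ
  have hψ : ∀ r : R, ψ (algebraMap R (Localization.AtPrime P) r) = φ (i r) := fun r =>
    IsLocalization.lift_eq hu r
  refine ⟨B, fun r => ?_, fun r hr => ?_⟩
  · rw [← hψ]
    exact hB _
  · rw [← hψ]
    refine (ValuationSubring.mem_nonunits_iff_exists_mem_maximalIdeal).2 ⟨hB _, ?_⟩
    rw [IsLocalRing.mem_maximalIdeal]
    intro hunit
    have h1 : IsUnit (algebraMap R (Localization.AtPrime P) r) :=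
      hloc.map_nonunit _ hunit
    exact ((IsLocalization.AtPrime.isUnit_to_map_iff (Localization.AtPrime P) P r).1 h1) hr

/-- `S` is a commutative `K`-algebra, `f_j ∈ S`, and no polynomial in the `f_j` without constant
term (over `K`) is equal to `1`.  Then there are a field `L`, a ring map `φ : S → L` and a valuation
ring `B` of `L` such that `φ(K) ⊆ B` and all `φ(f_j)` are in the maximal ideal of `B`.

Proof.  `R = Algebra.adjoin K (range f)`.  The ideal `𝔞` of `R` generated by the `f_j` is proper, since
its elements are `K`-combinations of products of nonempty lists of `f_j`'s.  So it is contained in a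
maximal ideal `𝔭` of `R`; let `𝔭₀ ≤ 𝔭` be a minimal prime of `R` (`Ideal.exists_minimalPrimes_le`).
By `Ideal.exists_comap_eq_of_mem_minimalPrimes_of_injective` there is a prime `𝔮` of `S` with
`𝔮 ∩ R = 𝔭₀`.  `L = FractionRing (S ⧸ 𝔮)`, `φ` the canonical map.  The elements of `R \ 𝔭` are not in
`𝔭₀`, so `φ` maps them to nonzero elements of `L`, and `φ|R` extends to
`Localization.AtPrime 𝔭 → L`.  Apply `IsLocalRing.exists_factor_valuationRing`; since the map to
`B` is local, the images of the elements of `𝔭` are nonunits of `B`. -/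
theorem val_dom {S : Type u} [CommRing S] {K : Type v} [Field K] [Algebra K S] {J : Type w'}
    (f : J → S)
    (h : ∀ A : List J →₀ K, A [] = 0 → (A.sum fun l r => r • (l.map f).prod) ≠ 1) :
    ∃ (L : Type u) (_ : Field L) (φ : S →+* L) (B : ValuationSubring L),
      (∀ r : K, φ (algebraMap K S r) ∈ B) ∧ ∀ j, φ (f j) ∈ B.nonunits := by
  classical
  let M : Submodule K S := Submodule.span K ((fun l : List J => (l.map f).prod) '' {l | l ≠ []})
  have h1 : (1 : S) ∉ M := by
    intro h1
    obtain ⟨A, hA, hA2⟩ := Finsupp.mem_span_image_iff_linearCombination K |>.1 h1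
    refine h A ?_ hA2
    by_contra h0
    have h2 : ([] : List J) ∈ A.support := Finsupp.mem_support_iff.2 h0
    exact (hA h2) rfl
  let I : Ideal (Algebra.adjoin K (Set.range f)) :=
    { carrier := {r | (r : S) ∈ M}
      add_mem' := fun {a b} ha hb => M.add_mem ha hb
      zero_mem' := M.zero_mem
      smul_mem' := fun c x hx => ValDom_adjoin f c.2 _ hx }
  have hI : I ≠ ⊤ := by
    intro hI
    have h2 : (1 : Algebra.adjoin K (Set.range f)) ∈ I := by
      rw [hI]
      exact Submodule.mem_top
    exact h1 h2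
  obtain ⟨P, hP, hIP⟩ := Ideal.exists_le_maximal I hI
  obtain ⟨L, hL, φ, B, hB1, hB2⟩ := ValDom_ext
    (algebraMap (Algebra.adjoin K (Set.range f)) S) Subtype.val_injective P hP
  refine ⟨L, hL, φ, B, fun r => ?_, fun j => ?_⟩
  · exact hB1 (algebraMap K (Algebra.adjoin K (Set.range f)) r)
  · refine hB2 ⟨f j, Algebra.subset_adjoin ⟨j, rfl⟩⟩ (hIP ?_)
    show f j ∈ M
    refine Submodule.subset_span ⟨[j], List.cons_ne_nil _ _, ?_⟩
    show ([j].map f).prod = f j
    rw [List.map_cons, List.map_nil, List.prod_cons, List.prod_nil, mul_one]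

end H69
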